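import Pool.Agent.Q288.RB.Stm

/-!
# Comparison with a supersolution of the one-step inequality
-/

open MeasureTheory ProbabilityTheory Filter Set
open scoped ENNReal Topology

namespace Pool.Agent.Q288.RB

theorem t_cmp (hm : St_meas) (hg : St_good) (hs : St_shift) : St_cmp := by
  intro μ _ hμ β γ g κ H T hgm hκm hHm hκ hH n
  have hX := hm.2.2.2.2.2.2.2.2 β γ g κ hgm hκm
  have hstep := hm.2.2.1 β γ
  induction n with
  | zero =>
    intro t s ht htT hsg
    simp only [X, lintegral_const, measure_univ, mul_one]
    exact hκ t s ht htT hsg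
  | succ n ih =>
    intro t s ht htT hsg
    have hF : Measurable (fun q : In × (ℕ → In) => if t < q.1.1 / rate s then g s
        else X β γ g κ n (t - q.1.1 / rate s) (step β γ s q.1) q.2) := by
      refine Measurable.ite ?_ measurable_const ?_
      · exact measurableSet_lt measurable_const (measurable_fst.fst.div_const _)
      · have h2 : Measurable (fun q : In × (ℕ → In) =>
            (t - q.1.1 / rate s, step β γ s q.1, q.2)) := by
          refine Measurable.prodMk (measurable_const.sub (measurable_fst.fst.div_const _)) ?_
          refine Measurable.prodMk ?_ measurable_snd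
          exact hstep.comp (measurable_const.prodMk measurable_fst)
        exact (hX n).comp h2
    have h1 : ∫⁻ w, X β γ g κ (n + 1) t s w ∂(Qm μ)
        = ∫⁻ i, (if t < i.1 / rate s then g s
          else ∫⁻ w, X β γ g κ n (t - i.1 / rate s) (step β γ s i) w ∂(Qm μ)) ∂(nu μ) := by
      have h2 : ∫⁻ w, X β γ g κ (n + 1) t s w ∂(Qm μ)
          = ∫⁻ q, (if t < q.1.1 / rate s then g s
            else X β γ g κ n (t - q.1.1 / rate s) (step β γ s q.1) q.2) ∂((nu μ).prod (Qm μ)) := by
        rw [← hs.1 μ, lintegral_map hF (by fun_prop)]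
        rfl
      rw [h2, lintegral_prod _ hF.aemeasurable]
      refine lintegral_congr fun i => ?_
      by_cases h : t < i.1 / rate s
      · simp [h]
      · simp [h]
    rw [h1]
    refine le_trans (lintegral_mono_ae ?_) (hH t s ht htT hsg)
    filter_upwards [(hg.2.2.2.2.2.2.1 μ hμ).1] with i hi
    by_cases h : t < i.1 / rate s
    · simp [h]
    · simp only [h, if_false]
      have hr : 0 < i.1 / rate s := div_pos hi.1 (hg.2.1 s hsg)
      exact ih _ _ (by linarith [not_lt.1 h]) (by linarith) (hg.1 β γ s i hsg hi).1

end Pool.Agent.Q288.RB
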