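import Pool.Agent.Q288.RB.Stm

/-!
# Duhamel inequality and the renewal inequality
-/

open MeasureTheory ProbabilityTheory Filter Set
open scoped ENNReal Topology

namespace Pool.Agent.Q288.RB

theorem t_duh : St_duh := by
  intro T q F F' G hT hq hF0 hFc hFd hGF hG0 hGm hGb t ht
  obtain ⟨C, hC⟩ := hGb
  have ht0 : 0 ≤ t := ht.1
  -- the real inequality
  have hGint : IntegrableOn (fun s => Real.exp (q * s) * G s) (Icc 0 t) := by
    have hfin : volume (Icc (0 : ℝ) t) ≠ ⊤ := by simp
    refine Measure.integrableOn_of_bounded (M := Real.exp (q * T) * |C|) hfin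
      (by fun_prop) ?_
    refine (ae_restrict_mem measurableSet_Icc).mono fun s hs => ?_
    have hsT : s ∈ Icc 0 T := ⟨hs.1, hs.2.trans ht.2⟩
    rw [Real.norm_of_nonneg (mul_nonneg (Real.exp_pos _).le (hG0 s hsT))]
    refine mul_le_mul (Real.exp_le_exp.2 (mul_le_mul_of_nonneg_left hsT.2 hq))
      ((hC s hsT).trans (le_abs_self _)) (hG0 s hsT) (Real.exp_pos _).le
  have h1 : ∫ s in (0 : ℝ)..t, Real.exp (q * s) * G s
      ≤ Real.exp (q * t) * F t - Real.exp (q * 0) * F 0 := by
    refine intervalIntegral.integral_le_sub_of_hasDeriv_right_of_le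
      (g := fun s => Real.exp (q * s) * F s)
      (g' := fun s => Real.exp (q * s) * q * F s + Real.exp (q * s) * F' s) ht0 ?_ ?_ hGint ?_
    · exact (Continuous.continuousOn (by fun_prop)).mul (hFc.mono (Icc_subset_Icc_right ht.2))
    · intro s hs
      have hd : HasDerivAt (fun s => Real.exp (q * s)) (Real.exp (q * s) * q) s := by
        have := ((hasDerivAt_id s).const_mul q).exp
        simpa using this
      exact hd.hasDerivWithinAt.mul (hFd s ⟨hs.1.le, lt_of_lt_of_le hs.2 ht.2⟩)
    · intro s hs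
      have := hGF s ⟨hs.1.le, lt_of_lt_of_le hs.2 ht.2⟩
      have he := Real.exp_pos (q * s)
      nlinarith
  have h2 : ∫ r in (0 : ℝ)..t, Real.exp (-(q * r)) * G (t - r)
      = Real.exp (-(q * t)) * ∫ s in (0 : ℝ)..t, Real.exp (q * s) * G s := by
    have := intervalIntegral.integral_comp_sub_left
      (fun s => Real.exp (-(q * (t - s))) * G s) (a := 0) (b := t) t
    simp only [sub_sub_cancel, sub_self, sub_zero] at this
    rw [this, ← intervalIntegral.integral_const_mul]
    refine intervalIntegral.integral_congr fun s _ => ?_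
    rw [show -(q * (t - s)) = -(q * t) + q * s by ring, Real.exp_add]
    ring
  have h3 : ∫ r in (0 : ℝ)..t, Real.exp (-(q * r)) * G (t - r)
      ≤ F t - Real.exp (-(q * t)) * F 0 := by
    rw [h2]
    have he := Real.exp_pos (-(q * t))
    have h4 := mul_le_mul_of_nonneg_left h1 he.le
    have h5 : Real.exp (-(q * t)) * Real.exp (q * t) = 1 := by
      rw [← Real.exp_add]; simp
    calc _ ≤ _ := h4
      _ = (Real.exp (-(q * t)) * Real.exp (q * t)) * F t - Real.exp (-(q * t)) * F 0 := by
        simp; ring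
      _ = _ := by rw [h5, one_mul]
  have h6 : ∫⁻ r in Ioc 0 t, ENNReal.ofReal (Real.exp (-(q * r)) * G (t - r))
      = ENNReal.ofReal (∫ r in (0 : ℝ)..t, Real.exp (-(q * r)) * G (t - r)) := by
    rw [intervalIntegral.integral_of_le ht0, ofReal_integral_eq_lintegral_ofReal]
    · have hfin : volume (Ioc (0 : ℝ) t) ≠ ⊤ := by simp
      refine Measure.integrableOn_of_bounded (M := |C|) hfin
        (by fun_prop) ?_
      refine (ae_restrict_mem measurableSet_Ioc).mono fun r hr => ?_
      have hsT : t - r ∈ Icc 0 T := ⟨by linarith [hr.2], by linarith [hr.1, ht.2]⟩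
      rw [Real.norm_of_nonneg (mul_nonneg (Real.exp_pos _).le (hG0 _ hsT))]
      have : Real.exp (-(q * r)) ≤ 1 := by
        rw [Real.exp_le_one_iff]; nlinarith [hr.1]
      have h7 := (hC _ hsT).trans (le_abs_self C)
      have h8 := hG0 _ hsT
      nlinarith [Real.exp_pos (-(q * r))]
    · refine (ae_restrict_mem measurableSet_Ioc).mono fun r hr => ?_
      have hsT : t - r ∈ Icc 0 T := ⟨by linarith [hr.2], by linarith [hr.1, ht.2]⟩
      exact mul_nonneg (Real.exp_pos _).le (hG0 _ hsT)
  rw [h6, ← ENNReal.ofReal_add (mul_nonneg (Real.exp_pos _).le hF0)]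
  · exact ENNReal.ofReal_le_ofReal (by linarith)
  · refine intervalIntegral.integral_nonneg ht0 fun r hr => ?_
    have hsT : t - r ∈ Icc 0 T := ⟨by linarith [hr.2], by linarith [hr.1, ht.2]⟩
    exact mul_nonneg (Real.exp_pos _).le (hG0 _ hsT)

lemma integral_pow_le (p L c : ℝ) (hp : 1 < p) (hL : 0 < L) (hc : 0 ≤ c) :
    ∫ r in (0 : ℝ)..c, (1 + r / L) ^ (-p) ≤ L / (p - 1) := by
  have h := intervalIntegral.integral_comp_add_div (a := 0) (b := c) (fun x : ℝ => x ^ (-p))
    hL.ne' 1
  have hcL : 0 ≤ c / L := by positivity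
  rw [h, integral_rpow]
  · simp only [zero_div, add_zero, Real.one_rpow, smul_eq_mul]
    have h1 : 0 ≤ (1 + c / L) ^ (-p + 1) := by positivity
    rw [show (-p + 1) = -(p - 1) by ring] at h1 ⊢
    rw [div_neg, ← neg_div, neg_sub, mul_div_assoc']
    apply div_le_div_of_nonneg_right _ (by linarith)
    nlinarith
  · right
    refine ⟨by linarith, ?_⟩
    simp only [zero_div, add_zero]
    rw [Set.uIcc_of_le (by linarith)]
    intro h0
    linarith [h0.1]

lemma exists_L (D' p e : ℝ) (hp : 1 < p) (he : 0 < e) :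
    ∃ L : ℝ, 1 ≤ L ∧ D' * L ^ (1 - p) ≤ e := by
  have h1 : Tendsto (fun L : ℝ => D' * L ^ (-(p - 1))) atTop (𝓝 (D' * 0)) :=
    (tendsto_rpow_neg_atTop (by linarith)).const_mul _
  rw [mul_zero] at h1
  obtain ⟨L, hL, hL1⟩ := ((h1.eventually (gt_mem_nhds he)).and (eventually_ge_atTop 1)).exists
  exact ⟨L, hL1, by rw [show (1 - p) = -(p - 1) by ring]; exact hL.le⟩

theorem t_sub : St_sub := by
  intro h b p C hp hhc hbc hh0 hb0 hh hb hB
  set B : ℝ := ∫ t in Ioi (0 : ℝ), b t with hBdef
  have hB0 : 0 ≤ B := integral_nonneg fun t => hb0 t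
  set D : ℝ := C + 1 with hD
  have hC0 : 0 ≤ C := by
    have := (hh0 0).trans (hh 0 le_rfl)
    simpa using this
  have hD0 : 0 < D := by positivity
  have hhD : ∀ t, 0 ≤ t → h t ≤ D * (1 + t) ^ (-p) := fun t ht =>
    (hh t ht).trans (mul_le_mul_of_nonneg_right (by linarith) (by positivity))
  have hbD : ∀ t, 0 ≤ t → b t ≤ D * (1 + t) ^ (-p) := fun t ht =>
    (hb t ht).trans (mul_le_mul_of_nonneg_right (by linarith) (by positivity))
  have hbint : IntegrableOn b (Ioi 0) := by
    have h1 : IntegrableOn (fun x : ℝ => D * (x + 1) ^ (-p)) (Ioi 0) :=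
      (integrableOn_add_rpow_Ioi_of_lt (by linarith) (by norm_num)).const_mul D
    refine h1.mono' hbc.aestronglyMeasurable.restrict ?_
    refine (ae_restrict_mem measurableSet_Ioi).mono fun x hx => ?_
    rw [Real.norm_of_nonneg (hb0 x), add_comm x 1]
    exact hbD x (le_of_lt hx)
  have hbB : ∀ x, 0 ≤ x → ∫ r in (0 : ℝ)..x, b r ≤ B := by
    intro x hx
    rw [intervalIntegral.integral_of_le hx]
    exact setIntegral_mono_set hbint (Eventually.of_forall fun t => hb0 t)
      (Ioc_subset_Ioi_self.eventuallyLE)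
  set B' : ℝ := (1 + B) / 2 with hB'
  have hBB' : B < B' := by rw [hB']; linarith
  have hB'1 : B' < 1 := by rw [hB']; linarith
  -- delta
  obtain ⟨δ, hδ0, hδ1, hδ⟩ : ∃ δ : ℝ, 0 < δ ∧ δ < 1 ∧ B * (1 - δ) ^ (-p) ≤ B' := by
    have hc : ContinuousAt (fun δ : ℝ => B * (1 - δ) ^ (-p)) 0 := by
      refine continuousAt_const.mul (ContinuousAt.rpow_const (by fun_prop) (Or.inl (by norm_num)))
    have h1 : ∀ᶠ δ : ℝ in 𝓝[>] 0, B * (1 - δ) ^ (-p) < B' := by
      have := hc.tendsto.mono_left (nhdsWithin_le_nhds (s := Ioi 0))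
      refine this.eventually (gt_mem_nhds ?_)
      simpa using hBB'
    have h2 : ∀ᶠ δ : ℝ in 𝓝[>] 0, δ ∈ Ioo (0 : ℝ) 1 := Ioo_mem_nhdsGT one_pos
    obtain ⟨δ, h3, h4⟩ := (h1.and h2).exists
    exact ⟨δ, h4.1, h4.2, h3.le⟩
  obtain ⟨η, hη0, hη⟩ : ∃ η : ℝ, 0 < η ∧ B * (1 + η) ^ p ≤ B' := by
    have hc : ContinuousAt (fun η : ℝ => B * (1 + η) ^ p) 0 := by
      refine continuousAt_const.mul (ContinuousAt.rpow_const (by fun_prop) (Or.inl (by norm_num)))
    have h1 : ∀ᶠ η : ℝ in 𝓝[>] 0, B * (1 + η) ^ p < B' := by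
      have := hc.tendsto.mono_left (nhdsWithin_le_nhds (s := Ioi 0))
      refine this.eventually (gt_mem_nhds ?_)
      simpa using hBB'
    have h2 : ∀ᶠ η : ℝ in 𝓝[>] 0, η ∈ Ioi (0 : ℝ) := self_mem_nhdsWithin
    obtain ⟨η, h3, h4⟩ := (h1.and h2).exists
    exact ⟨η, h4, h3.le⟩
  obtain ⟨L, hL1, hL⟩ := exists_L (D * ((1 + 1 / η) / δ) ^ p / (p - 1)) p ((1 - B') / 2) hp
    (by linarith)
  have hL0 : 0 < L := by linarith
  set B'' : ℝ := (1 + B') / 2 with hB''
  have hB''1 : B'' < 1 := by rw [hB'']; linarith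
  have hcont : ∀ x, 0 ≤ x → ContinuousOn (fun r : ℝ => (1 + r / L) ^ (-p)) (Icc 0 x) := by
    intro x hx
    refine ContinuousOn.rpow_const (by fun_prop) fun r hr => Or.inl ?_
    have : 0 ≤ r / L := div_nonneg hr.1 hL0.le
    positivity
  -- the convolution bound
  have hJ : ∀ t, 0 ≤ t → ∫ r in (0 : ℝ)..t, b (t - r) * (1 + r / L) ^ (-p)
      ≤ B'' * (1 + t / L) ^ (-p) := by
    intro t ht
    have htL : 0 ≤ t / L := div_nonneg ht hL0.le
    have hpos : 0 < (1 + t / L) ^ (-p) := by positivity
    have hii : ∀ x y, 0 ≤ x → x ≤ y → y ≤ t →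
        IntervalIntegrable (fun r => b (t - r) * (1 + r / L) ^ (-p)) volume x y := by
      intro x y hx hxy hy
      refine ContinuousOn.intervalIntegrable ?_
      rw [Set.uIcc_of_le hxy]
      exact (Continuous.continuousOn (by fun_prop)).mul
        ((hcont y (hx.trans hxy)).mono (Icc_subset_Icc_left hx))
    have hbi : ∀ x y : ℝ, IntervalIntegrable (fun r => b (t - r)) volume x y := fun x y =>
      (Continuous.intervalIntegrable (by fun_prop) _ _)
    have hle1 : ∀ r, 0 ≤ r → (1 + r / L) ^ (-p) ≤ 1 := by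
      intro r hr
      have : 0 ≤ r / L := div_nonneg hr hL0.le
      exact Real.rpow_le_one_of_one_le_of_nonpos (by linarith) (by linarith)
    rcases le_total t (η * L) with hcase | hcase
    · -- small times
      have h1 : ∫ r in (0 : ℝ)..t, b (t - r) * (1 + r / L) ^ (-p) ≤ B := by
        calc ∫ r in (0 : ℝ)..t, b (t - r) * (1 + r / L) ^ (-p)
            ≤ ∫ r in (0 : ℝ)..t, b (t - r) := by
              refine intervalIntegral.integral_mono_on ht (hii 0 t le_rfl ht le_rfl) (hbi 0 t)
                fun r hr => ?_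
              exact mul_le_of_le_one_right (hb0 _) (hle1 r hr.1)
          _ = ∫ r in (0 : ℝ)..t, b r := by
              rw [intervalIntegral.integral_comp_sub_left (fun r => b r) t]; simp
          _ ≤ B := hbB t ht
      have h2 : (1 + t / L) ^ p ≤ (1 + η) ^ p := by
        refine Real.rpow_le_rpow (by positivity) ?_ (by linarith)
        have : t / L ≤ η := by rwa [div_le_iff₀ hL0]
        linarith
      have h3 : B * (1 + t / L) ^ p ≤ B' := (mul_le_mul_of_nonneg_left h2 hB0).trans hη
      have h4 : B ≤ B' * (1 + t / L) ^ (-p) := by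
        rw [Real.rpow_neg (by positivity), ← div_eq_mul_inv, le_div_iff₀ (by positivity)]
        exact h3
      refine h1.trans (h4.trans ?_)
      exact mul_le_mul_of_nonneg_right (by rw [hB'']; linarith) hpos.le
    · -- large times
      set c : ℝ := (1 - δ) * t with hc
      have hc0 : 0 ≤ c := mul_nonneg (by linarith) ht
      have hct : c ≤ t := by rw [hc]; nlinarith
      have hsplit := intervalIntegral.integral_add_adjacent_intervals (hii 0 c le_rfl hc0 hct)
        (hii c t hc0 hct le_rfl)
      rw [← hsplit]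
      have hB1 : ∫ r in c..t, b (t - r) * (1 + r / L) ^ (-p) ≤ B' * (1 + t / L) ^ (-p) := by
        have hk : (1 + c / L) ^ (-p) ≤ (1 - δ) ^ (-p) * (1 + t / L) ^ (-p) := by
          rw [← Real.mul_rpow (by linarith) (by positivity)]
          refine Real.rpow_le_rpow_of_nonpos (mul_pos (by linarith) (by positivity)) ?_
            (by linarith)
          rw [hc, mul_div_assoc]
          nlinarith
        calc ∫ r in c..t, b (t - r) * (1 + r / L) ^ (-p)
            ≤ ∫ r in c..t, b (t - r) * (1 + c / L) ^ (-p) := by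
              refine intervalIntegral.integral_mono_on hct (hii c t hc0 hct le_rfl)
                ((hbi c t).mul_const _) fun r hr => ?_
              refine mul_le_mul_of_nonneg_left ?_ (hb0 _)
              refine Real.rpow_le_rpow_of_nonpos (by positivity) ?_ (by linarith)
              have := div_le_div_of_nonneg_right hr.1 hL0.le
              linarith
          _ = (∫ r in c..t, b (t - r)) * (1 + c / L) ^ (-p) := by
              rw [intervalIntegral.integral_mul_const]
          _ = (∫ r in (0 : ℝ)..(t - c), b r) * (1 + c / L) ^ (-p) := by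
              rw [intervalIntegral.integral_comp_sub_left (fun r => b r) t]; simp
          _ ≤ B * ((1 - δ) ^ (-p) * (1 + t / L) ^ (-p)) :=
              mul_le_mul (hbB _ (by linarith)) hk (by positivity) hB0
          _ = (B * (1 - δ) ^ (-p)) * (1 + t / L) ^ (-p) := by ring
          _ ≤ B' * (1 + t / L) ^ (-p) := mul_le_mul_of_nonneg_right hδ hpos.le
      have hA1 : ∫ r in (0 : ℝ)..c, b (t - r) * (1 + r / L) ^ (-p)
          ≤ (1 - B') / 2 * (1 + t / L) ^ (-p) := by
        have ht0 : 0 < t := lt_of_lt_of_le (by positivity) hcase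
        have hk : (1 + δ * t) ^ (-p) ≤ (((1 + 1 / η) / δ) ^ p * L ^ (-p)) * (1 + t / L) ^ (-p) := by
          have h1 : (1 + t / L) ≤ (1 + δ * t) * ((1 + 1 / η) / δ * L⁻¹) := by
            have h2 : 1 ≤ t / L * (1 / η) := by
              rw [div_mul_div_comm, mul_one, le_div_iff₀ (by positivity)]
              linarith
            have h3 : (1 + δ * t) * ((1 + 1 / η) / δ * L⁻¹) = (1 + 1 / η) / δ * L⁻¹
                + (1 + 1 / η) * (t / L) := by
              field_simp
            rw [h3]
            have h4 : 0 < (1 + 1 / η) / δ * L⁻¹ := by positivity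
            nlinarith
          have h2 : (1 + t / L) ^ p ≤ (1 + δ * t) ^ p * (((1 + 1 / η) / δ) ^ p * L ^ (-p)) := by
            calc (1 + t / L) ^ p ≤ ((1 + δ * t) * ((1 + 1 / η) / δ * L⁻¹)) ^ p :=
                  Real.rpow_le_rpow (by positivity) h1 (by linarith)
              _ = _ := by
                rw [Real.mul_rpow (by positivity) (by positivity),
                  Real.mul_rpow (by positivity) (by positivity), Real.inv_rpow hL0.le,
                  Real.rpow_neg hL0.le]
          rw [Real.rpow_neg (by positivity : (0:ℝ) ≤ 1 + δ * t),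
            Real.rpow_neg (by positivity : (0:ℝ) ≤ 1 + t / L), ← div_eq_mul_inv,
            le_div_iff₀ (by positivity), inv_mul_le_iff₀ (by positivity)]
          exact h2
        calc ∫ r in (0 : ℝ)..c, b (t - r) * (1 + r / L) ^ (-p)
            ≤ ∫ r in (0 : ℝ)..c, D * (1 + δ * t) ^ (-p) * (1 + r / L) ^ (-p) := by
              refine intervalIntegral.integral_mono_on hc0 (hii 0 c le_rfl hc0 hct) ?_
                fun r hr => ?_
              · refine ContinuousOn.intervalIntegrable ?_
                rw [Set.uIcc_of_le hc0]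
                exact continuousOn_const.mul (hcont c hc0)
              · have hr0 : 0 ≤ r / L := div_nonneg hr.1 hL0.le
                refine mul_le_mul_of_nonneg_right ?_ (by positivity)
                have hs : δ * t ≤ t - r := by
                  have := hr.2
                  rw [hc] at this
                  linarith
                refine (hbD (t - r) ((by positivity : 0 ≤ δ * t).trans hs)).trans ?_
                refine mul_le_mul_of_nonneg_left ?_ hD0.le
                exact Real.rpow_le_rpow_of_nonpos (by positivity) (by linarith) (by linarith)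
          _ = D * (1 + δ * t) ^ (-p) * ∫ r in (0 : ℝ)..c, (1 + r / L) ^ (-p) := by
              rw [intervalIntegral.integral_const_mul]
          _ ≤ D * (1 + δ * t) ^ (-p) * (L / (p - 1)) :=
              mul_le_mul_of_nonneg_left (integral_pow_le p L c hp hL0 hc0) (by positivity)
          _ ≤ D * ((((1 + 1 / η) / δ) ^ p * L ^ (-p)) * (1 + t / L) ^ (-p)) * (L / (p - 1)) := by
              refine mul_le_mul_of_nonneg_right (mul_le_mul_of_nonneg_left hk hD0.le) ?_
              exact div_nonneg hL0.le (by linarith)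
          _ = (D * ((1 + 1 / η) / δ) ^ p / (p - 1) * L ^ (1 - p)) * (1 + t / L) ^ (-p) := by
              rw [show (1 - p) = 1 + (-p) by ring, Real.rpow_add hL0, Real.rpow_one]
              ring
          _ ≤ (1 - B') / 2 * (1 + t / L) ^ (-p) := mul_le_mul_of_nonneg_right hL hpos.le
      calc _ ≤ (1 - B') / 2 * (1 + t / L) ^ (-p) + B' * (1 + t / L) ^ (-p) := add_le_add hA1 hB1
        _ = B'' * (1 + t / L) ^ (-p) := by rw [hB'']; ring
  refine ⟨D / (1 - B''), L, div_pos hD0 (by linarith), hL1, ?_⟩
  intro t ht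
  have htL : 0 ≤ t / L := div_nonneg ht hL0.le
  set K : ℝ := D / (1 - B'') with hK
  have hK0 : 0 < K := div_pos hD0 (by linarith)
  have hKD : K * (1 - B'') = D := div_mul_cancel₀ _ (by linarith)
  have h1 : ∫ r in (0 : ℝ)..t, b (t - r) * (K * (1 + r / L) ^ (-p))
      = K * ∫ r in (0 : ℝ)..t, b (t - r) * (1 + r / L) ^ (-p) := by
    rw [← intervalIntegral.integral_const_mul]
    refine intervalIntegral.integral_congr fun r _ => ?_
    ring
  rw [h1]
  have h2 : h t ≤ D * (1 + t / L) ^ (-p) := by
    refine (hhD t ht).trans (mul_le_mul_of_nonneg_left ?_ hD0.le)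
    refine Real.rpow_le_rpow_of_nonpos (by positivity) ?_ (by linarith)
    have := div_le_self ht hL1
    linarith
  have h3 := mul_le_mul_of_nonneg_left (hJ t ht) hK0.le
  calc _ ≤ D * (1 + t / L) ^ (-p) + K * (B'' * (1 + t / L) ^ (-p)) := add_le_add h2 h3
    _ = K * (1 + t / L) ^ (-p) := by rw [← hKD]; ring

end Pool.Agent.Q288.RB
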