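import Pool.Agent.Q288.RB.Stm

/-!
# The reinforced branching process: assembly
-/

open MeasureTheory ProbabilityTheory Filter Set
open scoped ENNReal Topology

namespace Pool.Agent.Q288.RB

/-- initial fitness and the randomness of the births -/
def ini {Ω : Type} (W : ℕ → Ω → In) (ω : Ω) : ℝ × (ℕ → In) := ((W 0 ω).2.2.2, fun k => W (k + 1) ω)

/-- population size at time `t`, started from one individual of fitness `p.1` -/
noncomputable def pN (β γ : ℝ) (t : ℝ) (p : ℝ × (ℕ → In)) : ℝ≥0∞ := pop β γ (st0 p.1) p.2 t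

lemma map_nu (μ : Measure ℝ) [IsProbabilityMeasure μ] :
    (nu μ).map (fun i : In => i.2.2.2) = μ := by
  unfold nu
  have h1 : MeasurePreserving (Prod.snd : In → _) ((expMeasure 1).prod
      ((volume.restrict (Icc (0 : ℝ) 1)).prod ((volume.restrict (Icc (0 : ℝ) 1)).prod μ))) _ :=
    measurePreserving_snd
  have h2 : MeasurePreserving (Prod.snd : ℝ × ℝ × ℝ → _) ((volume.restrict (Icc (0 : ℝ) 1)).prod
      ((volume.restrict (Icc (0 : ℝ) 1)).prod μ)) _ := measurePreserving_snd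
  have h3 : MeasurePreserving (Prod.snd : ℝ × ℝ → _)
      ((volume.restrict (Icc (0 : ℝ) 1)).prod μ) _ := measurePreserving_snd
  exact ((h3.comp h2).comp h1).map_eq

lemma measurable_ini {Ω : Type} [MeasurableSpace Ω] (W : ℕ → Ω → In)
    (hW : ∀ k, Measurable (W k)) : Measurable (ini W) := by
  unfold ini
  refine Measurable.prodMk ?_ (measurable_pi_lambda _ fun k => hW (k + 1))
  exact ((hW 0).snd.snd.snd)

lemma law_ini (hs : St_shift) (μ : Measure ℝ) [IsProbabilityMeasure μ] {Ω : Type}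
    [MeasurableSpace Ω] (P : Measure Ω) [IsProbabilityMeasure P] (W : ℕ → Ω → In)
    (hW : ∀ k, Measurable (W k)) (hind : iIndepFun W P) (hlaw : ∀ k, P.map (W k) = nu μ) :
    P.map (ini W) = μ.prod (Qm μ) := by
  have h := hs.2 μ Ω P W hW hind hlaw
  have hF : Measurable (Prod.map (fun i : In => i.2.2.2) (id : (ℕ → In) → (ℕ → In))) := by
    fun_prop
  have hG : Measurable (fun ω => (W 0 ω, fun k => W (k + 1) ω)) :=
    (hW 0).prodMk (measurable_pi_lambda _ fun k => hW (k + 1))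
  have h2 : ini W = (Prod.map (fun i : In => i.2.2.2) (id : (ℕ → In) → (ℕ → In))) ∘
      (fun ω => (W 0 ω, fun k => W (k + 1) ω)) := by
    funext ω; rfl
  rw [h2, ← Measure.map_map hF hG, h,
    ← Measure.map_prod_map (nu μ) (Qm μ) (by fun_prop) measurable_id, map_nu, Measure.map_id]

lemma ae_good (hg : St_good) (μ : Measure ℝ) [IsProbabilityMeasure μ] (hμ : μ (Ioo 0 1)ᶜ = 0) :
    ∀ᵐ p ∂(μ.prod (Qm μ)), p.1 ∈ Ioo (0 : ℝ) 1 ∧ ∀ k, Gi (p.2 k) := by
  have h1 : ∀ᵐ f ∂μ, f ∈ Ioo (0 : ℝ) 1 := by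
    rw [ae_iff]; exact hμ
  have h2 := (hg.2.2.2.2.2.2.1 μ hμ).2
  have h3 : ∀ᵐ p ∂(μ.prod (Qm μ)), p.1 ∈ Ioo (0 : ℝ) 1 :=
    Measure.quasiMeasurePreserving_fst.ae h1
  have h4 : ∀ᵐ p ∂(μ.prod (Qm μ)), ∀ k, Gi (p.2 k) :=
    Measure.quasiMeasurePreserving_snd.ae h2
  filter_upwards [h3, h4] with p ha hb using ⟨ha, hb⟩

lemma measurable_pN (hm : St_meas) (β γ t : ℝ) : Measurable (pN β γ t) := by
  have h := hm.2.2.2.2.2.2.2.1 β γ t
  have h2 : Measurable (fun p : ℝ × (ℕ → In) => (st0 p.1, p.2)) :=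
    (hm.2.2.2.2.2.2.1.comp measurable_fst).prodMk measurable_snd
  exact h.comp h2

lemma pN_mono (β γ : ℝ) (p : ℝ × (ℕ → In)) {s t : ℝ} (h : s ≤ t) : pN β γ s p ≤ pN β γ t p := by
  unfold pN pop
  refine iSup_mono fun k => ?_
  exact iSup_mono' fun hk => ⟨hk.trans h, le_rfl⟩

lemma mean_le (hm : St_meas) (hg : St_good) (hp : St_pop) (μ : Measure ℝ) [IsProbabilityMeasure μ]
    (hμ : μ (Ioo 0 1)ᶜ = 0) (β γ t : ℝ) (ht : 0 ≤ t) (C : ℝ≥0∞)
    (h : ∀ n, ∫⁻ f, (∫⁻ w, X β γ sz sz n t (st0 f) w ∂(Qm μ)) ∂μ ≤ C) :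
    ∫⁻ p, pN β γ t p ∂(μ.prod (Qm μ)) ≤ C := by
  have hsz : Measurable sz := by
    unfold sz
    exact measurable_from_top.comp hm.2.1
  have hX : ∀ n, Measurable (fun p : ℝ × (ℕ → In) => X β γ sz sz n t (st0 p.1) p.2) := by
    intro n
    have h1 := hm.2.2.2.2.2.2.2.2 β γ sz sz hsz hsz n
    have h2 : Measurable (fun p : ℝ × (ℕ → In) => (t, st0 p.1, p.2)) :=
      measurable_const.prodMk ((hm.2.2.2.2.2.2.1.comp measurable_fst).prodMk measurable_snd)
    exact h1.comp h2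
  have hae := ae_good hg μ hμ
  have heq : ∫⁻ p, pN β γ t p ∂(μ.prod (Qm μ))
      = ∫⁻ p, ⨆ n, X β γ sz sz n t (st0 p.1) p.2 ∂(μ.prod (Qm μ)) := by
    refine lintegral_congr_ae ?_
    filter_upwards [hae] with p hpp
    exact ((hp β γ (st0 p.1) p.2 (hg.2.2.1 p.1 hpp.1) hpp.2).1 t ht).2
  rw [heq, lintegral_iSup' (fun n => (hX n).aemeasurable) ?_]
  · refine iSup_le fun n => ?_
    rw [lintegral_prod _ (hX n).aemeasurable]
    exact h n
  · filter_upwards [hae] with p hpp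
    exact ((hp β γ (st0 p.1) p.2 (hg.2.2.1 p.1 hpp.1) hpp.2).1 t ht).1

lemma one_le_pN (β γ t : ℝ) (ht : 0 ≤ t) (p : ℝ × (ℕ → In)) : 1 ≤ pN β γ t p := by
  unfold pN pop
  refine le_iSup_of_le 0 (le_iSup_of_le (by simpa [tim] using ht) ?_)
  simp [run, size, st0]

/-- the upper tail -/
lemma upper (μ : Measure ℝ) [IsProbabilityMeasure μ] (β γ α ε : ℝ) (hε : 0 < ε)
    (hmp : ∀ t, Measurable (pN β γ t))
    (p K L : ℝ) (hp1 : 1 < p) (hpα : α - ε / 2 ≤ p) (hK : 0 < K) (hL : 1 ≤ L)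
    (hmean : ∀ t, 0 ≤ t → ∫⁻ q, pN β γ t q ∂(μ.prod (Qm μ))
      ≤ ENNReal.ofReal (K * Real.exp (γ * t) * (1 + t / L) ^ (-p))) (ε' : ℝ) (hε' : 0 < ε') :
    ∀ᶠ t in atTop, (μ.prod (Qm μ)) {q | ENNReal.ofReal (Real.exp (γ * t) * t ^ (-(α - ε)))
      ≤ pN β γ t q} ≤ ENNReal.ofReal ε' := by
  have h1 : Tendsto (fun t : ℝ => K * L ^ p * t ^ (-(ε / 2))) atTop (𝓝 (K * L ^ p * 0)) :=
    (tendsto_rpow_neg_atTop (by positivity)).const_mul _
  rw [mul_zero] at h1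
  filter_upwards [h1.eventually (gt_mem_nhds hε'), eventually_ge_atTop 1] with t ht ht1
  have ht0 : 0 < t := by linarith
  have hL0 : 0 < L := by linarith
  have hpos : 0 < Real.exp (γ * t) * t ^ (-(α - ε)) := by positivity
  refine (meas_ge_le_lintegral_div (hmp t).aemeasurable (by simpa using hpos)
    ENNReal.ofReal_ne_top).trans ?_
  refine (ENNReal.div_le_div_right (hmean t ht0.le) _).trans ?_
  rw [← ENNReal.ofReal_div_of_pos hpos]
  refine ENNReal.ofReal_le_ofReal (le_trans ?_ ht.le)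
  rw [div_le_iff₀ hpos]
  have h2 : (1 + t / L) ^ (-p) ≤ L ^ p * t ^ (-p) := by
    rw [Real.rpow_neg (by positivity), Real.rpow_neg ht0.le]
    have h3 : (t / L) ^ p ≤ (1 + t / L) ^ p :=
      Real.rpow_le_rpow (by positivity) (by linarith) (by linarith)
    rw [Real.div_rpow ht0.le hL0.le] at h3
    have h4 : 0 < t ^ p := by positivity
    have h5 : 0 < L ^ p := by positivity
    calc ((1 + t / L) ^ p)⁻¹ ≤ (t ^ p / L ^ p)⁻¹ := inv_anti₀ (by positivity) h3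
      _ = L ^ p * (t ^ p)⁻¹ := by rw [inv_div]; rfl
  have h6 : t ^ (-p) ≤ t ^ (-(ε / 2)) * t ^ (-(α - ε)) := by
    rw [← Real.rpow_add ht0]
    exact Real.rpow_le_rpow_of_exponent_le ht1 (by linarith)
  calc K * Real.exp (γ * t) * (1 + t / L) ^ (-p)
      ≤ K * Real.exp (γ * t) * (L ^ p * t ^ (-p)) := by gcongr
    _ ≤ K * Real.exp (γ * t) * (L ^ p * (t ^ (-(ε / 2)) * t ^ (-(α - ε)))) := by gcongr
    _ = K * L ^ p * t ^ (-(ε / 2)) * (Real.exp (γ * t) * t ^ (-(α - ε))) := by ring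

/-- convergence in probability for the canonical process -/
lemma conv (hm : St_meas) (hg : St_good) (hp : St_pop) (hrv : St_rv) (hup : St_up)
    (hlow : St_low) (μ : Measure ℝ) [IsProbabilityMeasure μ] (hμ : μ (Ioo 0 1)ᶜ = 0) (β γ : ℝ)
    (hpar : Par β γ)
    (hcond : ∫⁻ x, ENNReal.ofReal (1 / (1 - x)) ∂μ < ENNReal.ofReal ((β + γ) / β))
    (α : ℝ) (hα : 1 < α) (ℓ : ℝ → ℝ) (hRV : RV μ α ℓ) (ε : ℝ) (hε : 0 < ε) :
    Tendsto (fun t => (μ.prod (Qm μ)) {q | ε * Real.log t <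
      |Real.log (pN β γ t q).toReal - (γ * t - α * Real.log t)|}) atTop (𝓝 0) := by
  obtain ⟨hr1, hr2⟩ := hrv μ hμ α ℓ (by linarith) hRV
  -- the exponent
  set p : ℝ := max (α - ε / 2) ((1 + α) / 2) with hpdef
  have hp1 : 1 < p := lt_of_lt_of_le (by linarith) (le_max_right _ _)
  have hpα : p < α := max_lt (by linarith) (by linarith)
  obtain ⟨K, L, hK, hL, hmean⟩ := hup μ hμ β γ hpar hcond p hp1 (hr1 p (by linarith) hpα)
  have hmean' : ∀ t, 0 ≤ t → ∫⁻ q, pN β γ t q ∂(μ.prod (Qm μ))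
      ≤ ENNReal.ofReal (K * Real.exp (γ * t) * (1 + t / L) ^ (-p)) := fun t ht =>
    mean_le hm hg hp μ hμ β γ t ht _ fun n => hmean n t ht
  rw [ENNReal.tendsto_nhds_zero]
  intro δ hδ
  obtain ⟨η, hη0, hηδ⟩ : ∃ η : ℝ, 0 < η ∧ ENNReal.ofReal η ≤ δ := by
    by_cases hδt : δ = ⊤
    · exact ⟨1, one_pos, by simp [hδt]⟩
    · exact ⟨δ.toReal, ENNReal.toReal_pos hδ.ne' hδt, (ENNReal.ofReal_toReal hδt).le⟩
  have hA := upper μ β γ α ε hε (fun t => measurable_pN hm β γ t) p K L hp1 (le_max_left _ _) hK hL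
    hmean' (η / 2) (by positivity)
  have hB := hlow μ hμ β γ hpar α (by linarith) hr2 ε (η / 2) hε (by positivity)
  filter_upwards [hA, hB, eventually_gt_atTop 1] with t hA hB ht
  have ht0 : 0 < t := by linarith
  have hfin : ∀ᵐ q ∂(μ.prod (Qm μ)), pN β γ t q < ⊤ :=
    ae_lt_top (measurable_pN hm β γ t) ((hmean' t ht0.le).trans_lt ENNReal.ofReal_lt_top).ne
  refine le_trans ?_ hηδ
  have hsum : ENNReal.ofReal η = ENNReal.ofReal (η / 2) + ENNReal.ofReal (η / 2) := by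
    rw [← ENNReal.ofReal_add (by positivity) (by positivity)]; congr 1; ring
  rw [hsum]
  refine le_trans ?_ (add_le_add hA hB)
  refine le_trans (measure_mono_ae ?_) (measure_union_le _ _)
  filter_upwards [hfin] with q hq hq2
  have h1 := one_le_pN β γ t ht0.le q
  have hreal : 1 ≤ (pN β γ t q).toReal := by
    rw [← ENNReal.toReal_one]
    exact ENNReal.toReal_mono hq.ne h1
  have hpos : 0 < (pN β γ t q).toReal := by linarith
  have hq3 : ε * Real.log t <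
      |Real.log (pN β γ t q).toReal - (γ * t - α * Real.log t)| := hq2
  rcases lt_abs.1 hq3 with h | h
  · left
    show ENNReal.ofReal _ ≤ pN β γ t q
    rw [ENNReal.ofReal_le_iff_le_toReal hq.ne]
    rw [← Real.log_le_log_iff (by positivity) hpos, Real.log_mul (by positivity) (by positivity),
      Real.log_exp, Real.log_rpow ht0]
    linarith
  · right
    show pop β γ (st0 q.1) q.2 t ≤ _
    change pN β γ t q ≤ _
    rw [← ENNReal.ofReal_toReal hq.ne]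
    refine ENNReal.ofReal_le_ofReal ?_
    rw [← Real.log_le_log_iff hpos (by positivity), Real.log_mul (by positivity) (by positivity),
      Real.log_exp, Real.log_rpow ht0]
    linarith

/-- no explosion for the canonical process -/
lemma nonexpl (hm : St_meas) (hg : St_good) (hp : St_pop) (hrv : St_rv) (hup : St_up)
    (μ : Measure ℝ) [IsProbabilityMeasure μ] (hμ : μ (Ioo 0 1)ᶜ = 0) (β γ : ℝ)
    (hpar : Par β γ)
    (hcond : ∫⁻ x, ENNReal.ofReal (1 / (1 - x)) ∂μ < ENNReal.ofReal ((β + γ) / β))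
    (α : ℝ) (hα : 1 < α) (ℓ : ℝ → ℝ) (hRV : RV μ α ℓ) :
    ∀ᵐ q ∂(μ.prod (Qm μ)), (∀ t, pN β γ t q < ⊤) ∧ Tendsto (tim β γ (st0 q.1) q.2) atTop atTop := by
  obtain ⟨hr1, hr2⟩ := hrv μ hμ α ℓ (by linarith) hRV
  obtain ⟨K, L, hK, hL, hmean⟩ := hup μ hμ β γ hpar hcond ((1 + α) / 2) (by linarith)
    (hr1 _ (by linarith) (by linarith))
  have hfin : ∀ᵐ q ∂(μ.prod (Qm μ)), ∀ n : ℕ, pN β γ n q < ⊤ := by
    rw [ae_all_iff]
    intro n
    exact ae_lt_top (measurable_pN hm β γ n)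
      ((mean_le hm hg hp μ hμ β γ n (Nat.cast_nonneg n) _
        fun k => hmean k n (Nat.cast_nonneg n)).trans_lt ENNReal.ofReal_lt_top).ne
  filter_upwards [hfin, ae_good hg μ hμ] with q hq hgd
  have h1 : ∀ t, pN β γ t q < ⊤ := by
    intro t
    obtain ⟨n, hn⟩ := exists_nat_ge t
    exact (pN_mono β γ q hn).trans_lt (hq n)
  exact ⟨h1, (hp β γ (st0 q.1) q.2 (hg.2.2.1 q.1 hgd.1) hgd.2).2.2 h1⟩

end Pool.Agent.Q288.RB
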