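import Pool.Agent.Q288.RB.Fin

/-!
# The reinforced branching process: the theorem for any iid sequence of inputs
-/

open MeasureTheory ProbabilityTheory Filter Set
open scoped ENNReal Topology

namespace Pool.Agent.Q288.RB

/-- the population size at time `t` of the process built from the inputs `W`; `W 0` only gives the
fitness of the first individual -/
noncomputable def popW {Ω : Type} (β γ : ℝ) (W : ℕ → Ω → In) (t : ℝ) (ω : Ω) : ℝ≥0∞ :=
  pop β γ (st0 (W 0 ω).2.2.2) (fun k => W (k + 1) ω) t

/-- the time of the `k`-th birth event of this process -/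
noncomputable def timW {Ω : Type} (β γ : ℝ) (W : ℕ → Ω → In) (k : ℕ) (ω : Ω) : ℝ :=
  tim β γ (st0 (W 0 ω).2.2.2) (fun k => W (k + 1) ω) k

lemma popW_eq {Ω : Type} (β γ : ℝ) (W : ℕ → Ω → In) (t : ℝ) (ω : Ω) :
    popW β γ W t ω = pN β γ t (ini W ω) := rfl

theorem fin (hm : St_meas) (hg : St_good) (hs : St_shift) (hp : St_pop) (hrv : St_rv) (hup : St_up)
    (hlow : St_low) (μ : Measure ℝ) [IsProbabilityMeasure μ] (hμ : μ (Ioo 0 1)ᶜ = 0) (β γ : ℝ)
    (hpar : Par β γ)
    (hcond : ∫⁻ x, ENNReal.ofReal (1 / (1 - x)) ∂μ < ENNReal.ofReal ((β + γ) / β))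
    (α : ℝ) (hα : 1 < α) (ℓ : ℝ → ℝ) (hRV : RV μ α ℓ)
    (Ω : Type) [MeasurableSpace Ω] (P : Measure Ω) [IsProbabilityMeasure P]
    (W : ℕ → Ω → In) (hW : ∀ k, Measurable (W k)) (hind : iIndepFun W P)
    (hlaw : ∀ k, P.map (W k) = nu μ) :
    (∀ᵐ ω ∂P, (∀ t, popW β γ W t ω < ⊤) ∧ Tendsto (fun k => timW β γ W k ω) atTop atTop) ∧
    (∀ ε : ℝ, 0 < ε → Tendsto (fun t : ℝ => P {ω | ε <
      |(Real.log (popW β γ W t ω).toReal - γ * t + α * Real.log t) / Real.log t|}) atTop (𝓝 0)) ∧
    (∀ lam : ℝ, (∀ᵐ ω ∂P, Tendsto (fun t : ℝ => Real.log (popW β γ W t ω).toReal / t) atTop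
      (𝓝 lam)) → lam = γ) := by
  have hlaw' := law_ini hs μ P W hW hind hlaw
  have hmi := measurable_ini W hW
  have key : ∀ ε : ℝ, 0 < ε → Tendsto (fun t : ℝ => P {ω | ε * Real.log t <
      |Real.log (popW β γ W t ω).toReal - (γ * t - α * Real.log t)|}) atTop (𝓝 0) := by
    intro ε hε
    have h := conv hm hg hp hrv hup hlow μ hμ β γ hpar hcond α hα ℓ hRV ε hε
    refine h.congr fun t => ?_
    rw [← hlaw', Measure.map_apply hmi]
    · rfl
    · have h1 := measurable_pN hm β γ t
      exact measurableSet_lt measurable_const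
        (((Real.measurable_log.comp h1.ennreal_toReal).sub measurable_const).abs)
  refine ⟨?_, ?_, ?_⟩
  · have h := nonexpl hm hg hp hrv hup μ hμ β γ hpar hcond α hα ℓ hRV
    rw [← hlaw'] at h
    filter_upwards [ae_of_ae_map hmi.aemeasurable h] with ω hω
    exact hω
  · intro ε hε
    refine (key ε hε).congr' ?_
    filter_upwards [eventually_gt_atTop 1] with t ht
    have hl : 0 < Real.log t := Real.log_pos ht
    congr 1
    ext ω
    simp only [mem_ofPred_eq]
    rw [abs_div, abs_of_pos hl, lt_div_iff₀ hl, show Real.log (popW β γ W t ω).toReal - γ * t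
      + α * Real.log t = Real.log (popW β γ W t ω).toReal - (γ * t - α * Real.log t) by ring]
  · intro lam hlam
    have hTM : TendstoInMeasure P (fun (n : ℕ) ω => Real.log (popW β γ W n ω).toReal / n) atTop
        (fun _ => γ) := by
      rw [tendstoInMeasure_iff_dist]
      intro ε hε
      have h1 := (key 1 one_pos).comp tendsto_natCast_atTop_atTop
      refine tendsto_of_tendsto_of_tendsto_of_le_of_le' tendsto_const_nhds h1
        (Eventually.of_forall fun _ => zero_le) ?_
      have h2 : ∀ᶠ t : ℝ in atTop, ‖Real.log t‖ ≤ ε / (2 * (1 + α)) * ‖t‖ :=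
        Real.isLittleO_log_id_atTop.def (by positivity)
      filter_upwards [tendsto_natCast_atTop_atTop.eventually h2, eventually_gt_atTop 1] with n hn hn1
      have hn0 : (1 : ℝ) < n := by exact_mod_cast hn1
      have hl : 0 < Real.log n := Real.log_pos hn0
      refine measure_mono fun ω hω => ?_
      simp only [mem_ofPred_eq] at hω ⊢
      rw [Real.norm_of_nonneg hl.le, Real.norm_of_nonneg (by linarith), div_mul_eq_mul_div,
        le_div_iff₀ (by positivity)] at hn
      rw [Real.dist_eq, show Real.log (popW β γ W n ω).toReal / n - γ =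
        (Real.log (popW β γ W n ω).toReal - γ * n) / n by field_simp, abs_div,
        abs_of_pos (by linarith : (0 : ℝ) < n), le_div_iff₀ (by linarith)] at hω
      have h3 : |Real.log (popW β γ W n ω).toReal - γ * n| ≤
          |Real.log (popW β γ W n ω).toReal - (γ * n - α * Real.log n)| + α * Real.log n := by
        have h4 := abs_sub (Real.log (popW β γ W n ω).toReal - (γ * n - α * Real.log n))
          (α * Real.log n)
        rw [abs_of_pos (by positivity : 0 < α * Real.log n)] at h4
        refine le_trans (le_of_eq ?_) h4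
        congr 1; ring
      nlinarith
    obtain ⟨ns, hns, hae⟩ := hTM.exists_seq_tendsto_ae
    obtain ⟨ω, h1, h2⟩ := (hlam.and hae).exists
    have h3 : Tendsto (fun i => Real.log (popW β γ W (ns i : ℕ) ω).toReal / (ns i : ℕ)) atTop
        (𝓝 lam) := (h1.comp (tendsto_natCast_atTop_atTop.comp hns.tendsto_atTop))
    exact tendsto_nhds_unique h3 h2

end Pool.Agent.Q288.RB
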