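import Pool.Agent.Q288.RB.One

/-!
# Good states and good randomness
-/

open MeasureTheory ProbabilityTheory Filter Set
open scoped ENNReal Topology

namespace Pool.Agent.Q288.RB

lemma gd_add {s : St} {n : ℕ} (hs : Gd s) (_hn : n < s.1) : Gd (add s n) := by
  refine ⟨hs.1, fun m hm => ⟨(hs.2 m hm).1, ?_⟩⟩
  show 1 ≤ Function.update s.2.2 n (s.2.2 n + 1) m
  by_cases h : m = n
  · subst h; simp
  · rw [Function.update_of_ne h]; exact (hs.2 m hm).2

lemma size_add {s : St} {n : ℕ} (hn : n < s.1) : size (add s n) = size s + 1 := by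
  unfold size add
  simp only
  rw [Finset.sum_update_of_mem (Finset.mem_range.2 hn)]
  have h := Finset.sum_erase_add (Finset.range s.1) s.2.2 (Finset.mem_range.2 hn)
  rw [← h, Finset.sdiff_singleton_eq_erase]
  ring

lemma gd_found {s : St} {f : ℝ} (hs : Gd s) (hf : f ∈ Ioo (0 : ℝ) 1) : Gd (found s f) := by
  refine ⟨Nat.le_add_left 1 s.1, fun m hm => ?_⟩
  show Function.update s.2.1 s.1 f m ∈ Ioo (0 : ℝ) 1 ∧ 1 ≤ Function.update s.2.2 s.1 1 m
  by_cases h : m = s.1
  · subst h; simpa using hf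
  · rw [Function.update_of_ne h, Function.update_of_ne h]
    have hm' : m < s.1 + 1 := hm
    exact hs.2 m (by omega)

lemma size_found (s : St) (f : ℝ) : size (found s f) = size s + 1 := by
  unfold size found
  simp only
  rw [Finset.sum_range_succ, Function.update_self]
  congr 1
  refine Finset.sum_congr rfl fun m hm => ?_
  rw [Function.update_of_ne (ne_of_lt (Finset.mem_range.1 hm))]

lemma rate_pos {s : St} (hs : Gd s) : 0 < rate s := by
  unfold rate
  refine Finset.sum_pos (fun n hn => term_pos hs (Finset.mem_range.1 hn)) ?_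
  exact ⟨0, Finset.mem_range.2 hs.1⟩

lemma gd_step {β γ : ℝ} {s : St} {i : In} (hs : Gd s) (hi : Gi i) :
    Gd (step β γ s i) ∧ size s + 1 ≤ size (step β γ s i) := by
  have hp := (pick_spec hs hi.2.1 (rate_pos hs)).1
  unfold step
  by_cases h1 : i.2.2.1 < β + γ - 1
  · rw [if_pos h1]
    refine ⟨gd_found (gd_add hs hp) hi.2.2, ?_⟩
    rw [size_found, size_add hp]; omega
  · rw [if_neg h1]
    by_cases h2 : i.2.2.1 < β
    · rw [if_pos h2]
      exact ⟨gd_found hs hi.2.2, by rw [size_found]⟩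
    · rw [if_neg h2]
      exact ⟨gd_add hs hp, by rw [size_add hp]⟩

lemma expMeasure_nonpos' : expMeasure 1 {s : ℝ | s ≤ 0} = 0 := by
  have h1 : expMeasure 1 = volume.withDensity (exponentialPDF 1) := rfl
  have h2 : {s : ℝ | s ≤ 0} = {s : ℝ | s < 0} ∪ {0} := by
    ext s
    simp only [Set.mem_ofPred_eq, Set.mem_union, Set.mem_singleton_iff]
    exact le_iff_lt_or_eq
  have hm : MeasurableSet {s : ℝ | s < 0} := measurableSet_lt measurable_id measurable_const
  rw [h2]
  refine measure_union_null ?_ ?_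
  · rw [h1, withDensity_apply _ hm, setLIntegral_congr_fun (g := fun _ => 0) hm
      (fun s hs => exponentialPDF_of_neg hs)]
    simp
  · rw [h1, withDensity_apply _ (measurableSet_singleton _)]
    simp

lemma ae_gi (μ : Measure ℝ) [IsProbabilityMeasure μ] (hμ : μ (Ioo 0 1)ᶜ = 0) :
    ∀ᵐ i ∂(nu μ), Gi i := by
  have h1 : ∀ᵐ e ∂(expMeasure 1), 0 < e := by
    rw [ae_iff]
    have : {a : ℝ | ¬ 0 < a} = {s : ℝ | s ≤ 0} := by ext a; simp
    rw [this]; exact expMeasure_nonpos'
  have h2 : ∀ᵐ u ∂(volume.restrict (Icc (0 : ℝ) 1)), u ∈ Ico (0 : ℝ) 1 := by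
    rw [← restrict_Ico_eq_restrict_Icc]
    exact ae_restrict_mem measurableSet_Ico
  have h3 : ∀ᵐ f ∂μ, f ∈ Ioo (0 : ℝ) 1 := by
    rw [ae_iff]; exact hμ
  unfold nu
  have ha := (Measure.quasiMeasurePreserving_fst (μ := expMeasure 1)
    (ν := (volume.restrict (Icc (0 : ℝ) 1)).prod
      ((volume.restrict (Icc (0 : ℝ) 1)).prod μ))).ae h1
  have hb := (Measure.quasiMeasurePreserving_snd (μ := expMeasure 1)
    (ν := (volume.restrict (Icc (0 : ℝ) 1)).prod
      ((volume.restrict (Icc (0 : ℝ) 1)).prod μ))).ae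
    ((Measure.quasiMeasurePreserving_fst (μ := volume.restrict (Icc (0 : ℝ) 1))
      (ν := (volume.restrict (Icc (0 : ℝ) 1)).prod μ)).ae h2)
  have hc := (Measure.quasiMeasurePreserving_snd (μ := expMeasure 1)
    (ν := (volume.restrict (Icc (0 : ℝ) 1)).prod
      ((volume.restrict (Icc (0 : ℝ) 1)).prod μ))).ae
    ((Measure.quasiMeasurePreserving_snd (μ := volume.restrict (Icc (0 : ℝ) 1))
      (ν := (volume.restrict (Icc (0 : ℝ) 1)).prod μ)).ae
      ((Measure.quasiMeasurePreserving_snd (μ := volume.restrict (Icc (0 : ℝ) 1))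
        (ν := μ)).ae h3))
  filter_upwards [ha, hb, hc] with i h4 h5 h6 using ⟨h4, h5, h6⟩

lemma ae_all_gi (μ : Measure ℝ) [IsProbabilityMeasure μ] (hμ : μ (Ioo 0 1)ᶜ = 0) :
    ∀ᵐ w ∂(Qm μ), ∀ k, Gi (w k) := by
  rw [ae_all_iff]
  intro k
  have h := (measurePreserving_eval_infinitePi (fun _ : ℕ => nu μ) k).quasiMeasurePreserving
  exact h.ae (ae_gi μ hμ)

lemma run_good {β γ : ℝ} {s : St} {w : ℕ → In} (hs : Gd s) (hw : ∀ k, Gi (w k)) (k : ℕ) :
    Gd (run β γ s w k) ∧ size s + k ≤ size (run β γ s w k) := by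
  induction k with
  | zero => exact ⟨hs, le_rfl⟩
  | succ k ih =>
    have h := gd_step (β := β) (γ := γ) ih.1 (hw k)
    refine ⟨h.1, ?_⟩
    have := h.2
    have := ih.2
    show size s + (k + 1) ≤ size (step β γ (run β γ s w k) (w k))
    omega

theorem t_good : St_good := by
  refine ⟨fun β γ s i hs hi => gd_step hs hi, fun s hs => rate_pos hs, fun f hf => ?_,
    fun s n hs hn => gd_add hs hn, fun s f hs hf => gd_found hs hf,
    fun s u hs hu => (pick_spec hs hu (rate_pos hs)).1,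
    fun μ _ hμ => ⟨ae_gi μ hμ, ae_all_gi μ hμ⟩, fun β γ s w hs hw => ?_⟩
  · exact ⟨le_rfl, fun n _ => ⟨hf, le_rfl⟩⟩
  · refine ⟨fun k => run_good hs hw k, ?_, ?_⟩
    · refine monotone_nat_of_le_succ fun k => ?_
      have h := gd_step (β := β) (γ := γ) (run_good (β := β) (γ := γ) hs hw k).1 (hw k)
      show size (run β γ s w k) ≤ size (step β γ (run β γ s w k) (w k))
      have := h.2
      omega
    · refine strictMono_nat_of_lt_succ fun k => ?_
      show tim β γ s w k < tim β γ s w k + (w k).1 / rate (run β γ s w k)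
      have := div_pos (hw k).1 (rate_pos (run_good (β := β) (γ := γ) hs hw k).1)
      linarith

end Pool.Agent.Q288.RB
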