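import Pool.Agent.Q288.RB.Stm

/-!
# Measurability
-/

open MeasureTheory ProbabilityTheory Filter Set
open scoped ENNReal Topology

namespace Pool.Agent.Q288.RB

lemma meas_idx {A B : Type} [MeasurableSpace A] [MeasurableSpace B] (k : A → ℕ)
    (hk : Measurable k) (F : ℕ → A → B) (hF : ∀ m, Measurable (F m)) :
    Measurable (fun a => F (k a) a) := by
  intro S hS
  have h : (fun a => F (k a) a) ⁻¹' S = ⋃ m, (k ⁻¹' {m} ∩ (F m) ⁻¹' S) := by
    ext a
    simp
  rw [h]
  exact MeasurableSet.iUnion fun m => (hk (measurableSet_singleton m)).inter (hF m hS)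

lemma meas_cast {A : Type} [MeasurableSpace A] {k : A → ℕ} (hk : Measurable k) :
    Measurable (fun a => (k a : ℝ)) := measurable_from_top.comp hk

lemma meas_x (n : ℕ) : Measurable (fun s : St => s.2.1 n) :=
  (measurable_pi_apply n).comp (measurable_fst.comp measurable_snd)

lemma meas_z (n : ℕ) : Measurable (fun s : St => s.2.2 n) :=
  (measurable_pi_apply n).comp (measurable_snd.comp measurable_snd)

lemma meas_psum (m : ℕ) :
    Measurable (fun s : St => ∑ n ∈ Finset.range m, s.2.1 n * (s.2.2 n : ℝ)) :=
  Finset.measurable_sum _ fun n _ => (meas_x n).mul (meas_cast (meas_z n))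

lemma meas_rate : Measurable rate :=
  meas_idx (fun s : St => s.1) measurable_fst
    (fun m s => ∑ n ∈ Finset.range m, s.2.1 n * (s.2.2 n : ℝ)) meas_psum

lemma meas_size : Measurable size :=
  meas_idx (fun s : St => s.1) measurable_fst
    (fun m s => ∑ n ∈ Finset.range m, s.2.2 n)
    (fun _ => Finset.measurable_sum _ fun n _ => meas_z n)

lemma meas_pick : Measurable (fun p : St × ℝ => pick p.1 p.2) := by
  refine measurable_to_countable' fun n => ?_
  have hP : ∀ n : ℕ, MeasurableSet {p : St × ℝ | p.2 * rate p.1
      < ∑ j ∈ Finset.range (n + 1), p.1.2.1 j * (p.1.2.2 j : ℝ)} := by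
    intro n
    exact measurableSet_lt (measurable_snd.mul (meas_rate.comp measurable_fst))
      ((meas_psum (n + 1)).comp measurable_fst)
  set P : ℕ → Set (St × ℝ) := fun n => {p : St × ℝ | p.2 * rate p.1
      < ∑ j ∈ Finset.range (n + 1), p.1.2.1 j * (p.1.2.2 j : ℝ)} with hPdef
  have hset : (fun p : St × ℝ => pick p.1 p.2) ⁻¹' {n}
      = (P n ∩ ⋂ m ∈ Finset.range n, (P m)ᶜ) ∪ (if n = 0 then ⋂ m, (P m)ᶜ else ∅) := by
    ext p
    simp only [Set.mem_preimage, Set.mem_singleton_iff, Set.mem_union, Set.mem_inter_iff,
      Set.mem_iInter, Set.mem_compl_iff, Finset.mem_range]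
    have hpick : pick p.1 p.2 = sInf {k : ℕ | p ∈ P k} := rfl
    rw [hpick]
    constructor
    · intro h
      by_cases hne : ({k : ℕ | p ∈ P k}).Nonempty
      · left
        have h1 := Nat.sInf_mem hne
        rw [h] at h1
        refine ⟨h1, fun m hm hmP => ?_⟩
        have h2 : sInf {k : ℕ | p ∈ P k} ≤ m := Nat.sInf_le hmP
        omega
      · right
        have h1 : {k : ℕ | p ∈ P k} = ∅ := Set.not_nonempty_iff_eq_empty.1 hne
        rw [h1, Nat.sInf_empty] at h
        rw [if_pos h.symm]
        simp only [Set.mem_iInter, Set.mem_compl_iff]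
        intro m hm
        exact hne ⟨m, hm⟩
    · rintro (⟨h1, h2⟩ | h)
      · refine le_antisymm (Nat.sInf_le h1) ?_
        by_contra hcon
        have h3 := Nat.sInf_mem (s := {k : ℕ | p ∈ P k}) ⟨n, h1⟩
        exact h2 _ (not_le.1 hcon) h3
      · by_cases hn : n = 0
        · rw [if_pos hn] at h
          simp only [Set.mem_iInter, Set.mem_compl_iff] at h
          have h1 : {k : ℕ | p ∈ P k} = ∅ := by
            ext k; simpa using h k
          rw [h1, Nat.sInf_empty, hn]
        · rw [if_neg hn] at h
          exact absurd h (Set.notMem_empty _)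
  rw [hset]
  refine MeasurableSet.union ?_ ?_
  · exact (hP n).inter (Finset.measurableSet_biInter _ fun m _ => (hP m).compl)
  · by_cases hn : n = 0
    · rw [if_pos hn]; exact MeasurableSet.iInter fun m => (hP m).compl
    · rw [if_neg hn]; exact MeasurableSet.empty

lemma meas_add (n : ℕ) : Measurable (fun s : St => add s n) := by
  refine measurable_fst.prodMk ((measurable_fst.comp measurable_snd).prodMk ?_)
  refine measurable_pi_lambda _ fun m => ?_
  by_cases h : m = n
  · subst h
    simp only [Function.update_self]
    exact (meas_z m).add measurable_const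
  · simp only [Function.update_of_ne h]
    exact meas_z m

lemma meas_found : Measurable (fun p : St × ℝ => found p.1 p.2) := by
  refine meas_idx (fun p : St × ℝ => p.1.1) (measurable_fst.comp measurable_fst)
    (fun m p => (m + 1, Function.update p.1.2.1 m p.2, Function.update p.1.2.2 m 1)) ?_
  intro m
  refine measurable_const.prodMk (Measurable.prodMk ?_ ?_)
  · refine measurable_pi_lambda _ fun j => ?_
    by_cases h : j = m
    · subst h
      simp only [Function.update_self]
      exact measurable_snd
    · simp only [Function.update_of_ne h]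
      exact (meas_x j).comp measurable_fst
  · refine measurable_pi_lambda _ fun j => ?_
    by_cases h : j = m
    · subst h
      simp only [Function.update_self]
      exact measurable_const
    · simp only [Function.update_of_ne h]
      exact (meas_z j).comp measurable_fst

lemma meas_step (β γ : ℝ) : Measurable (fun p : St × In => step β γ p.1 p.2) := by
  have hu : Measurable (fun p : St × In => pick p.1 p.2.2.1) :=
    meas_pick.comp (measurable_fst.prodMk (by fun_prop))
  have hadd : Measurable (fun p : St × In => add p.1 (pick p.1 p.2.2.1)) :=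
    meas_idx (fun p : St × In => pick p.1 p.2.2.1) hu (fun n p => add p.1 n)
      (fun n => (meas_add n).comp measurable_fst)
  unfold step
  refine Measurable.ite (measurableSet_lt (by fun_prop) measurable_const) ?_
    (Measurable.ite (measurableSet_lt (by fun_prop) measurable_const) ?_ hadd)
  · exact meas_found.comp (hadd.prodMk (by fun_prop))
  · exact meas_found.comp (measurable_fst.prodMk (by fun_prop))

lemma meas_run (β γ : ℝ) (n : ℕ) :
    Measurable (fun p : St × (ℕ → In) => run β γ p.1 p.2 n) := by
  induction n with
  | zero => exact measurable_fst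
  | succ n ih =>
    exact (meas_step β γ).comp (ih.prodMk ((measurable_pi_apply n).comp measurable_snd))

lemma meas_tim (β γ : ℝ) (n : ℕ) :
    Measurable (fun p : St × (ℕ → In) => tim β γ p.1 p.2 n) := by
  induction n with
  | zero => exact measurable_const
  | succ n ih =>
    have h1 : Measurable (fun p : St × (ℕ → In) => (p.2 n).1) :=
      measurable_fst.comp ((measurable_pi_apply n).comp measurable_snd)
    exact ih.add (h1.div (meas_rate.comp (meas_run β γ n)))

theorem t_meas : St_meas := by
  refine ⟨meas_rate, meas_size, meas_step, fun β γ n => ⟨meas_run β γ n, meas_tim β γ n⟩,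
    meas_found, meas_add, ?_, fun β γ t => ?_, ?_⟩
  · refine measurable_const.prodMk (Measurable.prodMk ?_ measurable_const)
    exact measurable_pi_lambda _ fun _ => measurable_id
  · unfold pop
    refine Measurable.iSup fun k => ?_
    have h : (fun p : St × (ℕ → In) => ⨆ (_ : tim β γ p.1 p.2 k ≤ t),
        (size (run β γ p.1 p.2 k) : ℝ≥0∞))
        = fun p => if tim β γ p.1 p.2 k ≤ t then (size (run β γ p.1 p.2 k) : ℝ≥0∞) else 0 := by
      funext p
      rw [iSup_eq_if]; rfl
    rw [h]
    refine Measurable.ite (measurableSet_le (meas_tim β γ k) measurable_const) ?_ measurable_const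
    exact measurable_from_top.comp (meas_size.comp (meas_run β γ k))
  · intro β γ g κ hg hκ n
    induction n with
    | zero => exact hκ.comp (measurable_fst.comp measurable_snd)
    | succ n ih =>
      have h1 : Measurable (fun p : ℝ × St × (ℕ → In) => (p.2.2 0).1 / rate p.2.1) := by
        refine Measurable.div ?_ (meas_rate.comp (measurable_fst.comp measurable_snd))
        exact measurable_fst.comp ((measurable_pi_apply 0).comp (measurable_snd.comp measurable_snd))
      show Measurable (fun p : ℝ × St × (ℕ → In) => if p.1 < (p.2.2 0).1 / rate p.2.1 then g p.2.1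
        else X β γ g κ n (p.1 - (p.2.2 0).1 / rate p.2.1) (step β γ p.2.1 (p.2.2 0))
          (fun k => p.2.2 (k + 1)))
      refine Measurable.ite (measurableSet_lt measurable_fst h1)
        (hg.comp (measurable_fst.comp measurable_snd)) ?_
      refine ih.comp (Measurable.prodMk (measurable_fst.sub h1) (Measurable.prodMk ?_ ?_))
      · exact (meas_step β γ).comp ((measurable_fst.comp measurable_snd).prodMk
          ((measurable_pi_apply 0).comp (measurable_snd.comp measurable_snd)))
      · exact measurable_pi_lambda _ fun k =>
          (measurable_pi_apply (k + 1)).comp (measurable_snd.comp measurable_snd)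

end Pool.Agent.Q288.RB
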