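import Pool.Agent.Q288.RB.Good
import Pool.Agent.Q288.RB.Meas

/-!
# The linear supersolution
-/

open MeasureTheory ProbabilityTheory Filter Set
open scoped ENNReal Topology

namespace Pool.Agent.Q288.RB

lemma uu_eq (β γ : ℝ) (v : ℝ → ℝ) (t x : ℝ) :
    uu β γ v t x = Real.exp (γ * x * t) *
      (1 + ∫ r in (0 : ℝ)..t, β * x * Real.exp (-(γ * x * r)) * v r) := by
  unfold uu
  rw [mul_add, mul_one, ← intervalIntegral.integral_const_mul]
  congr 1
  refine intervalIntegral.integral_congr fun r _ => ?_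
  rw [show γ * x * (t - r) = γ * x * t + -(γ * x * r) by ring, Real.exp_add]
  ring

lemma uu_cont (β γ : ℝ) (v : ℝ → ℝ) (hv : Continuous v) :
    Continuous (fun p : ℝ × ℝ => uu β γ v p.1 p.2) := by
  have h : (fun p : ℝ × ℝ => uu β γ v p.1 p.2) = fun p => Real.exp (γ * p.2 * p.1) *
      (1 + ∫ r in (0 : ℝ)..p.1, β * p.2 * Real.exp (-(γ * p.2 * r)) * v r) := by
    funext p; exact uu_eq β γ v p.1 p.2
  rw [h]
  refine Continuous.mul (by fun_prop) (continuous_const.add ?_)
  exact intervalIntegral.continuous_parametric_intervalIntegral_of_continuous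
    (f := fun (p : ℝ × ℝ) (r : ℝ) => β * p.2 * Real.exp (-(γ * p.2 * r)) * v r)
    (by simp only [Function.uncurry_def]; fun_prop) continuous_fst

lemma uu_deriv (β γ : ℝ) (v : ℝ → ℝ) (hv : Continuous v) (t x : ℝ) :
    HasDerivAt (fun t => uu β γ v t x) (γ * x * uu β γ v t x + β * x * v t) t := by
  have h : (fun t => uu β γ v t x) = fun t => Real.exp (γ * x * t) *
      (1 + ∫ r in (0 : ℝ)..t, β * x * Real.exp (-(γ * x * r)) * v r) := by
    funext t; exact uu_eq β γ v t x
  have h1 : HasDerivAt (fun t => Real.exp (γ * x * t)) (Real.exp (γ * x * t) * (γ * x)) t := by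
    have := ((hasDerivAt_id t).const_mul (γ * x)).exp
    simpa using this
  have hc : Continuous (fun r => β * x * Real.exp (-(γ * x * r)) * v r) := by fun_prop
  have h2 : HasDerivAt (fun t => 1 + ∫ r in (0 : ℝ)..t, β * x * Real.exp (-(γ * x * r)) * v r)
      (β * x * Real.exp (-(γ * x * t)) * v t) t :=
    ((hc.integral_hasStrictDerivAt 0 t).hasDerivAt).const_add (1 : ℝ)
  rw [h, uu_eq]
  refine (h1.mul h2).congr_deriv ?_
  have h3 : Real.exp (γ * x * t) * Real.exp (-(γ * x * t)) = 1 := by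
    rw [← Real.exp_add]; simp
  linear_combination (β * x * v t) * h3

lemma uu_zero (β γ : ℝ) (v : ℝ → ℝ) (x : ℝ) : uu β γ v 0 x = 1 := by
  unfold uu; simp

lemma one_le_uu (β γ : ℝ) (hβ : 0 < β) (hγ : 0 < γ) (v : ℝ → ℝ) (hv0 : ∀ t, 0 ≤ v t) {t x : ℝ}
    (ht : 0 ≤ t) (hx : x ∈ Ioo (0 : ℝ) 1) : 1 ≤ uu β γ v t x := by
  unfold uu
  have hx0 := hx.1
  have h1 : 1 ≤ Real.exp (γ * x * t) := Real.one_le_exp (by positivity)
  have h2 : 0 ≤ ∫ r in (0 : ℝ)..t, β * x * Real.exp (γ * x * (t - r)) * v r := by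
    refine intervalIntegral.integral_nonneg ht fun r _ => ?_
    have := hv0 r
    positivity
  linarith

/-- the linear functional -/
noncomputable def WW (U : ℝ → ℝ → ℝ) (t : ℝ) (s : St) : ℝ :=
  ∑ k ∈ Finset.range s.1, (s.2.2 k : ℝ) * U t (s.2.1 k)

lemma WW_add (U : ℝ → ℝ → ℝ) (t : ℝ) {s : St} {n : ℕ} (hn : n < s.1) :
    WW U t (add s n) = WW U t s + U t (s.2.1 n) := by
  unfold WW add
  simp only
  rw [← Finset.add_sum_erase _ _ (Finset.mem_range.2 hn),
    ← Finset.add_sum_erase (Finset.range s.1) (fun k => (s.2.2 k : ℝ) * U t (s.2.1 k))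
      (Finset.mem_range.2 hn), Function.update_self]
  have h : ∑ x ∈ (Finset.range s.1).erase n,
      ((Function.update s.2.2 n (s.2.2 n + 1) x : ℕ) : ℝ) * U t (s.2.1 x)
      = ∑ x ∈ (Finset.range s.1).erase n, (s.2.2 x : ℝ) * U t (s.2.1 x) := by
    refine Finset.sum_congr rfl fun x hx => ?_
    rw [Function.update_of_ne (Finset.ne_of_mem_erase hx)]
  rw [h]; push_cast; ring

lemma WW_found (U : ℝ → ℝ → ℝ) (t : ℝ) (s : St) (f : ℝ) :
    WW U t (found s f) = WW U t s + U t f := by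
  unfold WW found
  simp only
  rw [Finset.sum_range_succ, Function.update_self, Function.update_self, Nat.cast_one, one_mul]
  congr 1
  refine Finset.sum_congr rfl fun x hx => ?_
  have h := ne_of_lt (Finset.mem_range.1 hx)
  rw [Function.update_of_ne h, Function.update_of_ne h]

lemma meas_WW (U : ℝ → ℝ → ℝ) (hU : Measurable (fun p : ℝ × ℝ => U p.1 p.2)) :
    Measurable (fun p : ℝ × St => WW U p.1 p.2) := by
  refine meas_idx (fun p : ℝ × St => p.2.1) (measurable_fst.comp measurable_snd)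
    (fun m p => ∑ k ∈ Finset.range m, (p.2.2.2 k : ℝ) * U p.1 (p.2.2.1 k)) fun m => ?_
  refine Finset.measurable_sum _ fun k _ => ?_
  have h1 : Measurable (fun p : ℝ × St => U p.1 (p.2.2.1 k)) :=
    hU.comp (measurable_fst.prodMk ((meas_x k).comp measurable_snd))
  exact (meas_cast ((meas_z k).comp measurable_snd)).mul h1

lemma size_cast (s : St) : (size s : ℝ) = ∑ k ∈ Finset.range s.1, (s.2.2 k : ℝ) := by
  unfold size; push_cast; rfl

theorem t_lin (hcmp : St_cmp) (hone : St_one) (hduh : St_duh) : St_lin := by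
  intro μ _ hμ β γ hpar v hvc hv0 hv n t₀ s₀ ht₀ hs₀
  obtain ⟨hβ, hβ1, hγ, hγ1, hβγ⟩ := id hpar
  set U : ℝ → ℝ → ℝ := uu β γ v with hU
  have hUc : Continuous (fun p : ℝ × ℝ => U p.1 p.2) := uu_cont β γ v hvc
  have hUt : ∀ x, Continuous (fun t => U t x) := fun x =>
    hUc.comp (continuous_id.prodMk continuous_const)
  have hsz : Measurable sz := by
    unfold sz
    exact measurable_from_top.comp meas_size
  have hHm : Measurable (fun p : ℝ × St => ENNReal.ofReal (WW U p.1 p.2)) :=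
    ENNReal.measurable_ofReal.comp (meas_WW U hUc.measurable)
  have hU1 : ∀ {t x : ℝ}, 0 ≤ t → x ∈ Ioo (0 : ℝ) 1 → 1 ≤ U t x := fun ht hx =>
    one_le_uu β γ hβ hγ v hv0 ht hx
  have hsW : ∀ t s, 0 ≤ t → Gd s → (size s : ℝ) ≤ WW U t s := by
    intro t s ht hs
    rw [size_cast]
    refine Finset.sum_le_sum fun k hk => ?_
    have h1 := hU1 ht (hs.2 k (Finset.mem_range.1 hk)).1
    have h2 : (0 : ℝ) ≤ (s.2.2 k : ℝ) := Nat.cast_nonneg _
    nlinarith
  have hW0 : ∀ t s, 0 ≤ t → Gd s → 0 ≤ WW U t s := fun t s ht hs =>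
    (Nat.cast_nonneg _).trans (hsW t s ht hs)
  refine hcmp μ hμ β γ sz sz (fun t s => ENNReal.ofReal (WW U t s)) t₀ hsz hsz hHm ?_ ?_ n t₀ s₀
    ht₀ le_rfl hs₀
  · intro t s ht _ hs
    unfold sz
    rw [← ENNReal.ofReal_natCast]
    exact ENNReal.ofReal_le_ofReal (hsW t s ht hs)
  clear hs₀ s₀ n
  intro t s ht _ hs
  rw [hone μ β γ hpar sz (fun t s => ENNReal.ofReal (WW U t s)) hHm t s ht hs]
  set q := rate s with hqdef
  have hq : 0 < q := rate_pos hs
  have hx : ∀ k ∈ Finset.range s.1, s.2.1 k ∈ Ioo (0 : ℝ) 1 := fun k hk =>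
    (hs.2 k (Finset.mem_range.1 hk)).1
  set g : ℕ → ℝ → ℝ := fun n τ => WW U τ s + γ * U τ (s.2.1 n) + β * v τ with hg
  set G : ℝ → ℝ := fun τ => ∑ n ∈ Finset.range s.1, (s.2.1 n * (s.2.2 n : ℝ)) * g n τ with hG
  have hWc : Continuous (fun τ => WW U τ s) := by
    unfold WW
    exact continuous_finsetSum _ fun k _ => (hUt _).const_mul _
  have hGc : Continuous G := by
    refine continuous_finsetSum _ fun k _ => Continuous.const_mul ?_ _
    exact (hWc.add ((hUt _).const_mul _)).add (hvc.const_mul _)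
  have hg0 : ∀ n ∈ Finset.range s.1, ∀ τ, 0 ≤ τ → 0 ≤ g n τ := by
    intro n hn τ hτ
    have h1 := hW0 τ s hτ hs
    have h2 := hU1 hτ (hx n hn)
    have h3 := hv0 τ
    have h4 : 0 ≤ γ * U τ (s.2.1 n) := mul_nonneg hγ.le (by linarith)
    have h5 : 0 ≤ β * v τ := mul_nonneg hβ.le h3
    simp only [hg]
    linarith
  have hfae : ∀ᵐ f ∂μ, f ∈ Ioo (0 : ℝ) 1 := by
    rw [ae_iff]; exact hμ
  -- the inner integrals
  have hinner : ∀ r ∈ Ioc 0 t, ENNReal.ofReal (Real.exp (-(q * r))) *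
      ∑ n ∈ Finset.range s.1, ENNReal.ofReal (s.2.1 n * (s.2.2 n : ℝ)) *
        ∫⁻ f, (ENNReal.ofReal (β + γ - 1) * ENNReal.ofReal (WW U (t - r) (found (add s n) f))
          + ENNReal.ofReal (1 - γ) * ENNReal.ofReal (WW U (t - r) (found s f))
          + ENNReal.ofReal (1 - β) * ENNReal.ofReal (WW U (t - r) (add s n))) ∂μ
      ≤ ENNReal.ofReal (Real.exp (-(q * r)) * G (t - r)) := by
    intro r hr
    set τ := t - r with hτ
    have hτ0 : 0 ≤ τ := by rw [hτ]; linarith [hr.2]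
    have hWn := hW0 τ s hτ0 hs
    have h1 : ∀ n ∈ Finset.range s.1, ENNReal.ofReal (s.2.1 n * (s.2.2 n : ℝ)) *
        ∫⁻ f, (ENNReal.ofReal (β + γ - 1) * ENNReal.ofReal (WW U τ (found (add s n) f))
          + ENNReal.ofReal (1 - γ) * ENNReal.ofReal (WW U τ (found s f))
          + ENNReal.ofReal (1 - β) * ENNReal.ofReal (WW U τ (add s n))) ∂μ
        ≤ ENNReal.ofReal ((s.2.1 n * (s.2.2 n : ℝ)) * g n τ) := by
      intro n hn
      have hn' := Finset.mem_range.1 hn
      have hun := hU1 hτ0 (hx n hn)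
      have h2 : ∀ᵐ f ∂μ,
          (ENNReal.ofReal (β + γ - 1) * ENNReal.ofReal (WW U τ (found (add s n) f))
          + ENNReal.ofReal (1 - γ) * ENNReal.ofReal (WW U τ (found s f))
          + ENNReal.ofReal (1 - β) * ENNReal.ofReal (WW U τ (add s n)))
          = ENNReal.ofReal β * ENNReal.ofReal (U τ f)
            + ENNReal.ofReal (WW U τ s + γ * U τ (s.2.1 n)) := by
        filter_upwards [hfae] with f hf
        have huf := hU1 hτ0 hf
        have c1 : 0 ≤ β + γ - 1 := by linarith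
        have c2 : 0 ≤ 1 - γ := by linarith
        have c3 : 0 ≤ 1 - β := by linarith
        have d1 : 0 ≤ WW U τ s + U τ (s.2.1 n) + U τ f := by linarith
        have d2 : 0 ≤ WW U τ s + U τ f := by linarith
        have d3 : 0 ≤ WW U τ s + U τ (s.2.1 n) := by linarith
        have d4 : 0 ≤ WW U τ s + γ * U τ (s.2.1 n) :=
          add_nonneg hWn (mul_nonneg hγ.le (by linarith))
        rw [WW_found, WW_found, WW_add U τ hn', ← ENNReal.ofReal_mul c1, ← ENNReal.ofReal_mul c2,
          ← ENNReal.ofReal_mul c3, ← ENNReal.ofReal_mul hβ.le,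
          ← ENNReal.ofReal_add (mul_nonneg c1 d1) (mul_nonneg c2 d2),
          ← ENNReal.ofReal_add (add_nonneg (mul_nonneg c1 d1) (mul_nonneg c2 d2))
            (mul_nonneg c3 d3),
          ← ENNReal.ofReal_add (mul_nonneg hβ.le (by linarith)) d4]
        congr 1
        ring
      have hUm : Measurable (fun f => ENNReal.ofReal (U τ f)) :=
        ENNReal.measurable_ofReal.comp (hUc.comp (continuous_const.prodMk continuous_id)).measurable
      rw [lintegral_congr_ae h2, lintegral_add_right _ measurable_const, lintegral_const,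
        measure_univ, mul_one, lintegral_const_mul _ hUm]
      have d4 : 0 ≤ WW U τ s + γ * U τ (s.2.1 n) :=
        add_nonneg hWn (mul_nonneg hγ.le (by linarith))
      rw [ENNReal.ofReal_mul (term_pos hs hn').le]
      refine mul_le_mul_right ?_ _
      calc ENNReal.ofReal β * ∫⁻ f, ENNReal.ofReal (U τ f) ∂μ
            + ENNReal.ofReal (WW U τ s + γ * U τ (s.2.1 n))
          ≤ ENNReal.ofReal β * ENNReal.ofReal (v τ)
            + ENNReal.ofReal (WW U τ s + γ * U τ (s.2.1 n)) := by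
            gcongr
            exact hv τ hτ0
        _ = ENNReal.ofReal (g n τ) := by
            rw [← ENNReal.ofReal_mul hβ.le, ← ENNReal.ofReal_add (mul_nonneg hβ.le (hv0 τ)) d4]
            congr 1
            simp only [hg]
            ring
    have h3 : ∑ n ∈ Finset.range s.1, ENNReal.ofReal (s.2.1 n * (s.2.2 n : ℝ)) *
        ∫⁻ f, (ENNReal.ofReal (β + γ - 1) * ENNReal.ofReal (WW U τ (found (add s n) f))
          + ENNReal.ofReal (1 - γ) * ENNReal.ofReal (WW U τ (found s f))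
          + ENNReal.ofReal (1 - β) * ENNReal.ofReal (WW U τ (add s n))) ∂μ
        ≤ ENNReal.ofReal (G τ) := by
      refine (Finset.sum_le_sum h1).trans (le_of_eq ?_)
      rw [← ENNReal.ofReal_sum_of_nonneg (fun n hn => mul_nonneg
        (term_pos hs (Finset.mem_range.1 hn)).le (hg0 n hn τ hτ0))]
    rw [ENNReal.ofReal_mul (Real.exp_pos _).le]
    gcongr
  -- Duhamel
  have hWd : ∀ τ ∈ Ico 0 t, HasDerivWithinAt (fun τ => WW U τ s)
      (∑ k ∈ Finset.range s.1, (s.2.2 k : ℝ) *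
        (γ * s.2.1 k * U τ (s.2.1 k) + β * s.2.1 k * v τ)) (Ioi τ) τ := by
    intro τ _
    unfold WW
    refine HasDerivWithinAt.fun_sum fun k _ => HasDerivWithinAt.const_mul _ ?_
    exact (uu_deriv β γ v hvc τ (s.2.1 k)).hasDerivWithinAt
  obtain ⟨C, hC⟩ := isCompact_Icc.exists_bound_of_continuousOn (hGc.continuousOn (s := Icc 0 t))
  have hduh' := hduh t q (fun τ => WW U τ s) _ G ht hq.le (hW0 0 s le_rfl hs) hWc.continuousOn hWd
    ?_ ?_ hGc.measurable ⟨C, fun τ hτ => (le_abs_self _).trans (hC τ hτ)⟩ t ⟨ht, le_rfl⟩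
  · refine le_trans (add_le_add ?_ ?_) hduh'
    · unfold sz
      rw [← ENNReal.ofReal_natCast, ← ENNReal.ofReal_mul (Real.exp_pos _).le]
      refine ENNReal.ofReal_le_ofReal (mul_le_mul_of_nonneg_left ?_ (Real.exp_pos _).le)
      exact hsW 0 s le_rfl hs
    · exact setLIntegral_mono' measurableSet_Ioc hinner
  · intro τ _
    refine le_of_eq ?_
    simp only [hG, hg]
    have hq' : q = ∑ n ∈ Finset.range s.1, s.2.1 n * (s.2.2 n : ℝ) := rfl
    rw [hq', Finset.sum_mul, ← Finset.sum_sub_distrib]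
    refine Finset.sum_congr rfl fun n _ => ?_
    ring
  · intro τ hτ
    exact Finset.sum_nonneg fun n hn => mul_nonneg (term_pos hs (Finset.mem_range.1 hn)).le
      (hg0 n hn τ hτ.1)

end Pool.Agent.Q288.RB
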