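import Pool.Agent.Q288.RB.Fin

/-!
# The lower bound in probability
-/

open MeasureTheory ProbabilityTheory Filter Set
open scoped ENNReal Topology

namespace Pool.Agent.Q288.RB

lemma theta_pow (a : ℝ) (ha : 0 < a) : Real.exp (-1) ≤ (1 / (1 + 1 / a)) ^ a := by
  have h1 : (1 + 1 / a) ^ a ≤ Real.exp 1 := by
    calc (1 + 1 / a) ^ a ≤ (Real.exp (1 / a)) ^ a := by
          refine Real.rpow_le_rpow (by positivity) ?_ ha.le
          have := Real.add_one_le_exp (1 / a)
          linarith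
      _ = Real.exp 1 := by
          rw [← Real.exp_mul]
          congr 1
          field_simp
  rw [Real.div_rpow zero_le_one (by positivity), Real.one_rpow, Real.exp_neg, ← one_div]
  exact one_div_le_one_div_of_le (by positivity) h1

theorem t_low (hm : St_meas) (hg : St_good) (hmul : St_mul) (hyc : St_yc) (hp : St_pop) :
    St_low := by
  intro μ _ hμ β γ hpar α hα hlow ε ε' hε hε'
  have he := Real.exp_pos (-1)
  filter_upwards [hyc μ hμ β γ hpar α hα hlow ε (ε' * Real.exp (-1)) hε (by positivity),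
    eventually_gt_atTop 0] with T hT hT0
  obtain ⟨Y, D, hsol, hY⟩ := hT
  set a : ℝ := Real.exp (γ * T) * T ^ (-(α + ε)) with hadef
  have ha : 0 < a := by positivity
  set θ : ℝ := 1 / (1 + 1 / a) with hθdef
  have hθ0 : 0 < θ := by positivity
  have hθ1 : θ ≤ 1 := by
    rw [hθdef, div_le_one (by positivity)]
    have : 0 < 1 / a := by positivity
    linarith
  have htz : Measurable (tz θ) := by
    unfold tz
    exact ENNReal.measurable_ofReal.comp (measurable_from_top.comp hm.2.1)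
  have hX : ∀ n, Measurable (fun p : ℝ × (ℕ → In) =>
      X β γ (tz θ) (fun _ => 0) n T (st0 p.1) p.2) := by
    intro n
    have h1 := hm.2.2.2.2.2.2.2.2 β γ (tz θ) (fun _ => 0) htz measurable_const n
    have h2 : Measurable (fun p : ℝ × (ℕ → In) => (T, st0 p.1, p.2)) :=
      measurable_const.prodMk ((hm.2.2.2.2.2.2.1.comp measurable_fst).prodMk measurable_snd)
    exact h1.comp h2
  have hae := ae_good hg μ hμ
  have hf : ∀ᵐ f ∂μ, f ∈ Ioo (0 : ℝ) 1 := by
    rw [ae_iff]; exact hμ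
  have hn : ∀ n, ∫⁻ p, X β γ (tz θ) (fun _ => 0) n T (st0 p.1) p.2 ∂(μ.prod (Qm μ))
      ≤ ENNReal.ofReal (ε' * Real.exp (-1)) := by
    intro n
    rw [lintegral_prod _ (hX n).aemeasurable]
    refine le_trans (lintegral_mono_ae ?_) hY
    filter_upwards [hf] with f hf
    have h := hmul μ hμ β γ hpar T θ Y D hT0.le hθ0.le hθ1 hsol n (st0 f) (hg.2.2.1 f hf)
    simpa [st0] using h
  have hsup : ∫⁻ p, ⨆ n, X β γ (tz θ) (fun _ => 0) n T (st0 p.1) p.2 ∂(μ.prod (Qm μ))
      ≤ ENNReal.ofReal (ε' * Real.exp (-1)) := by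
    rw [lintegral_iSup' (fun n => (hX n).aemeasurable) ?_]
    · exact iSup_le hn
    · filter_upwards [hae] with p hpp
      exact ((hp β γ (st0 p.1) p.2 (hg.2.2.1 p.1 hpp.1) hpp.2).2.1 θ T hθ0 hθ1 hT0.le).1
  have hmark := meas_ge_le_lintegral_div (μ := μ.prod (Qm μ))
    (f := fun p => ⨆ n, X β γ (tz θ) (fun _ => 0) n T (st0 p.1) p.2)
    (Measurable.iSup hX).aemeasurable (ε := ENNReal.ofReal (Real.exp (-1)))
    (by simpa using he) ENNReal.ofReal_ne_top
  refine le_trans (le_trans (measure_mono_ae ?_) hmark) ?_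
  · filter_upwards [hae] with p hpp hle
    have h1 := ((hp β γ (st0 p.1) p.2 (hg.2.2.1 p.1 hpp.1) hpp.2).2.1 θ T hθ0 hθ1 hT0.le).2 a hle
    exact (ENNReal.ofReal_le_ofReal (theta_pow a ha)).trans h1
  · refine (ENNReal.div_le_div_right hsup _).trans ?_
    rw [← ENNReal.ofReal_div_of_pos he]
    refine ENNReal.ofReal_le_ofReal (le_of_eq ?_)
    field_simp

end Pool.Agent.Q288.RB
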