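import Pool.Agent.Q288.RB.Good
import Pool.Agent.Q288.RB.Meas

/-!
# The multiplicative supersolution
-/

open MeasureTheory ProbabilityTheory Filter Set
open scoped ENNReal Topology

namespace Pool.Agent.Q288.RB

/-- the product functional -/
noncomputable def PP (Y : ℝ → ℝ → ℝ) (t : ℝ) (s : St) : ℝ :=
  ∏ k ∈ Finset.range s.1, (1 / (1 + Y t (s.2.1 k))) ^ s.2.2 k

lemma PP_add (Y : ℝ → ℝ → ℝ) (t : ℝ) {s : St} {n : ℕ} (hn : n < s.1) :
    PP Y t (add s n) = PP Y t s * (1 / (1 + Y t (s.2.1 n))) := by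
  unfold PP add
  simp only
  rw [← Finset.mul_prod_erase _ _ (Finset.mem_range.2 hn),
    ← Finset.mul_prod_erase (Finset.range s.1) (fun k => (1 / (1 + Y t (s.2.1 k))) ^ s.2.2 k)
      (Finset.mem_range.2 hn), Function.update_self, pow_succ]
  have h : ∏ x ∈ (Finset.range s.1).erase n, (1 / (1 + Y t (s.2.1 x))) ^
      Function.update s.2.2 n (s.2.2 n + 1) x
      = ∏ x ∈ (Finset.range s.1).erase n, (1 / (1 + Y t (s.2.1 x))) ^ s.2.2 x := by
    refine Finset.prod_congr rfl fun x hx => ?_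
    rw [Function.update_of_ne (Finset.ne_of_mem_erase hx)]
  rw [h]; ring

lemma PP_found (Y : ℝ → ℝ → ℝ) (t : ℝ) (s : St) (f : ℝ) :
    PP Y t (found s f) = PP Y t s * (1 / (1 + Y t f)) := by
  unfold PP found
  simp only
  rw [Finset.prod_range_succ, Function.update_self, Function.update_self, pow_one]
  congr 1
  refine Finset.prod_congr rfl fun x hx => ?_
  have h := ne_of_lt (Finset.mem_range.1 hx)
  rw [Function.update_of_ne h, Function.update_of_ne h]

lemma PP_exp (Y : ℝ → ℝ → ℝ) (hY : ∀ t x, 0 ≤ Y t x) (t : ℝ) (s : St) :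
    PP Y t s = Real.exp (-∑ k ∈ Finset.range s.1, (s.2.2 k : ℝ) * Real.log (1 + Y t (s.2.1 k))) := by
  unfold PP
  rw [← Finset.sum_neg_distrib, Real.exp_sum]
  refine Finset.prod_congr rfl fun k _ => ?_
  have h : 0 < 1 + Y t (s.2.1 k) := by linarith [hY t (s.2.1 k)]
  rw [one_div, inv_pow, Real.exp_neg, Real.exp_nat_mul, Real.exp_log h]

lemma PP_nonneg (Y : ℝ → ℝ → ℝ) (hY : ∀ t x, 0 ≤ Y t x) (t : ℝ) (s : St) : 0 ≤ PP Y t s := by
  rw [PP_exp Y hY]; positivity

lemma PP_le_one (Y : ℝ → ℝ → ℝ) (hY : ∀ t x, 0 ≤ Y t x) (t : ℝ) (s : St) : PP Y t s ≤ 1 := by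
  rw [PP_exp Y hY, Real.exp_le_one_iff, neg_nonpos]
  refine Finset.sum_nonneg fun k _ => mul_nonneg (Nat.cast_nonneg _) (Real.log_nonneg ?_)
  linarith [hY t (s.2.1 k)]

lemma meas_PP (Y : ℝ → ℝ → ℝ) (hY : Measurable (fun p : ℝ × ℝ => Y p.1 p.2)) :
    Measurable (fun p : ℝ × St => PP Y p.1 p.2) := by
  refine meas_idx (fun p : ℝ × St => p.2.1) (measurable_fst.comp measurable_snd)
    (fun m p => ∏ k ∈ Finset.range m, (1 / (1 + Y p.1 (p.2.2.1 k))) ^ p.2.2.2 k) fun m => ?_
  refine Finset.measurable_prod _ fun k _ => ?_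
  have h1 : Measurable (fun p : ℝ × St => Y p.1 (p.2.2.1 k)) :=
    hY.comp (measurable_fst.prodMk ((meas_x k).comp measurable_snd))
  have h2 : Measurable (fun p : ℝ × St => 1 / (1 + Y p.1 (p.2.2.1 k))) :=
    measurable_const.div (measurable_const.add h1)
  exact h2.pow ((meas_z k).comp measurable_snd)

theorem t_mul (hcmp : St_cmp) (hone : St_one) (hduh : St_duh) : St_mul := by
  intro μ _ hμ β γ hpar T θ Y D hT hθ0 hθ1 hsol n s hs
  obtain ⟨hβ, hβ1, hγ, hγ1, hβγ⟩ := id hpar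
  have hYn := hsol.nonneg
  have hYm := hsol.meas
  have htz : Measurable (tz θ) := by
    unfold tz
    exact ENNReal.measurable_ofReal.comp (measurable_from_top.comp meas_size)
  have hHm : Measurable (fun p : ℝ × St => ENNReal.ofReal (PP Y p.1 p.2)) :=
    ENNReal.measurable_ofReal.comp (meas_PP Y hYm)
  -- the mean of phi
  set m : ℝ → ℝ := fun t => ∫ f, 1 / (1 + Y t f) ∂μ with hmdef
  have hφm : Measurable (fun p : ℝ × ℝ => 1 / (1 + Y p.1 p.2)) :=
    measurable_const.div (measurable_const.add hYm)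
  have hmm : Measurable m := (hφm.stronglyMeasurable.integral_prod_right').measurable
  have hφ0 : ∀ t x, 0 < 1 / (1 + Y t x) := fun t x => by
    have := hYn t x
    positivity
  have hφ1 : ∀ t x, 1 / (1 + Y t x) ≤ 1 := fun t x => by
    rw [div_le_one (by linarith [hYn t x])]; linarith [hYn t x]
  have hφi : ∀ t, Integrable (fun f => 1 / (1 + Y t f)) μ := by
    intro t
    refine Integrable.of_bound (C := 1) (hφm.comp
      (measurable_const.prodMk measurable_id)).aestronglyMeasurable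
      (Eventually.of_forall fun f => ?_)
    show ‖1 / (1 + Y t f)‖ ≤ 1
    rw [Real.norm_of_nonneg (hφ0 t f).le]; exact hφ1 t f
  have hm0 : ∀ t, 0 ≤ m t := fun t => integral_nonneg fun f => (hφ0 t f).le
  have hm1 : ∀ t, m t ≤ 1 := by
    intro t
    calc m t ≤ ∫ _, (1 : ℝ) ∂μ := integral_mono (hφi t) (integrable_const 1) fun f => hφ1 t f
      _ = 1 := by simp
  have hml : ∀ t, ∫⁻ f, ENNReal.ofReal (1 / (1 + Y t f)) ∂μ = ENNReal.ofReal (m t) := fun t =>
    (ofReal_integral_eq_lintegral_ofReal (hφi t)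
      (Eventually.of_forall fun f => (hφ0 t f).le)).symm
  refine hcmp μ hμ β γ (tz θ) (fun _ => 0) (fun t s => ENNReal.ofReal (PP Y t s)) T htz
    measurable_const hHm (fun _ _ _ _ _ => zero_le) ?_ n T s hT le_rfl hs
  clear hs s n
  intro t s ht htT hs
  rw [hone μ β γ hpar (tz θ) (fun t s => ENNReal.ofReal (PP Y t s)) hHm t s ht hs]
  set q := rate s with hqdef
  have hq : 0 < q := rate_pos hs
  -- the generator
  set g : ℕ → ℝ → ℝ := fun n τ => (β + γ - 1) * (1 / (1 + Y τ (s.2.1 n))) * m τ + (1 - γ) * m τ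
    + (1 - β) * (1 / (1 + Y τ (s.2.1 n))) with hg
  have hg0 : ∀ n τ, 0 ≤ g n τ := by
    intro n τ
    have h1 := (hφ0 τ (s.2.1 n)).le
    have h2 := hm0 τ
    have h3 : 0 ≤ β + γ - 1 := by linarith
    have h4 : 0 ≤ 1 - γ := by linarith
    have h5 : 0 ≤ 1 - β := by linarith
    simp only [hg]
    positivity
  have hg1 : ∀ n τ, g n τ ≤ 1 := by
    intro n τ
    have h1 := (hφ0 τ (s.2.1 n)).le
    have h1' := hφ1 τ (s.2.1 n)
    have h2 := hm0 τ
    have h2' := hm1 τ
    have h3 : 0 ≤ β + γ - 1 := by linarith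
    have h4 : 0 ≤ 1 - γ := by linarith
    have h5 : 0 ≤ 1 - β := by linarith
    have h6 : (1 / (1 + Y τ (s.2.1 n))) * m τ ≤ 1 := mul_le_one₀ h1' h2 h2'
    simp only [hg]
    have h7 : (β + γ - 1) * (1 / (1 + Y τ (s.2.1 n))) * m τ ≤ β + γ - 1 := by
      rw [mul_assoc]; exact mul_le_of_le_one_right h3 h6
    have h8 : (1 - γ) * m τ ≤ 1 - γ := mul_le_of_le_one_right h4 h2'
    have h9 : (1 - β) * (1 / (1 + Y τ (s.2.1 n))) ≤ 1 - β := mul_le_of_le_one_right h5 h1'
    linarith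
  have hgm : ∀ n, Measurable (g n) := by
    intro n
    have h1 : Measurable (fun τ => 1 / (1 + Y τ (s.2.1 n))) :=
      hφm.comp (measurable_id.prodMk measurable_const)
    exact (((h1.const_mul _).mul hmm).add (hmm.const_mul _)).add (h1.const_mul _)
  set G : ℝ → ℝ := fun τ => PP Y τ s * ∑ n ∈ Finset.range s.1, (s.2.1 n * (s.2.2 n : ℝ)) * g n τ
    with hG
  have hsum0 : ∀ τ, 0 ≤ ∑ n ∈ Finset.range s.1, (s.2.1 n * (s.2.2 n : ℝ)) * g n τ := fun τ =>
    Finset.sum_nonneg fun n hn => mul_nonneg (term_pos hs (Finset.mem_range.1 hn)).le (hg0 n τ)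
  have hsum1 : ∀ τ, ∑ n ∈ Finset.range s.1, (s.2.1 n * (s.2.2 n : ℝ)) * g n τ ≤ q := fun τ =>
    Finset.sum_le_sum fun n hn =>
      mul_le_of_le_one_right (term_pos hs (Finset.mem_range.1 hn)).le (hg1 n τ)
  have hPm : Measurable (fun τ => PP Y τ s) :=
    (meas_PP Y hYm).comp (measurable_id.prodMk measurable_const)
  have hGm : Measurable G := by
    refine hPm.mul (Finset.measurable_sum _ fun n _ => (hgm n).const_mul _)
  -- the inner integrals
  have hinner : ∀ r ∈ Ioc 0 t, ENNReal.ofReal (Real.exp (-(q * r))) *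
      ∑ n ∈ Finset.range s.1, ENNReal.ofReal (s.2.1 n * (s.2.2 n : ℝ)) *
        ∫⁻ f, (ENNReal.ofReal (β + γ - 1) * ENNReal.ofReal (PP Y (t - r) (found (add s n) f))
          + ENNReal.ofReal (1 - γ) * ENNReal.ofReal (PP Y (t - r) (found s f))
          + ENNReal.ofReal (1 - β) * ENNReal.ofReal (PP Y (t - r) (add s n))) ∂μ
      = ENNReal.ofReal (Real.exp (-(q * r)) * G (t - r)) := by
    intro r _
    set τ := t - r with hτ
    have hPn := PP_nonneg Y hYn τ s
    have h1 : ∀ n ∈ Finset.range s.1, ENNReal.ofReal (s.2.1 n * (s.2.2 n : ℝ)) *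
        ∫⁻ f, (ENNReal.ofReal (β + γ - 1) * ENNReal.ofReal (PP Y τ (found (add s n) f))
          + ENNReal.ofReal (1 - γ) * ENNReal.ofReal (PP Y τ (found s f))
          + ENNReal.ofReal (1 - β) * ENNReal.ofReal (PP Y τ (add s n))) ∂μ
        = ENNReal.ofReal (PP Y τ s * ((s.2.1 n * (s.2.2 n : ℝ)) * g n τ)) := by
      intro n hn
      have hn' := Finset.mem_range.1 hn
      set φ := 1 / (1 + Y τ (s.2.1 n)) with hφ
      have hφp : 0 < φ := hφ0 τ (s.2.1 n)
      have h2 : ∀ f, (ENNReal.ofReal (β + γ - 1) * ENNReal.ofReal (PP Y τ (found (add s n) f))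
          + ENNReal.ofReal (1 - γ) * ENNReal.ofReal (PP Y τ (found s f))
          + ENNReal.ofReal (1 - β) * ENNReal.ofReal (PP Y τ (add s n)))
          = ENNReal.ofReal (PP Y τ s * ((β + γ - 1) * φ + (1 - γ))) *
              ENNReal.ofReal (1 / (1 + Y τ f)) + ENNReal.ofReal (PP Y τ s * ((1 - β) * φ)) := by
        intro f
        have hf := (hφ0 τ f).le
        have c1 : 0 ≤ β + γ - 1 := by linarith
        have c2 : 0 ≤ 1 - γ := by linarith
        have c3 : 0 ≤ 1 - β := by linarith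
        have hPf : PP Y τ (found (add s n) f) = PP Y τ s * φ * (1 / (1 + Y τ f)) := by
          rw [PP_found, PP_add Y τ hn']
        rw [hPf, PP_found, PP_add Y τ hn', ← ENNReal.ofReal_mul c1, ← ENNReal.ofReal_mul c2,
          ← ENNReal.ofReal_mul c3, ← ENNReal.ofReal_mul (by positivity),
          ← ENNReal.ofReal_add (by positivity) (by positivity),
          ← ENNReal.ofReal_add (by positivity) (by positivity),
          ← ENNReal.ofReal_add (by positivity) (by positivity)]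
        congr 1
        ring
      have hφτ : Measurable (fun f => ENNReal.ofReal (1 / (1 + Y τ f))) :=
        ENNReal.measurable_ofReal.comp (hφm.comp (measurable_const.prodMk measurable_id))
      rw [lintegral_congr h2, lintegral_add_right _ measurable_const, lintegral_const, measure_univ,
        mul_one, lintegral_const_mul _ hφτ, hml τ]
      have c1 : 0 ≤ β + γ - 1 := by linarith
      have c2 : 0 ≤ 1 - γ := by linarith
      have c3 : 0 ≤ 1 - β := by linarith
      have c4 := hm0 τ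
      rw [← ENNReal.ofReal_mul (by positivity), ← ENNReal.ofReal_add (by positivity)
        (by positivity), ← ENNReal.ofReal_mul (term_pos hs hn').le]
      congr 1
      simp only [hg]
      ring
    rw [Finset.sum_congr rfl h1, ← ENNReal.ofReal_sum_of_nonneg (fun n hn => mul_nonneg hPn
      (mul_nonneg (term_pos hs (Finset.mem_range.1 hn)).le (hg0 n τ))),
      ← ENNReal.ofReal_mul (Real.exp_pos _).le]
    congr 2
    simp only [hG]
    rw [Finset.mul_sum]
  have hlin := setLIntegral_congr_fun (μ := volume) measurableSet_Ioc hinner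
  rw [hlin]
  -- Duhamel
  have hx : ∀ k ∈ Finset.range s.1, s.2.1 k ∈ Ioo (0 : ℝ) 1 := fun k hk =>
    (hs.2 k (Finset.mem_range.1 hk)).1
  have hPc : ContinuousOn (fun τ => PP Y τ s) (Icc 0 t) := by
    unfold PP
    refine continuousOn_finsetProd _ fun k hk => ContinuousOn.pow ?_ _
    have h1 := (hsol.cont _ (hx k hk)).mono (Icc_subset_Icc_right htT)
    refine continuousOn_const.div (continuousOn_const.add h1) fun τ _ => ?_
    linarith [hYn τ (s.2.1 k)]
  have hPd : ∀ τ ∈ Ico 0 t, HasDerivWithinAt (fun τ => PP Y τ s)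
      (PP Y τ s * (-∑ k ∈ Finset.range s.1, (s.2.2 k : ℝ) *
        (D τ (s.2.1 k) / (1 + Y τ (s.2.1 k))))) (Ioi τ) τ := by
    intro τ hτ
    have h1 : (fun τ => PP Y τ s) = fun τ => Real.exp (-∑ k ∈ Finset.range s.1,
        (s.2.2 k : ℝ) * Real.log (1 + Y τ (s.2.1 k))) := by
      funext τ; exact PP_exp Y hYn τ s
    rw [PP_exp Y hYn τ s, h1]
    refine HasDerivWithinAt.exp (HasDerivWithinAt.fun_neg (HasDerivWithinAt.fun_sum fun k hk => ?_))
    refine HasDerivWithinAt.const_mul _ ?_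
    have h2 := (hsol.deriv _ (hx k hk) τ ⟨hτ.1, hτ.2.trans_le htT⟩).const_add 1
    exact h2.log (by linarith [hYn τ (s.2.1 k)])
  have hduh' := hduh t q (fun τ => PP Y τ s) _ G ht hq.le (PP_nonneg Y hYn 0 s) hPc hPd ?_ ?_
    hGm ⟨q, ?_⟩ t ⟨ht, le_rfl⟩
  · refine le_trans (add_le_add ?_ le_rfl) hduh'
    unfold tz
    rw [← ENNReal.ofReal_mul (Real.exp_pos _).le]
    refine ENNReal.ofReal_le_ofReal (mul_le_mul_of_nonneg_left ?_ (Real.exp_pos _).le)
    unfold PP size
    rw [← Finset.prod_pow_eq_pow_sum]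
    refine Finset.prod_le_prod (fun k _ => pow_nonneg hθ0 _) fun k hk => ?_
    exact pow_le_pow_left₀ hθ0 (hsol.start _ (hx k hk)) _
  · intro τ hτ
    have hP := PP_nonneg Y hYn τ s
    simp only [hG]
    have hq' : q = ∑ n ∈ Finset.range s.1, s.2.1 n * (s.2.2 n : ℝ) := rfl
    rw [mul_comm q (PP Y τ s), ← mul_sub, hq', ← Finset.sum_sub_distrib, ← Finset.sum_neg_distrib]
    refine mul_le_mul_of_nonneg_left (Finset.sum_le_sum fun n hn => ?_) hP
    have hxn := hx n hn
    have hz0 : (0 : ℝ) ≤ (s.2.2 n : ℝ) := Nat.cast_nonneg _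
    have hD := hsol.le _ hxn τ ⟨hτ.1, hτ.2.trans_le htT⟩
    have hYτ := hYn τ (s.2.1 n)
    have hmτ0 := hm0 τ
    have hmτ1 := hm1 τ
    have hY1 : 0 < 1 + Y τ (s.2.1 n) := by linarith
    have hx0 : 0 < s.2.1 n := hxn.1
    have key : s.2.1 n * (g n τ - 1) ≤ -(D τ (s.2.1 n) / (1 + Y τ (s.2.1 n))) := by
      have e1 : s.2.1 n * (g n τ - 1) = -((s.2.1 n * (β * (1 - m τ)
          + Y τ (s.2.1 n) * (1 - (1 - γ) * m τ))) / (1 + Y τ (s.2.1 n))) := by
        simp only [hg]
        field_simp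
        ring
      rw [e1, neg_le_neg_iff]
      refine div_le_div_of_nonneg_right (hD.trans ?_) hY1.le
      have h1 : γ ≤ 1 - (1 - γ) * m τ := by
        have : (1 - γ) * m τ ≤ (1 - γ) := mul_le_of_le_one_right (by linarith) hmτ1
        linarith
      have h2 : γ * Y τ (s.2.1 n) ≤ Y τ (s.2.1 n) * (1 - (1 - γ) * m τ) := by
        rw [mul_comm γ]; exact mul_le_mul_of_nonneg_left h1 hYτ
      have h3 := mul_le_mul_of_nonneg_left h2 hx0.le
      change γ * s.2.1 n * Y τ (s.2.1 n) + β * s.2.1 n * (1 - m τ) ≤ _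
      linarith
    have h4 := mul_le_mul_of_nonneg_left key hz0
    linarith
  · intro τ _
    exact mul_nonneg (PP_nonneg Y hYn τ s) (hsum0 τ)
  · intro τ _
    calc G τ ≤ 1 * q := mul_le_mul (PP_le_one Y hYn τ s) (hsum1 τ) (hsum0 τ) zero_le_one
      _ = q := one_mul q

end Pool.Agent.Q288.RB
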