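import Pool.Agent.Q288.RB.Stm

/-!
# The one-step formula
-/

open MeasureTheory ProbabilityTheory Filter Set
open scoped ENNReal Topology

namespace Pool.Agent.Q288.RB

lemma expo (q : ℝ) (hq : 0 < q) (F : ℝ → ℝ≥0∞) (hF : Measurable F) :
    ∫⁻ e, F (e / q) ∂(expMeasure 1)
      = ∫⁻ r in Ioi 0, ENNReal.ofReal (q * Real.exp (-(q * r))) * F r := by
  have h1 : expMeasure 1 = volume.withDensity (exponentialPDF 1) := rfl
  have hm : Measurable (exponentialPDF 1) := (measurable_exponentialPDFReal 1).ennreal_ofReal
  have hF' : Measurable (fun e => F (e / q)) := hF.comp (by fun_prop)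
  rw [h1, lintegral_withDensity_eq_lintegral_mul _ hm hF']
  have hH : Measurable (exponentialPDF 1 * fun e => F (e / q)) := hm.mul hF'
  have h2 : ∫⁻ e, (exponentialPDF 1 * fun e => F (e / q)) e
      = ENNReal.ofReal |q| * ∫⁻ r, (exponentialPDF 1 * fun e => F (e / q)) (q * r) := by
    conv_lhs => rw [← Real.smul_map_volume_mul_left hq.ne']
    rw [lintegral_smul_measure, lintegral_map hH (by fun_prop)]
    rfl
  rw [h2, abs_of_pos hq, ← lintegral_const_mul' _ _ ENNReal.ofReal_ne_top,
    ← lintegral_indicator measurableSet_Ioi]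
  have h0 : ∀ᵐ r : ℝ, r ≠ 0 := by
    rw [ae_iff]; simp
  refine lintegral_congr_ae (h0.mono fun r hr => ?_)
  simp only [Pi.mul_apply, exponentialPDF_eq, one_mul]
  rcases lt_or_gt_of_ne hr with h | h
  · rw [Set.indicator_of_notMem (by simpa using h.le), if_neg (by nlinarith)]
    simp
  · rw [Set.indicator_of_mem (by simpa using h), if_pos (by positivity), ← mul_assoc,
      ← ENNReal.ofReal_mul hq.le, mul_div_cancel_left₀ _ hq.ne']

/-- partial sums of the rates -/
noncomputable def psum (s : St) (k : ℕ) : ℝ := ∑ j ∈ Finset.range k, s.2.1 j * (s.2.2 j : ℝ)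

lemma psum_succ (s : St) (k : ℕ) : psum s (k + 1) = psum s k + s.2.1 k * (s.2.2 k : ℝ) := by
  unfold psum; rw [Finset.sum_range_succ]

lemma term_pos {s : St} (hs : Gd s) {k : ℕ} (hk : k < s.1) : 0 < s.2.1 k * (s.2.2 k : ℝ) := by
  have h := hs.2 k hk
  have h1 : (0 : ℝ) < (s.2.2 k : ℝ) := by exact_mod_cast h.2
  exact mul_pos h.1.1 h1

lemma psum_mono {s : St} (hs : Gd s) {m n : ℕ} (hmn : m ≤ n) (hn : n ≤ s.1) :
    psum s m ≤ psum s n := by
  induction n with
  | zero => rw [Nat.le_zero.1 hmn]
  | succ n ih =>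
    rcases Nat.eq_or_lt_of_le hmn with h | h
    · rw [h]
    · rw [psum_succ]
      have := ih (by omega) (by omega)
      have := term_pos hs (k := n) (by omega)
      linarith

lemma pick_spec {s : St} (hs : Gd s) {u : ℝ} (hu : u ∈ Ico (0 : ℝ) 1) (hq : 0 < rate s) :
    pick s u < s.1 ∧ psum s (pick s u) ≤ u * rate s ∧ u * rate s < psum s (pick s u + 1) := by
  have hM := hs.1
  have hmem : s.1 - 1 ∈ {n : ℕ | u * rate s < psum s (n + 1)} := by
    simp only [Set.mem_ofPred_eq]
    rw [Nat.sub_add_cancel hM]
    change u * rate s < rate s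
    nlinarith [hu.2]
  have h1 : pick s u ∈ {n : ℕ | u * rate s < psum s (n + 1)} := Nat.sInf_mem ⟨_, hmem⟩
  have h2 : pick s u ≤ s.1 - 1 := Nat.sInf_le hmem
  refine ⟨by omega, ?_, h1⟩
  rcases Nat.eq_zero_or_pos (pick s u) with h | h
  · rw [h]
    unfold psum
    simp only [Finset.range_zero, Finset.sum_empty]
    exact mul_nonneg hu.1 hq.le
  · by_contra hcon
    have h3 : pick s u - 1 ∈ {n : ℕ | u * rate s < psum s (n + 1)} := by
      simp only [Set.mem_ofPred_eq]
      rw [Nat.sub_add_cancel h]
      exact not_le.1 hcon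
    have h4 : pick s u ≤ pick s u - 1 := Nat.sInf_le h3
    omega

lemma unif_pick {s : St} (hs : Gd s) (hq : 0 < rate s) (c : ℕ → ℝ≥0∞) :
    ∫⁻ u in Icc (0 : ℝ) 1, c (pick s u)
      = ∑ n ∈ Finset.range s.1, ENNReal.ofReal (s.2.1 n * (s.2.2 n : ℝ) / rate s) * c n := by
  have h0 : ∀ᵐ u ∂(volume.restrict (Icc (0 : ℝ) 1)), u ∈ Ico (0 : ℝ) 1 := by
    rw [← restrict_Ico_eq_restrict_Icc]
    exact ae_restrict_mem measurableSet_Ico
  have h1 : ∫⁻ u in Icc (0 : ℝ) 1, c (pick s u)
      = ∫⁻ u in Icc (0 : ℝ) 1, ∑ n ∈ Finset.range s.1,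
        (Ico (psum s n / rate s) (psum s (n + 1) / rate s)).indicator (fun _ => c n) u := by
    refine lintegral_congr_ae (h0.mono fun u hu => ?_)
    obtain ⟨ha, hb, hc⟩ := pick_spec hs hu hq
    simp only
    rw [Finset.sum_eq_single (pick s u)]
    · rw [Set.indicator_of_mem]
      exact ⟨by rwa [div_le_iff₀ hq], by rwa [lt_div_iff₀ hq]⟩
    · intro n hn hne
      have hn' := Finset.mem_range.1 hn
      rw [Set.indicator_of_notMem]
      rintro ⟨h2, h3⟩
      rw [div_le_iff₀ hq] at h2
      rw [lt_div_iff₀ hq] at h3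
      rcases lt_or_gt_of_ne hne with h | h
      · have := psum_mono hs (m := n + 1) (n := pick s u) (by omega) (by omega)
        linarith
      · have := psum_mono hs (m := pick s u + 1) (n := n) (by omega) (by omega)
        linarith
    · intro h
      exact absurd (Finset.mem_range.2 ha) h
  rw [h1, lintegral_finsetSum _ fun n _ => measurable_const.indicator measurableSet_Ico]
  refine Finset.sum_congr rfl fun n hn => ?_
  have hn' := Finset.mem_range.1 hn
  rw [lintegral_indicator_const measurableSet_Ico, Measure.restrict_apply measurableSet_Ico,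
    Set.inter_eq_left.2, Real.volume_Ico, mul_comm]
  · congr 2
    rw [psum_succ]; ring
  · intro u hu
    have h2 : 0 ≤ psum s n := by
      have := psum_mono hs (m := 0) (n := n) (Nat.zero_le _) hn'.le
      simpa [psum] using this
    have h3 : psum s (n + 1) ≤ rate s := psum_mono hs (m := n + 1) (n := s.1) (by omega) le_rfl
    refine ⟨le_trans (by positivity) hu.1, hu.2.le.trans ?_⟩
    rw [div_le_one hq]
    exact h3

lemma unif_cases (a b : ℝ) (ha : 0 ≤ a) (hab : a ≤ b) (hb : b ≤ 1) (A B C : ℝ≥0∞) :
    ∫⁻ v in Icc (0 : ℝ) 1, (if v < a then A else if v < b then B else C)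
      = ENNReal.ofReal a * A + ENNReal.ofReal (b - a) * B + ENNReal.ofReal (1 - b) * C := by
  have h1 : ∀ v ∈ Icc (0 : ℝ) 1, (if v < a then A else if v < b then B else C)
      = (Ico 0 a).indicator (fun _ => A) v + (Ico a b).indicator (fun _ => B) v
        + (Icc b 1).indicator (fun _ => C) v := by
    intro v hv
    by_cases h2 : v < a
    · rw [if_pos h2, Set.indicator_of_mem (show v ∈ Ico 0 a from ⟨hv.1, h2⟩),
        Set.indicator_of_notMem (fun h => absurd h.1 (not_le.2 h2)),
        Set.indicator_of_notMem (fun h => absurd (hab.trans h.1) (not_le.2 h2))]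
      simp
    · by_cases h3 : v < b
      · rw [if_neg h2, if_pos h3, Set.indicator_of_notMem (fun h => h2 h.2),
          Set.indicator_of_mem (show v ∈ Ico a b from ⟨not_lt.1 h2, h3⟩),
          Set.indicator_of_notMem (fun h => absurd h.1 (not_le.2 h3))]
        simp
      · rw [if_neg h2, if_neg h3, Set.indicator_of_notMem (fun h => h2 h.2),
          Set.indicator_of_notMem (fun h => h3 h.2),
          Set.indicator_of_mem (show v ∈ Icc b 1 from ⟨not_lt.1 h3, hv.2⟩)]
        simp
  rw [setLIntegral_congr_fun measurableSet_Icc h1, lintegral_add_right _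
      (measurable_const.indicator measurableSet_Icc), lintegral_add_right _
      (measurable_const.indicator measurableSet_Ico),
    lintegral_indicator_const measurableSet_Ico, lintegral_indicator_const measurableSet_Ico,
    lintegral_indicator_const measurableSet_Icc, Measure.restrict_apply measurableSet_Ico,
    Measure.restrict_apply measurableSet_Ico, Measure.restrict_apply measurableSet_Icc,
    Set.inter_eq_left.2, Set.inter_eq_left.2, Set.inter_eq_left.2, Real.volume_Ico,
    Real.volume_Ico, Real.volume_Icc, sub_zero, mul_comm A, mul_comm B, mul_comm C]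
  · intro v hv; exact ⟨(ha.trans hab).trans hv.1, hv.2⟩
  · intro v hv; exact ⟨ha.trans hv.1, hv.2.le.trans hb⟩
  · intro v hv; exact ⟨hv.1, hv.2.le.trans (hab.trans hb)⟩

lemma tail_exp (q : ℝ) (hq : 0 < q) (t : ℝ) :
    ∫⁻ r in Ioi t, ENNReal.ofReal (q * Real.exp (-(q * r))) = ENNReal.ofReal (Real.exp (-(q * t))) := by
  have h1 : IntegrableOn (fun r : ℝ => q * Real.exp (-(q * r))) (Ioi t) := by
    have := (exp_neg_integrableOn_Ioi t hq).const_mul q
    simpa only [IntegrableOn, neg_mul] using this
  rw [← ofReal_integral_eq_lintegral_ofReal h1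
    (Eventually.of_forall fun r => by positivity)]
  congr 1
  rw [integral_const_mul]
  have h2 := integral_exp_mul_Ioi (a := -q) (by linarith) t
  simp only [neg_mul] at h2
  rw [h2]
  field_simp

theorem t_one (hm : St_meas) (hg : St_good) : St_one := by
  intro μ _ β γ hpar g Φ hΦ t s ht hs
  obtain ⟨hβ, hβ1, hγ, hγ1, hβγ⟩ := hpar
  have hq := hg.2.1 s hs
  set q := rate s with hqdef
  have hstep := hm.2.2.1 β γ
  have hfound := hm.2.2.2.2.1
  -- the integrand does not see the clock
  set stp : ℝ × ℝ × ℝ → St := fun j => step β γ s (0, j) with hstp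
  have hstpm : Measurable stp := hstep.comp (measurable_const.prodMk
    (measurable_const.prodMk measurable_id))
  set V : Measure (ℝ × ℝ × ℝ) := (volume.restrict (Icc (0 : ℝ) 1)).prod
    ((volume.restrict (Icc (0 : ℝ) 1)).prod μ) with hV
  have hΨm : Measurable (fun r : ℝ => ∫⁻ j, Φ (t - r) (stp j) ∂V) := by
    refine Measurable.lintegral_prod_right' (f := fun p : ℝ × (ℝ × ℝ × ℝ) =>
      Φ (t - p.1) (stp p.2)) ?_
    exact hΦ.comp (Measurable.prodMk (by fun_prop) (hstpm.comp measurable_snd))
  have h1 : ∫⁻ i, (if t < i.1 / q then g s else Φ (t - i.1 / q) (step β γ s i)) ∂(nu μ)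
      = ∫⁻ e, (if t < e / q then g s else ∫⁻ j, Φ (t - e / q) (stp j) ∂V) ∂(expMeasure 1) := by
    unfold nu
    rw [lintegral_prod]
    · refine lintegral_congr fun e => ?_
      by_cases h : t < e / q
      · simp [h]
      · simp only [h, if_false]
        rfl
    · refine (Measurable.ite (measurableSet_lt measurable_const (by fun_prop)) measurable_const
        ?_).aemeasurable
      exact hΦ.comp (Measurable.prodMk (by fun_prop)
        (hstep.comp (measurable_const.prodMk measurable_id)))
  have h2 := expo q hq (fun r => if t < r then g s else ∫⁻ j, Φ (t - r) (stp j) ∂V)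
    (Measurable.ite (measurableSet_lt measurable_const measurable_id) measurable_const hΨm)
  rw [h1, h2, ← Ioc_union_Ioi_eq_Ioi ht, lintegral_union measurableSet_Ioi
    (Set.disjoint_left.2 fun r h1 h2 => absurd h1.2 (not_le.2 h2)), add_comm]
  congr 1
  · -- no birth
    rw [setLIntegral_congr_fun (g := fun r => ENNReal.ofReal (q * Real.exp (-(q * r))) * g s)
      measurableSet_Ioi (fun r hr => by simp only [Set.mem_Ioi] at hr; simp [hr])]
    rw [lintegral_mul_const _ (by fun_prop), tail_exp q hq t]
  · refine setLIntegral_congr_fun measurableSet_Ioc fun r hr => ?_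
    simp only [if_neg (not_lt.2 hr.2)]
    -- the three uniform variables
    have h3 : ∫⁻ j, Φ (t - r) (stp j) ∂V = ∑ n ∈ Finset.range s.1,
        ENNReal.ofReal (s.2.1 n * (s.2.2 n : ℝ) / q) *
          ∫⁻ f, (ENNReal.ofReal (β + γ - 1) * Φ (t - r) (found (add s n) f)
                + ENNReal.ofReal (1 - γ) * Φ (t - r) (found s f)
                + ENNReal.ofReal (1 - β) * Φ (t - r) (add s n)) ∂μ := by
      have hΦr : Measurable (Φ (t - r)) := hΦ.comp (measurable_const.prodMk measurable_id)
      have hm1 : Measurable fun j => Φ (t - r) (stp j) := hΦr.comp hstpm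
      rw [hV, lintegral_prod _ hm1.aemeasurable]
      set c : ℕ → ℝ≥0∞ := fun n =>
        ∫⁻ f, (ENNReal.ofReal (β + γ - 1) * Φ (t - r) (found (add s n) f)
                + ENNReal.ofReal (1 - γ) * Φ (t - r) (found s f)
                + ENNReal.ofReal (1 - β) * Φ (t - r) (add s n)) ∂μ with hc
      have h4 : ∀ u : ℝ, ∫⁻ k, Φ (t - r) (stp (u, k)) ∂((volume.restrict (Icc (0 : ℝ) 1)).prod μ)
          = c (pick s u) := by
        intro u
        have hm2 : Measurable fun k : ℝ × ℝ => Φ (t - r) (stp (u, k)) :=
          hm1.comp (measurable_const.prodMk measurable_id)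
        rw [lintegral_prod _ hm2.aemeasurable]
        have hf1 : ∀ s' : St, Measurable fun f : ℝ => Φ (t - r) (found s' f) := fun s' =>
          hΦr.comp (hfound.comp (measurable_const.prodMk measurable_id))
        have h5 : ∀ v : ℝ, ∫⁻ f, Φ (t - r) (stp (u, v, f)) ∂μ
            = if v < β + γ - 1 then ∫⁻ f, Φ (t - r) (found (add s (pick s u)) f) ∂μ
              else if v < β then ∫⁻ f, Φ (t - r) (found s f) ∂μ
              else Φ (t - r) (add s (pick s u)) := by
          intro v
          simp only [hstp, step]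
          by_cases ha : v < β + γ - 1
          · simp [ha]
          · by_cases hb : v < β
            · simp [ha, hb]
            · simp [ha, hb]
        rw [lintegral_congr h5, unif_cases _ _ (by linarith) (by linarith) hβ1]
        have e1 : β - (β + γ - 1) = 1 - γ := by ring
        simp only [hc]
        rw [e1, lintegral_add_right _ measurable_const, lintegral_add_right _
          ((hf1 _).const_mul _), lintegral_const_mul _ (hf1 _), lintegral_const_mul _ (hf1 _),
          lintegral_const, measure_univ, mul_one]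
      rw [lintegral_congr h4]
      exact unif_pick hs hq c
    rw [h3, Finset.mul_sum, Finset.mul_sum]
    refine Finset.sum_congr rfl fun n hn => ?_
    have hpos := (term_pos hs (Finset.mem_range.1 hn)).le
    rw [← mul_assoc, ← mul_assoc, ← ENNReal.ofReal_mul (by positivity),
      ← ENNReal.ofReal_mul (by positivity)]
    congr 2
    field_simp

end Pool.Agent.Q288.RB
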