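import Pool.Agent.Q288.RB.Good

/-!
# The functionals and the population size
-/

open MeasureTheory ProbabilityTheory Filter Set
open scoped ENNReal Topology

namespace Pool.Agent.Q288.RB

lemma run_shift (β γ : ℝ) (s : St) (w : ℕ → In) (k : ℕ) :
    run β γ s w (k + 1) = run β γ (step β γ s (w 0)) (fun j => w (j + 1)) k := by
  induction k with
  | zero => rfl
  | succ k ih =>
    show step β γ (run β γ s w (k + 1)) (w (k + 1)) = _
    rw [ih]; rfl

lemma tim_shift (β γ : ℝ) (s : St) (w : ℕ → In) (k : ℕ) :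
    tim β γ s w (k + 1) = (w 0).1 / rate s
      + tim β γ (step β γ s (w 0)) (fun j => w (j + 1)) k := by
  induction k with
  | zero => simp [tim, run]
  | succ k ih =>
    have h1 : tim β γ s w (k + 1 + 1)
        = tim β γ s w (k + 1) + (w (k + 1)).1 / rate (run β γ s w (k + 1)) := rfl
    have h2 : tim β γ (step β γ s (w 0)) (fun j => w (j + 1)) (k + 1)
        = tim β γ (step β γ s (w 0)) (fun j => w (j + 1)) k
          + (w (k + 1)).1 / rate (run β γ (step β γ s (w 0)) (fun j => w (j + 1)) k) := rfl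
    rw [h1, h2, ih, run_shift]; ring

/-- closed form of the functional `X`, first case -/
lemma X_of_le (β γ : ℝ) (g κ : St → ℝ≥0∞) (n : ℕ) : ∀ (t : ℝ) (s : St) (w : ℕ → In),
    Gd s → (∀ k, Gi (w k)) → tim β γ s w n ≤ t → X β γ g κ n t s w = κ (run β γ s w n) := by
  induction n with
  | zero => intro t s w _ _ _; rfl
  | succ n ih =>
    intro t s w hs hw ht
    have hr := rate_pos hs
    have hs' := (gd_step (β := β) (γ := γ) hs (hw 0)).1
    have hw' : ∀ k, Gi ((fun j => w (j + 1)) k) := fun k => hw (k + 1)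
    rw [tim_shift] at ht
    have h0 : 0 ≤ tim β γ (step β γ s (w 0)) (fun j => w (j + 1)) n :=
      (t_good.2.2.2.2.2.2.2 β γ _ _ hs' hw').2.2.monotone (Nat.zero_le n)
    show (if t < (w 0).1 / rate s then g s else _) = _
    rw [if_neg (by linarith), run_shift]
    exact ih _ _ _ hs' hw' (by linarith)

/-- closed form of the functional `X`, second case -/
lemma X_of_lt (β γ : ℝ) (g κ : St → ℝ≥0∞) (n : ℕ) : ∀ (t : ℝ) (s : St) (w : ℕ → In),
    Gd s → (∀ k, Gi (w k)) → 0 ≤ t → t < tim β γ s w n →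
    ∃ K < n, tim β γ s w K ≤ t ∧ t < tim β γ s w (K + 1) ∧
      X β γ g κ n t s w = g (run β γ s w K) := by
  induction n with
  | zero => intro t s w _ _ h0 ht; exact absurd ht (not_lt.2 h0)
  | succ n ih =>
    intro t s w hs hw h0 ht
    have hr := rate_pos hs
    have hs' := (gd_step (β := β) (γ := γ) hs (hw 0)).1
    have hw' : ∀ k, Gi ((fun j => w (j + 1)) k) := fun k => hw (k + 1)
    by_cases h : t < (w 0).1 / rate s
    · refine ⟨0, Nat.succ_pos n, h0, ?_, ?_⟩
      · show t < 0 + (w 0).1 / rate s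
        linarith
      · show (if t < (w 0).1 / rate s then g s else _) = _
        rw [if_pos h]; rfl
    · rw [tim_shift] at ht
      obtain ⟨K, hK, h1, h2, h3⟩ := ih (t - (w 0).1 / rate s) _ _ hs' hw'
        (by linarith [not_lt.1 h]) (by linarith)
      refine ⟨K + 1, by omega, ?_, ?_, ?_⟩
      · rw [tim_shift]; linarith
      · rw [tim_shift]; linarith
      · show (if t < (w 0).1 / rate s then g s else _) = _
        rw [if_neg h, run_shift]
        exact h3

lemma idx_unique {β γ : ℝ} {s : St} {w : ℕ → In} (hm : StrictMono (tim β γ s w)) {t : ℝ}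
    {K K' : ℕ} (h1 : tim β γ s w K ≤ t) (h2 : t < tim β γ s w (K + 1))
    (h3 : tim β γ s w K' ≤ t) (h4 : t < tim β γ s w (K' + 1)) : K = K' := by
  rcases lt_trichotomy K K' with h | h | h
  · have := hm.monotone (show K + 1 ≤ K' from h)
    linarith
  · exact h
  · have := hm.monotone (show K' + 1 ≤ K from h)
    linarith

lemma fin_of_pop {β γ : ℝ} {s : St} {w : ℕ → In} (hs : Gd s) (hw : ∀ k, Gi (w k)) {t : ℝ}
    (h : pop β γ s w t < ⊤) : ∃ n, t < tim β γ s w n := by
  by_contra hcon
  push Not at hcon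
  have h1 : ∀ n : ℕ, (n : ℝ≥0∞) ≤ pop β γ s w t := by
    intro n
    unfold pop
    refine le_iSup_of_le n (le_iSup_of_le (hcon n) ?_)
    have := (run_good (β := β) (γ := γ) hs hw n).2
    exact_mod_cast (by omega : n ≤ size (run β γ s w n))
  exact absurd (ENNReal.eq_top_of_forall_nnreal_le fun r => by
    obtain ⟨n, hn⟩ := exists_nat_ge r
    exact le_trans (by exact_mod_cast hn) (h1 n)) h.ne

theorem t_pop : St_pop := by
  intro β γ s w hs hw
  obtain ⟨hrun, hsize, htim⟩ := t_good.2.2.2.2.2.2.2 β γ s w hs hw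
  refine ⟨fun t ht => ⟨?_, ?_⟩, fun θ t hθ0 hθ1 ht => ⟨?_, ?_⟩, ?_⟩
  · -- monotone
    refine monotone_nat_of_le_succ fun n => ?_
    rcases le_or_gt (tim β γ s w (n + 1)) t with h | h
    · have h' : tim β γ s w n ≤ t := (htim.monotone (Nat.le_succ n)).trans h
      rw [X_of_le β γ sz sz n t s w hs hw h', X_of_le β γ sz sz (n + 1) t s w hs hw h]
      unfold sz
      exact_mod_cast hsize (Nat.le_succ n)
    · obtain ⟨K, hK, h1, h2, h3⟩ := X_of_lt β γ sz sz (n + 1) t s w hs hw ht h
      rcases le_or_gt (tim β γ s w n) t with h' | h'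
      · rw [X_of_le β γ sz sz n t s w hs hw h', h3]
        have : n = K := idx_unique htim h' h h1 h2
        rw [this]
      · obtain ⟨K', hK', h1', h2', h3'⟩ := X_of_lt β γ sz sz n t s w hs hw ht h'
        rw [h3, h3', idx_unique htim h1 h2 h1' h2']
  · refine le_antisymm ?_ ?_
    · unfold pop
      refine iSup_le fun k => iSup_le fun hk => ?_
      refine le_iSup_of_le k ?_
      rw [X_of_le β γ sz sz k t s w hs hw hk]
      exact le_rfl
    · refine iSup_le fun n => ?_
      rcases le_or_gt (tim β γ s w n) t with h | h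
      · rw [X_of_le β γ sz sz n t s w hs hw h]
        exact le_iSup_of_le n (le_iSup_of_le h le_rfl)
      · obtain ⟨K, hK, h1, h2, h3⟩ := X_of_lt β γ sz sz n t s w hs hw ht h
        rw [h3]
        exact le_iSup_of_le K (le_iSup_of_le h1 le_rfl)
  · refine monotone_nat_of_le_succ fun n => ?_
    rcases le_or_gt (tim β γ s w n) t with h | h
    · rw [X_of_le β γ (tz θ) (fun _ => 0) n t s w hs hw h]
      exact zero_le
    · have h' : t < tim β γ s w (n + 1) := h.trans_le (htim.monotone (Nat.le_succ n))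
      obtain ⟨K, hK, h1, h2, h3⟩ := X_of_lt β γ (tz θ) (fun _ => 0) n t s w hs hw ht h
      obtain ⟨K', hK', h1', h2', h3'⟩ := X_of_lt β γ (tz θ) (fun _ => 0) (n + 1) t s w hs hw ht h'
      rw [h3, h3', idx_unique htim h1 h2 h1' h2']
  · intro a ha
    obtain ⟨n, hn⟩ := fin_of_pop hs hw (ha.trans_lt ENNReal.ofReal_lt_top)
    obtain ⟨K, hK, h1, h2, h3⟩ := X_of_lt β γ (tz θ) (fun _ => 0) n t s w hs hw ht hn
    refine le_iSup_of_le n ?_
    rw [h3]
    unfold tz
    refine ENNReal.ofReal_le_ofReal ?_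
    have h4 : (size (run β γ s w K) : ℝ≥0∞) ≤ ENNReal.ofReal a := by
      refine le_trans ?_ ha
      exact le_iSup_of_le K (le_iSup_of_le h1 le_rfl)
    have hpos : 1 ≤ size (run β γ s w K) := by
      have h5 := (hrun K).2
      have h6 : 1 ≤ size s := by
        have := Finset.single_le_sum (f := s.2.2) (fun i _ => Nat.zero_le _)
          (Finset.mem_range.2 (Nat.lt_of_lt_of_le Nat.zero_lt_one hs.1) : 0 ∈ Finset.range s.1)
        have h7 := (hs.2 0 (Nat.lt_of_lt_of_le Nat.zero_lt_one hs.1)).2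
        unfold size
        omega
      omega
    have h5 : (size (run β γ s w K) : ℝ) ≤ a := by
      rw [← ENNReal.ofReal_natCast] at h4
      have ha0 : 0 < a := by
        by_contra hcon
        rw [ENNReal.ofReal_of_nonpos (not_lt.1 hcon)] at h4
        have h8 : (0 : ℝ) < (size (run β γ s w K) : ℝ) := by exact_mod_cast hpos
        have h9 := ENNReal.ofReal_pos.2 h8
        exact absurd h4 (not_le.2 h9)
      exact (ENNReal.ofReal_le_ofReal_iff ha0.le).1 h4
    rw [← Real.rpow_natCast]
    exact Real.rpow_le_rpow_of_exponent_ge hθ0 hθ1 h5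
  · intro h
    rw [tendsto_atTop_atTop]
    intro b
    obtain ⟨n, hn⟩ := fin_of_pop hs hw (h b)
    exact ⟨n, fun m hm => hn.le.trans (htim.monotone hm)⟩

end Pool.Agent.Q288.RB
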