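import Pool.Agent.Q288.RB.Stm

/-!
# The reinforced branching process: consequences of regular variation
-/

open MeasureTheory ProbabilityTheory Filter Set
open scoped ENNReal Topology

namespace Pool.Agent.Q288.RB

namespace Rv

/-- the tail as a real number -/
noncomputable def tl (μ : Measure ℝ) (u : ℝ) : ℝ := (μ (Ioo (1 - u) 1)).toReal

theorem tl_nonneg (μ : Measure ℝ) (u : ℝ) : 0 ≤ tl μ u := ENNReal.toReal_nonneg

theorem tl_mono (μ : Measure ℝ) [IsProbabilityMeasure μ] {u v : ℝ} (h : u ≤ v) :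
    tl μ u ≤ tl μ v := by
  refine ENNReal.toReal_mono (measure_ne_top _ _) (measure_mono ?_)
  intro x hx
  exact ⟨by linarith [hx.1], hx.2⟩

theorem tl_eq (μ : Measure ℝ) [IsProbabilityMeasure μ] (u : ℝ) :
    μ (Ioo (1 - u) 1) = ENNReal.ofReal (tl μ u) := (ENNReal.ofReal_toReal (measure_ne_top _ _)).symm

theorem half_tendsto : Tendsto (fun u : ℝ => 1 / 2 * u) (𝓝[>] 0) (𝓝[>] 0) := by
  refine tendsto_nhdsWithin_iff.2 ⟨?_, ?_⟩
  · have h : Tendsto (fun u : ℝ => 1 / 2 * u) (𝓝 0) (𝓝 (1 / 2 * 0)) :=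
      (continuous_const.mul continuous_id).tendsto 0
    rw [mul_zero] at h
    exact h.mono_left nhdsWithin_le_nhds
  · filter_upwards [self_mem_nhdsWithin] with u hu
    have : (0 : ℝ) < u := hu
    show (0 : ℝ) < 1 / 2 * u
    linarith

theorem ratio {μ : Measure ℝ} [IsProbabilityMeasure μ] {α : ℝ} {ℓ : ℝ → ℝ} (h : RV μ α ℓ) :
    (∀ᶠ u in 𝓝[>] (0 : ℝ), 0 < tl μ u) ∧
      Tendsto (fun u => tl μ (1 / 2 * u) / tl μ u) (𝓝[>] 0) (𝓝 ((1 / 2 : ℝ) ^ α)) := by
  obtain ⟨⟨hpos, hsv⟩, hrv⟩ := h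
  have e : ∀ᶠ u in 𝓝[>] (0 : ℝ), tl μ u = u ^ α * ℓ u ∧ 0 < u ^ α * ℓ u := by
    filter_upwards [hpos, hrv, self_mem_nhdsWithin] with u h1 h2 h3
    have h3' : (0 : ℝ) < u := h3
    have h4 : 0 < u ^ α * ℓ u := mul_pos (Real.rpow_pos_of_pos h3' _) h1
    refine ⟨?_, h4⟩
    rw [tl, h2, ENNReal.toReal_ofReal h4.le]
  refine ⟨?_, ?_⟩
  · filter_upwards [e] with u hu
    rw [hu.1]; exact hu.2
  · have h1 : Tendsto (fun u => (1 / 2 : ℝ) ^ α * (ℓ (1 / 2 * u) / ℓ u)) (𝓝[>] 0)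
        (𝓝 ((1 / 2 : ℝ) ^ α * 1)) := (hsv (1 / 2) (by norm_num)).const_mul _
    rw [mul_one] at h1
    refine h1.congr' ?_
    filter_upwards [e, half_tendsto.eventually e, self_mem_nhdsWithin, hpos] with u h2 h3 h4 h5
    have h4' : (0 : ℝ) < u := h4
    rw [h2.1, h3.1, Real.mul_rpow (by norm_num) h4'.le]
    have h6 : 0 < u ^ α := Real.rpow_pos_of_pos h4' _
    field_simp

theorem exists_range {P : ℝ → Prop} (h : ∀ᶠ u in 𝓝[>] (0 : ℝ), P u) :
    ∃ u0 : ℝ, 0 < u0 ∧ ∀ u, 0 < u → u ≤ u0 → P u := by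
  obtain ⟨ε, hε, hs⟩ := mem_nhdsGT_iff_exists_Ioo_subset.1 h
  have hε' : (0 : ℝ) < ε := hε
  exact ⟨ε / 2, by linarith, fun u h1 h2 => hs ⟨h1, by linarith⟩⟩

theorem dyadic {y u0 : ℝ} (hy : 0 < y) (hyu : y < u0) :
    ∃ k : ℕ, (1 / 2 : ℝ) ^ (k + 1) * u0 ≤ y ∧ y < (1 / 2 : ℝ) ^ k * u0 := by
  classical
  have hu0 : 0 < u0 := hy.trans hyu
  have hex : ∃ k : ℕ, (1 / 2 : ℝ) ^ k * u0 ≤ y := by
    obtain ⟨k, hk⟩ := exists_pow_lt_of_lt_one (div_pos hy hu0) (by norm_num : (1 / 2 : ℝ) < 1)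
    refine ⟨k, ?_⟩
    rw [lt_div_iff₀ hu0] at hk
    exact hk.le
  have h0 : Nat.find hex ≠ 0 := by
    intro h
    have := Nat.find_spec hex
    rw [h, pow_zero, one_mul] at this
    linarith
  obtain ⟨k, hk⟩ := Nat.exists_eq_succ_of_ne_zero h0
  refine ⟨k, ?_, ?_⟩
  · have := Nat.find_spec hex
    rw [hk] at this
    exact this
  · have := Nat.find_min hex (m := k) (by omega)
    exact not_le.1 this

end Rv

open Rv

theorem t_rv : St_rv := by
  intro μ _ hμ α ℓ hα hRV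
  obtain ⟨hpos, hrat⟩ := ratio hRV
  constructor
  · intro p hp hpα
    set p' : ℝ := (p + α) / 2 with hp'
    set s : ℝ := (1 / 2 : ℝ) ^ p' with hs
    have hs0 : 0 < s := Real.rpow_pos_of_pos (by norm_num) _
    have hlt : (1 / 2 : ℝ) ^ α < s :=
      Real.rpow_lt_rpow_of_exponent_gt (by norm_num) (by norm_num) (by rw [hp']; linarith)
    have hev : ∀ᶠ u in 𝓝[>] (0 : ℝ), 0 < tl μ u ∧ tl μ (1 / 2 * u) / tl μ u < s :=
      hpos.and (hrat.eventually (gt_mem_nhds hlt))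
    obtain ⟨u0, hu0, hu⟩ := exists_range hev
    have hG : ∀ k : ℕ, tl μ ((1 / 2 : ℝ) ^ k * u0) ≤ s ^ k * tl μ u0 := by
      intro k
      induction k with
      | zero => simp
      | succ k ih =>
        have h1 : (1 / 2 : ℝ) ^ (k + 1) * u0 = 1 / 2 * ((1 / 2 : ℝ) ^ k * u0) := by
          rw [pow_succ]; ring
        have h2 : (1 / 2 : ℝ) ^ k ≤ 1 := pow_le_one₀ (by norm_num) (by norm_num)
        obtain ⟨h3, h4⟩ := hu ((1 / 2 : ℝ) ^ k * u0) (by positivity) (by nlinarith)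
        rw [div_lt_iff₀ h3] at h4
        rw [h1, pow_succ]
        have h5 : s * tl μ ((1 / 2 : ℝ) ^ k * u0) ≤ s * (s ^ k * tl μ u0) :=
          mul_le_mul_of_nonneg_left ih hs0.le
        nlinarith
    set q : ℝ := (1 / 2 : ℝ) ^ (-p) with hq
    have hq0 : 0 < q := Real.rpow_pos_of_pos (by norm_num) _
    have hpt : ∀ x ∈ Ioo (0 : ℝ) 1, ENNReal.ofReal ((1 - x) ^ (-p)) ≤ ENNReal.ofReal (u0 ^ (-p)) +
        ∑' k : ℕ, (Ioo (1 - (1 / 2 : ℝ) ^ k * u0) 1).indicator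
          (fun _ => ENNReal.ofReal (u0 ^ (-p) * q ^ (k + 1))) x := by
      intro x hx
      by_cases hxu : u0 ≤ 1 - x
      · refine le_trans (ENNReal.ofReal_le_ofReal ?_) le_self_add
        exact Real.rpow_le_rpow_of_nonpos hu0 hxu (by linarith)
      · push Not at hxu
        obtain ⟨k, h1, h2⟩ := dyadic (by linarith [hx.2] : 0 < 1 - x) hxu
        refine le_trans ?_ le_add_self
        refine le_trans ?_ (ENNReal.le_tsum k)
        rw [indicator_of_mem (show x ∈ Ioo (1 - (1 / 2 : ℝ) ^ k * u0) 1 from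
          ⟨by linarith, hx.2⟩)]
        refine ENNReal.ofReal_le_ofReal ?_
        have h3 : (1 - x) ^ (-p) ≤ ((1 / 2 : ℝ) ^ (k + 1) * u0) ^ (-p) :=
          Real.rpow_le_rpow_of_nonpos (by positivity) h1 (by linarith)
        refine h3.trans (le_of_eq ?_)
        rw [Real.mul_rpow (by positivity) hu0.le, hq, Real.rpow_pow_comm (by norm_num)]
        ring
    have hint : ∫⁻ x, ENNReal.ofReal ((1 - x) ^ (-p)) ∂μ ≤ ENNReal.ofReal (u0 ^ (-p)) +
        ∑' k : ℕ, ENNReal.ofReal (u0 ^ (-p) * q ^ (k + 1)) * ENNReal.ofReal (s ^ k * tl μ u0) := by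
      calc ∫⁻ x, ENNReal.ofReal ((1 - x) ^ (-p)) ∂μ
          ≤ ∫⁻ x, (ENNReal.ofReal (u0 ^ (-p)) +
            ∑' k : ℕ, (Ioo (1 - (1 / 2 : ℝ) ^ k * u0) 1).indicator
              (fun _ => ENNReal.ofReal (u0 ^ (-p) * q ^ (k + 1))) x) ∂μ := by
            refine lintegral_mono_ae ?_
            have : ∀ᵐ x ∂μ, x ∈ Ioo (0 : ℝ) 1 := by
              rw [ae_iff]; exact hμ
            filter_upwards [this] with x hx using hpt x hx
        _ = ENNReal.ofReal (u0 ^ (-p)) + ∑' k : ℕ, ENNReal.ofReal (u0 ^ (-p) * q ^ (k + 1)) *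
              μ (Ioo (1 - (1 / 2 : ℝ) ^ k * u0) 1) := by
            rw [lintegral_add_left measurable_const, lintegral_const, measure_univ, mul_one,
              lintegral_tsum (fun k => (measurable_const.indicator measurableSet_Ioo).aemeasurable)]
            congr 1
            refine tsum_congr fun k => ?_
            rw [lintegral_indicator measurableSet_Ioo, setLIntegral_const]
        _ ≤ _ := by
            refine add_le_add le_rfl (ENNReal.tsum_le_tsum fun k => ?_)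
            rw [tl_eq]
            exact mul_le_mul' le_rfl (ENNReal.ofReal_le_ofReal (hG k))
    refine lt_of_le_of_lt hint (ENNReal.add_lt_top.2 ⟨ENNReal.ofReal_lt_top, ?_⟩)
    have hqs : q * s < 1 := by
      rw [hq, hs, ← Real.rpow_add (by norm_num)]
      exact Real.rpow_lt_one (by norm_num) (by norm_num) (by rw [hp']; linarith)
    have e : ∀ k : ℕ, ENNReal.ofReal (u0 ^ (-p) * q ^ (k + 1)) * ENNReal.ofReal (s ^ k * tl μ u0) =
        ENNReal.ofReal (u0 ^ (-p) * q * tl μ u0 * (q * s) ^ k) := by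
      intro k
      rw [← ENNReal.ofReal_mul (mul_nonneg (Real.rpow_nonneg hu0.le _) (by positivity))]
      congr 1
      rw [mul_pow, pow_succ]; ring
    rw [tsum_congr e]
    have hsum : Summable fun k : ℕ => u0 ^ (-p) * q * tl μ u0 * (q * s) ^ k :=
      (summable_geometric_of_lt_one (by positivity) hqs).mul_left _
    rw [← ENNReal.ofReal_tsum_of_nonneg _ hsum]
    · exact ENNReal.ofReal_lt_top
    · intro k
      have := Real.rpow_nonneg hu0.le (-p)
      have := tl_nonneg μ u0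
      positivity
  · intro δ hδ
    set a : ℝ := α + δ / 2 with ha
    set s : ℝ := (1 / 2 : ℝ) ^ a with hs
    have hs0 : 0 < s := Real.rpow_pos_of_pos (by norm_num) _
    have hlt : s < (1 / 2 : ℝ) ^ α :=
      Real.rpow_lt_rpow_of_exponent_gt (by norm_num) (by norm_num) (by rw [ha]; linarith)
    have hev : ∀ᶠ u in 𝓝[>] (0 : ℝ), 0 < tl μ u ∧ s < tl μ (1 / 2 * u) / tl μ u :=
      hpos.and (hrat.eventually (lt_mem_nhds hlt))
    obtain ⟨u0, hu0, hu⟩ := exists_range hev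
    have hG : ∀ k : ℕ, s ^ k * tl μ u0 ≤ tl μ ((1 / 2 : ℝ) ^ k * u0) := by
      intro k
      induction k with
      | zero => simp
      | succ k ih =>
        have h1 : (1 / 2 : ℝ) ^ (k + 1) * u0 = 1 / 2 * ((1 / 2 : ℝ) ^ k * u0) := by
          rw [pow_succ]; ring
        have h2 : (1 / 2 : ℝ) ^ k ≤ 1 := pow_le_one₀ (by norm_num) (by norm_num)
        obtain ⟨h3, h4⟩ := hu ((1 / 2 : ℝ) ^ k * u0) (by positivity) (by nlinarith)
        rw [lt_div_iff₀ h3] at h4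
        rw [h1, pow_succ]
        have h5 : s * (s ^ k * tl μ u0) ≤ s * tl μ ((1 / 2 : ℝ) ^ k * u0) :=
          mul_le_mul_of_nonneg_left ih hs0.le
        nlinarith
    have hu0' := (hu u0 hu0 le_rfl).1
    set c : ℝ := tl μ u0 * (2 * u0) ^ (-a) with hc
    have hc0 : 0 < c := mul_pos hu0' (Real.rpow_pos_of_pos (by positivity) _)
    have hlow : ∀ u, 0 < u → u < u0 → c * u ^ a ≤ tl μ u := by
      intro u h1 h2
      obtain ⟨k, h3, h4⟩ := dyadic h1 h2
      have h5 := hG (k + 1)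
      have h6 := tl_mono μ h3
      refine le_trans ?_ (h5.trans h6)
      have h7 : u / (2 * u0) ≤ (1 / 2 : ℝ) ^ (k + 1) := by
        rw [div_le_iff₀ (by positivity), pow_succ]
        nlinarith
      have h8 : (u / (2 * u0)) ^ a ≤ s ^ (k + 1) := by
        rw [hs, Real.rpow_pow_comm (by norm_num)]
        exact Real.rpow_le_rpow (by positivity) h7 (by rw [ha]; linarith)
      have h9 : c * u ^ a = (u / (2 * u0)) ^ a * tl μ u0 := by
        rw [hc, Real.div_rpow h1.le (by positivity), Real.rpow_neg (by positivity)]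
        field_simp
      rw [h9]
      exact mul_le_mul_of_nonneg_right h8 hu0'.le
    have hsm : ∀ᶠ u in 𝓝[>] (0 : ℝ), u ^ (δ / 2) < c := by
      have h1 : Tendsto (fun u : ℝ => u ^ (δ / 2)) (𝓝 0) (𝓝 ((0 : ℝ) ^ (δ / 2))) :=
        (Real.continuousAt_rpow_const 0 (δ / 2) (Or.inr (by linarith))).tendsto
      rw [Real.zero_rpow (by linarith)] at h1
      exact (h1.mono_left nhdsWithin_le_nhds).eventually (gt_mem_nhds hc0)
    filter_upwards [hsm, self_mem_nhdsWithin,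
      (Ioo_mem_nhdsGT hu0 : Ioo (0 : ℝ) u0 ∈ 𝓝[>] (0 : ℝ))] with u h1 h2 h3
    have h2' : (0 : ℝ) < u := h2
    rw [tl_eq]
    refine ENNReal.ofReal_le_ofReal (le_trans ?_ (hlow u h2' h3.2))
    have h4 : u ^ (α + δ) = u ^ (δ / 2) * u ^ a := by
      rw [← Real.rpow_add h2', ha]; congr 1; ring
    rw [h4]
    exact mul_le_mul_of_nonneg_right h1.le (Real.rpow_nonneg h2'.le _)

end Pool.Agent.Q288.RB
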