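import Pool.Agent.Q288.RB.Stm

/-!
# Splitting off the first input
-/

open MeasureTheory ProbabilityTheory Filter Set
open scoped ENNReal Topology

namespace Pool.Agent.Q288.RB

/-- prepend a value -/
def consF (q : In × (ℕ → In)) : ℕ → In := fun k => Nat.casesOn k q.1 q.2

lemma measurable_consF : Measurable consF := by
  refine measurable_pi_lambda _ fun k => ?_
  cases k with
  | zero => exact measurable_fst
  | succ k => exact (measurable_pi_apply k).comp measurable_snd

lemma map_consF (μ : Measure ℝ) [IsProbabilityMeasure μ] :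
    ((nu μ).prod (Qm μ)).map consF = Qm μ := by
  unfold Qm
  refine Measure.eq_infinitePi (fun _ : ℕ => nu μ) ?_
  intro s t ht
  obtain ⟨N, hN⟩ : ∃ N, s ⊆ Finset.range (N + 1) := by
    obtain ⟨N, hN⟩ := s.exists_nat_subset_range
    exact ⟨N, hN.trans (Finset.range_mono (Nat.le_succ N))⟩
  classical
  set t' : ℕ → Set In := fun i => if i ∈ s then t i else univ with ht'
  have hmt' : ∀ i, MeasurableSet (t' i) := by
    intro i
    by_cases h : i ∈ s
    · simp [ht', h, ht i]
    · simp [ht', h]
  have h1 : Set.pi (s : Set ℕ) t = Set.pi (Finset.range (N + 1) : Set ℕ) t' := by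
    ext x
    simp only [Set.mem_pi, Finset.mem_coe]
    constructor
    · intro h i _
      by_cases hi : i ∈ s
      · simpa [ht', hi] using h i hi
      · simp [ht', hi]
    · intro h i hi
      have := h i (hN hi)
      simpa [ht', hi] using this
  have h2 : ∏ i ∈ s, nu μ (t i) = ∏ i ∈ Finset.range (N + 1), nu μ (t' i) := by
    rw [← Finset.prod_subset hN]
    · refine Finset.prod_congr rfl fun i hi => ?_
      simp [ht', hi]
    · intro i _ hi
      simp [ht', hi]
  rw [h1, h2, Measure.map_apply measurable_consF
    (MeasurableSet.pi (Finset.countable_toSet _) fun i _ => hmt' i), Finset.prod_range_succ']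
  have h3 : consF ⁻¹' (Set.pi (Finset.range (N + 1) : Set ℕ) t')
      = (t' 0) ×ˢ (Set.pi (Finset.range N : Set ℕ) fun k => t' (k + 1)) := by
    ext q
    simp only [Set.mem_preimage, Set.mem_pi, Finset.mem_coe, Finset.mem_range, Set.mem_prod]
    constructor
    · intro h
      exact ⟨h 0 (Nat.succ_pos N), fun k hk => h (k + 1) (by omega)⟩
    · rintro ⟨h0, hk⟩ i hi
      cases i with
      | zero => exact h0
      | succ i => exact hk i (by omega)
  rw [h3, Measure.prod_prod, Measure.infinitePi_pi _ (fun i _ => hmt' (i + 1)), mul_comm]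

theorem t_shift : St_shift := by
  have key : ∀ (μ : Measure ℝ) [IsProbabilityMeasure μ],
      (Qm μ).map (fun w : ℕ → In => (w 0, fun k => w (k + 1))) = (nu μ).prod (Qm μ) := by
    intro μ _
    have hG : Measurable (fun w : ℕ → In => (w 0, fun k => w (k + 1))) := by fun_prop
    conv_lhs => rw [← map_consF μ]
    rw [Measure.map_map hG measurable_consF]
    have h : (fun w : ℕ → In => (w 0, fun k => w (k + 1))) ∘ consF = id := by
      funext q; rfl
    rw [h, Measure.map_id]
  refine ⟨key, ?_⟩
  intro μ _ Ω _ P _ W hW hind hlaw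
  have h := hind.map_fun_eq_infinitePi_map hW
  have h1 : P.map (fun ω k => W k ω) = Qm μ := by
    rw [h]
    unfold Qm
    congr 1
    funext k
    exact hlaw k
  rw [← key μ, ← h1, Measure.map_map (by fun_prop) (measurable_pi_lambda _ hW)]
  rfl

end Pool.Agent.Q288.RB
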