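import Mathlib

/-!
# The reinforced branching process (project RB)

Definitions and statements of the lemmas.  A state is `(M, x, z)`: `M` families, family `n < M`
has fitness `x n` and `z n` individuals.  Family `n` gives birth at rate `x n * z n`; at a birth
event of family `n`, with probability `β` a new family of size one is founded with a fresh fitness
drawn from `μ`, with probability `γ` family `n` gets one more individual, both together with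
probability `β + γ - 1`.
-/

open MeasureTheory ProbabilityTheory Filter Set
open scoped ENNReal Topology

namespace Pool.Agent.Q288.RB

/-- randomness used at one birth event: a standard exponential clock, two uniform variables,
a fitness -/
abbrev In : Type := ℝ × ℝ × ℝ × ℝ

/-- states: number of families, fitnesses, sizes -/
abbrev St : Type := ℕ × (ℕ → ℝ) × (ℕ → ℕ)

/-- total birth rate -/
noncomputable def rate (s : St) : ℝ := ∑ n ∈ Finset.range s.1, s.2.1 n * (s.2.2 n : ℝ)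

/-- population size -/
def size (s : St) : ℕ := ∑ n ∈ Finset.range s.1, s.2.2 n

/-- the family of the next birth event, chosen with the uniform variable `u`: family `n` is
chosen with probability `x n * z n / rate` -/
noncomputable def pick (s : St) (u : ℝ) : ℕ :=
  sInf {n : ℕ | u * rate s < ∑ j ∈ Finset.range (n + 1), s.2.1 j * (s.2.2 j : ℝ)}

/-- one more individual in family `n` -/
def add (s : St) (n : ℕ) : St := (s.1, s.2.1, Function.update s.2.2 n (s.2.2 n + 1))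

/-- a new family of one individual of fitness `f` -/
noncomputable def found (s : St) (f : ℝ) : St :=
  (s.1 + 1, Function.update s.2.1 s.1 f, Function.update s.2.2 s.1 1)

/-- the effect of one birth event, `i = (e, u, v, f)` -/
noncomputable def step (β γ : ℝ) (s : St) (i : In) : St :=
  if i.2.2.1 < β + γ - 1 then found (add s (pick s i.2.1)) i.2.2.2
  else if i.2.2.1 < β then found s i.2.2.2
  else add s (pick s i.2.1)

/-- the state after `k` birth events -/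
noncomputable def run (β γ : ℝ) (s : St) (w : ℕ → In) : ℕ → St
  | 0 => s
  | k + 1 => step β γ (run β γ s w k) (w k)

/-- the time of the `k`-th birth event -/
noncomputable def tim (β γ : ℝ) (s : St) (w : ℕ → In) : ℕ → ℝ
  | 0 => 0
  | k + 1 => tim β γ s w k + (w k).1 / rate (run β γ s w k)

/-- the population size at time `t` (it is nondecreasing in time) -/
noncomputable def pop (β γ : ℝ) (s : St) (w : ℕ → In) (t : ℝ) : ℝ≥0∞ :=
  ⨆ (k : ℕ) (_ : tim β γ s w k ≤ t), (size (run β γ s w k) : ℝ≥0∞)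

/-- one family with one individual of fitness `f` -/
def st0 (f : ℝ) : St := (1, fun _ => f, fun _ => 1)

instance instExp : IsProbabilityMeasure (expMeasure 1) :=
  isProbabilityMeasure_expMeasure zero_lt_one

instance instUnif : IsProbabilityMeasure (volume.restrict (Icc (0 : ℝ) 1)) :=
  ⟨by simp⟩

/-- law of the randomness of one birth event -/
noncomputable def nu (μ : Measure ℝ) : Measure In :=
  (expMeasure 1).prod ((volume.restrict (Icc (0 : ℝ) 1)).prod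
    ((volume.restrict (Icc (0 : ℝ) 1)).prod μ))

instance instNu (μ : Measure ℝ) [IsProbabilityMeasure μ] : IsProbabilityMeasure (nu μ) := by
  unfold nu; infer_instance

/-- law of the randomness of all birth events -/
noncomputable def Qm (μ : Measure ℝ) [IsProbabilityMeasure μ] : Measure (ℕ → In) :=
  Measure.infinitePi (fun _ : ℕ => nu μ)

instance instQm (μ : Measure ℝ) [IsProbabilityMeasure μ] : IsProbabilityMeasure (Qm μ) := by
  unfold Qm; infer_instance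

/-- functional of the process at time `t`, run for at most `n` birth events: `g` of the state at
time `t` if fewer than `n` births have happened, `κ` of the state after `n` births otherwise -/
noncomputable def X (β γ : ℝ) (g κ : St → ℝ≥0∞) : ℕ → ℝ → St → (ℕ → In) → ℝ≥0∞
  | 0, _, s, _ => κ s
  | n + 1, t, s, w =>
    if t < (w 0).1 / rate s then g s
    else X β γ g κ n (t - (w 0).1 / rate s) (step β γ s (w 0)) (fun k => w (k + 1))

/-- good states -/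
def Gd (s : St) : Prop := 1 ≤ s.1 ∧ ∀ n < s.1, s.2.1 n ∈ Ioo (0 : ℝ) 1 ∧ 1 ≤ s.2.2 n

/-- good randomness -/
def Gi (i : In) : Prop := 0 < i.1 ∧ i.2.1 ∈ Ico (0 : ℝ) 1 ∧ i.2.2.2 ∈ Ioo (0 : ℝ) 1

/-- the size as an extended number -/
noncomputable def sz (s : St) : ℝ≥0∞ := (size s : ℝ≥0∞)

/-- `θ` to the size -/
noncomputable def tz (θ : ℝ) (s : St) : ℝ≥0∞ := ENNReal.ofReal (θ ^ size s)

/-- standing assumptions on the parameters -/
def Par (β γ : ℝ) : Prop := 0 < β ∧ β ≤ 1 ∧ 0 < γ ∧ γ ≤ 1 ∧ 1 ≤ β + γ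

/-! ## statements -/

/-- measurability -/
def St_meas : Prop :=
  Measurable rate ∧ Measurable size ∧ (∀ β γ : ℝ, Measurable (fun p : St × In => step β γ p.1 p.2)) ∧
  (∀ (β γ : ℝ) (n : ℕ), Measurable (fun p : St × (ℕ → In) => run β γ p.1 p.2 n) ∧
    Measurable (fun p : St × (ℕ → In) => tim β γ p.1 p.2 n)) ∧
  Measurable (fun p : St × ℝ => found p.1 p.2) ∧ (∀ n, Measurable (fun s : St => add s n)) ∧
  Measurable st0 ∧
  (∀ β γ t : ℝ, Measurable (fun p : St × (ℕ → In) => pop β γ p.1 p.2 t)) ∧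
  ∀ (β γ : ℝ) (g κ : St → ℝ≥0∞), Measurable g → Measurable κ → ∀ n,
    Measurable (fun p : ℝ × St × (ℕ → In) => X β γ g κ n p.1 p.2.1 p.2.2)

/-- good states and good randomness -/
def St_good : Prop :=
  (∀ β γ s i, Gd s → Gi i → Gd (step β γ s i) ∧ size s + 1 ≤ size (step β γ s i)) ∧
  (∀ s, Gd s → 0 < rate s) ∧ (∀ f ∈ Ioo (0 : ℝ) 1, Gd (st0 f)) ∧
  (∀ s n, Gd s → n < s.1 → Gd (add s n)) ∧ (∀ s f, Gd s → f ∈ Ioo (0 : ℝ) 1 → Gd (found s f)) ∧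
  (∀ s u, Gd s → u ∈ Ico (0 : ℝ) 1 → pick s u < s.1) ∧
  (∀ (μ : Measure ℝ) [IsProbabilityMeasure μ], μ (Ioo 0 1)ᶜ = 0 →
    (∀ᵐ i ∂(nu μ), Gi i) ∧ ∀ᵐ w ∂(Qm μ), ∀ k, Gi (w k)) ∧
  (∀ (β γ : ℝ) (s : St) (w : ℕ → In), Gd s → (∀ k, Gi (w k)) →
    (∀ k, Gd (run β γ s w k) ∧ size s + k ≤ size (run β γ s w k)) ∧
    Monotone (fun k => size (run β γ s w k)) ∧ StrictMono (tim β γ s w))

/-- splitting off the first birth event -/
def St_shift : Prop :=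
  (∀ (μ : Measure ℝ) [IsProbabilityMeasure μ],
    (Qm μ).map (fun w : ℕ → In => (w 0, fun k => w (k + 1))) = (nu μ).prod (Qm μ)) ∧
  ∀ (μ : Measure ℝ) [IsProbabilityMeasure μ] (Ω : Type) [MeasurableSpace Ω] (P : Measure Ω)
    [IsProbabilityMeasure P] (W : ℕ → Ω → In), (∀ k, Measurable (W k)) → iIndepFun W P →
    (∀ k, P.map (W k) = nu μ) →
    P.map (fun ω => (W 0 ω, fun k => W (k + 1) ω)) = (nu μ).prod (Qm μ)

/-- comparison with a supersolution of the one-step inequality -/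
def St_cmp : Prop :=
  ∀ (μ : Measure ℝ) [IsProbabilityMeasure μ], μ (Ioo 0 1)ᶜ = 0 → ∀ (β γ : ℝ)
    (g κ : St → ℝ≥0∞) (H : ℝ → St → ℝ≥0∞) (T : ℝ), Measurable g → Measurable κ →
    Measurable (fun p : ℝ × St => H p.1 p.2) →
    (∀ t s, 0 ≤ t → t ≤ T → Gd s → κ s ≤ H t s) →
    (∀ t s, 0 ≤ t → t ≤ T → Gd s →
      ∫⁻ i, (if t < i.1 / rate s then g s else H (t - i.1 / rate s) (step β γ s i)) ∂(nu μ)
        ≤ H t s) →
    ∀ (n : ℕ) (t : ℝ) (s : St), 0 ≤ t → t ≤ T → Gd s → ∫⁻ w, X β γ g κ n t s w ∂(Qm μ) ≤ H t s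

/-- the one-step formula -/
def St_one : Prop :=
  ∀ (μ : Measure ℝ) [IsProbabilityMeasure μ] (β γ : ℝ), Par β γ → ∀ (g : St → ℝ≥0∞)
    (Φ : ℝ → St → ℝ≥0∞), Measurable (fun p : ℝ × St => Φ p.1 p.2) → ∀ (t : ℝ) (s : St), 0 ≤ t →
    Gd s →
    ∫⁻ i, (if t < i.1 / rate s then g s else Φ (t - i.1 / rate s) (step β γ s i)) ∂(nu μ)
      = ENNReal.ofReal (Real.exp (-(rate s * t))) * g s
        + ∫⁻ r in Ioc 0 t, ENNReal.ofReal (Real.exp (-(rate s * r))) *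
            ∑ n ∈ Finset.range s.1, ENNReal.ofReal (s.2.1 n * (s.2.2 n : ℝ)) *
              ∫⁻ f, (ENNReal.ofReal (β + γ - 1) * Φ (t - r) (found (add s n) f)
                + ENNReal.ofReal (1 - γ) * Φ (t - r) (found s f)
                + ENNReal.ofReal (1 - β) * Φ (t - r) (add s n)) ∂μ

/-- Duhamel comparison -/
def St_duh : Prop :=
  ∀ (T q : ℝ) (F F' G : ℝ → ℝ), 0 ≤ T → 0 ≤ q → 0 ≤ F 0 → ContinuousOn F (Icc 0 T) →
    (∀ t ∈ Ico 0 T, HasDerivWithinAt F (F' t) (Ioi t) t) → (∀ t ∈ Ico 0 T, G t - q * F t ≤ F' t) →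
    (∀ t ∈ Icc 0 T, 0 ≤ G t) → Measurable G → (∃ C, ∀ t ∈ Icc 0 T, G t ≤ C) →
    ∀ t ∈ Icc 0 T, ENNReal.ofReal (Real.exp (-(q * t)) * F 0)
      + ∫⁻ r in Ioc 0 t, ENNReal.ofReal (Real.exp (-(q * r)) * G (t - r)) ≤ ENNReal.ofReal (F t)

/-- first moment profile of a family of fitness `x` with its descendants, immigration `v` -/
noncomputable def uu (β γ : ℝ) (v : ℝ → ℝ) (t x : ℝ) : ℝ :=
  Real.exp (γ * x * t) + ∫ r in (0 : ℝ)..t, β * x * Real.exp (γ * x * (t - r)) * v r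

/-- first moment bound -/
def St_lin : Prop :=
  ∀ (μ : Measure ℝ) [IsProbabilityMeasure μ], μ (Ioo 0 1)ᶜ = 0 → ∀ (β γ : ℝ), Par β γ →
    ∀ v : ℝ → ℝ, Continuous v → (∀ t, 0 ≤ v t) →
    (∀ t, 0 ≤ t → ∫⁻ x, ENNReal.ofReal (uu β γ v t x) ∂μ ≤ ENNReal.ofReal (v t)) →
    ∀ (n : ℕ) (t : ℝ) (s : St), 0 ≤ t → Gd s →
      ∫⁻ w, X β γ sz sz n t s w ∂(Qm μ)
        ≤ ENNReal.ofReal (∑ k ∈ Finset.range s.1, (s.2.2 k : ℝ) * uu β γ v t (s.2.1 k))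

/-- supersolution data for the multiplicative functional on `[0, T]` -/
structure Sol (μ : Measure ℝ) (β γ T θ : ℝ) (Y D : ℝ → ℝ → ℝ) : Prop where
  meas : Measurable (fun p : ℝ × ℝ => Y p.1 p.2)
  nonneg : ∀ t x, 0 ≤ Y t x
  cont : ∀ x ∈ Ioo (0 : ℝ) 1, ContinuousOn (fun t => Y t x) (Icc 0 T)
  start : ∀ x ∈ Ioo (0 : ℝ) 1, θ ≤ 1 / (1 + Y 0 x)
  deriv : ∀ x ∈ Ioo (0 : ℝ) 1, ∀ t ∈ Ico 0 T, HasDerivWithinAt (fun τ => Y τ x) (D t x) (Ioi t) t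
  le : ∀ x ∈ Ioo (0 : ℝ) 1, ∀ t ∈ Ico 0 T,
    D t x ≤ γ * x * Y t x + β * x * (1 - ∫ f, 1 / (1 + Y t f) ∂μ)

/-- multiplicative bound -/
def St_mul : Prop :=
  ∀ (μ : Measure ℝ) [IsProbabilityMeasure μ], μ (Ioo 0 1)ᶜ = 0 → ∀ (β γ : ℝ), Par β γ →
    ∀ (T θ : ℝ) (Y D : ℝ → ℝ → ℝ), 0 ≤ T → 0 ≤ θ → θ ≤ 1 → Sol μ β γ T θ Y D →
    ∀ (n : ℕ) (s : St), Gd s →
      ∫⁻ w, X β γ (tz θ) (fun _ => 0) n T s w ∂(Qm μ)
        ≤ ENNReal.ofReal (∏ k ∈ Finset.range s.1, (1 / (1 + Y T (s.2.1 k))) ^ s.2.2 k)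

/-- the functionals and the population size -/
def St_pop : Prop :=
  ∀ (β γ : ℝ) (s : St) (w : ℕ → In), Gd s → (∀ k, Gi (w k)) →
    (∀ t, 0 ≤ t → Monotone (fun n => X β γ sz sz n t s w) ∧
      pop β γ s w t = ⨆ n, X β γ sz sz n t s w) ∧
    (∀ θ t : ℝ, 0 < θ → θ ≤ 1 → 0 ≤ t → Monotone (fun n => X β γ (tz θ) (fun _ => 0) n t s w) ∧
      ∀ a : ℝ, pop β γ s w t ≤ ENNReal.ofReal a →
        ENNReal.ofReal (θ ^ a) ≤ ⨆ n, X β γ (tz θ) (fun _ => 0) n t s w) ∧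
    ((∀ t : ℝ, pop β γ s w t < ⊤) → Tendsto (tim β γ s w) atTop atTop)

/-- slow variation at zero -/
def SV (ℓ : ℝ → ℝ) : Prop :=
  (∀ᶠ u in 𝓝[>] (0 : ℝ), 0 < ℓ u) ∧
    ∀ c : ℝ, 0 < c → Tendsto (fun u => ℓ (c * u) / ℓ u) (𝓝[>] 0) (𝓝 1)

/-- the regular variation condition -/
def RV (μ : Measure ℝ) (α : ℝ) (ℓ : ℝ → ℝ) : Prop :=
  SV ℓ ∧ ∀ᶠ ε in 𝓝[>] (0 : ℝ), μ (Ioo (1 - ε) 1) = ENNReal.ofReal (ε ^ α * ℓ ε)

/-- Potter type bounds -/
def St_rv : Prop :=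
  ∀ (μ : Measure ℝ) [IsProbabilityMeasure μ], μ (Ioo 0 1)ᶜ = 0 → ∀ (α : ℝ) (ℓ : ℝ → ℝ), 0 < α →
    RV μ α ℓ →
    (∀ p, 0 < p → p < α → ∫⁻ x, ENNReal.ofReal ((1 - x) ^ (-p)) ∂μ < ⊤) ∧
    ∀ δ, 0 < δ → ∀ᶠ u in 𝓝[>] (0 : ℝ), ENNReal.ofReal (u ^ (α + δ)) ≤ μ (Ioo (1 - u) 1)

/-- solution of the renewal inequality with polynomial decay -/
def St_sub : Prop :=
  ∀ (h b : ℝ → ℝ) (p C : ℝ), 1 < p → Continuous h → Continuous b → (∀ t, 0 ≤ h t) →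
    (∀ t, 0 ≤ b t) → (∀ t, 0 ≤ t → h t ≤ C * (1 + t) ^ (-p)) →
    (∀ t, 0 ≤ t → b t ≤ C * (1 + t) ^ (-p)) → ∫ t in Ioi (0 : ℝ), b t < 1 →
    ∃ K L : ℝ, 0 < K ∧ 1 ≤ L ∧ ∀ t, 0 ≤ t →
      h t + ∫ r in (0 : ℝ)..t, b (t - r) * (K * (1 + r / L) ^ (-p)) ≤ K * (1 + t / L) ^ (-p)

/-- upper bound for the mean population size -/
def St_up : Prop :=
  ∀ (μ : Measure ℝ) [IsProbabilityMeasure μ], μ (Ioo 0 1)ᶜ = 0 → ∀ (β γ : ℝ), Par β γ →
    ∫⁻ x, ENNReal.ofReal (1 / (1 - x)) ∂μ < ENNReal.ofReal ((β + γ) / β) → ∀ p : ℝ, 1 < p →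
    ∫⁻ x, ENNReal.ofReal ((1 - x) ^ (-p)) ∂μ < ⊤ →
    ∃ K L : ℝ, 0 < K ∧ 1 ≤ L ∧ ∀ (n : ℕ) (t : ℝ), 0 ≤ t →
      ∫⁻ f, (∫⁻ w, X β γ sz sz n t (st0 f) w ∂(Qm μ)) ∂μ
        ≤ ENNReal.ofReal (K * Real.exp (γ * t) * (1 + t / L) ^ (-p))

/-- construction of the multiplicative supersolution -/
def St_yc : Prop :=
  ∀ (μ : Measure ℝ) [IsProbabilityMeasure μ], μ (Ioo 0 1)ᶜ = 0 → ∀ (β γ : ℝ), Par β γ →
    ∀ α : ℝ, 0 < α →
    (∀ δ, 0 < δ → ∀ᶠ u in 𝓝[>] (0 : ℝ), ENNReal.ofReal (u ^ (α + δ)) ≤ μ (Ioo (1 - u) 1)) →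
    ∀ ε ε' : ℝ, 0 < ε → 0 < ε' → ∀ᶠ T in atTop, ∃ Y D : ℝ → ℝ → ℝ,
      Sol μ β γ T (1 / (1 + 1 / (Real.exp (γ * T) * T ^ (-(α + ε))))) Y D ∧
      ∫⁻ f, ENNReal.ofReal (1 / (1 + Y T f)) ∂μ ≤ ENNReal.ofReal ε'

/-- lower bound in probability -/
def St_low : Prop :=
  ∀ (μ : Measure ℝ) [IsProbabilityMeasure μ], μ (Ioo 0 1)ᶜ = 0 → ∀ (β γ : ℝ), Par β γ →
    ∀ α : ℝ, 0 < α →
    (∀ δ, 0 < δ → ∀ᶠ u in 𝓝[>] (0 : ℝ), ENNReal.ofReal (u ^ (α + δ)) ≤ μ (Ioo (1 - u) 1)) →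
    ∀ ε ε' : ℝ, 0 < ε → 0 < ε' → ∀ᶠ t in atTop,
      (μ.prod (Qm μ)) {p | pop β γ (st0 p.1) p.2 t
        ≤ ENNReal.ofReal (Real.exp (γ * t) * t ^ (-(α + ε)))} ≤ ENNReal.ofReal ε'

end Pool.Agent.Q288.RB
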