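import Pool.Agent.Q288.RB.Stm

/-!
# The reinforced branching process: upper bound for the mean population size
-/

open MeasureTheory ProbabilityTheory Filter Set
open scoped ENNReal Topology

namespace Pool.Agent.Q288.RB

namespace Up

/-- the kernel -/
noncomputable def ee (γ t x : ℝ) : ℝ := Real.exp (-(γ * (1 - x) * |t|))

theorem ee_pos (γ t x : ℝ) : 0 < ee γ t x := Real.exp_pos _

theorem ee_le {γ t x : ℝ} (hγ : 0 ≤ γ) (hx : x < 1) : ee γ t x ≤ 1 := by
  refine Real.exp_le_one_iff.2 ?_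
  have : 0 ≤ γ * (1 - x) * |t| := mul_nonneg (mul_nonneg hγ (by linarith)) (abs_nonneg t)
  linarith

theorem ee_cont (γ : ℝ) : Continuous (fun p : ℝ × ℝ => ee γ p.1 p.2) := by
  unfold ee; fun_prop

/-- `E exp (-γ (1-x) |t|)` -/
noncomputable def hh (μ : Measure ℝ) (γ t : ℝ) : ℝ := ∫ x, ee γ t x ∂μ

/-- `β E x exp (-γ (1-x) |t|)` -/
noncomputable def bb (μ : Measure ℝ) (β γ t : ℝ) : ℝ := ∫ x, β * x * ee γ t x ∂μ

section

variable {μ : Measure ℝ} [IsProbabilityMeasure μ]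

theorem ae01 (hμ : μ (Ioo 0 1)ᶜ = 0) : ∀ᵐ x ∂μ, x ∈ Ioo (0 : ℝ) 1 := by
  rw [ae_iff]; exact hμ

theorem ee_int (hμ : μ (Ioo 0 1)ᶜ = 0) {γ : ℝ} (hγ : 0 ≤ γ) (t : ℝ) :
    Integrable (fun x => ee γ t x) μ := by
  refine Integrable.mono' (integrable_const (1 : ℝ)) ?_ ?_
  · exact ((ee_cont γ).comp (continuous_const.prodMk continuous_id)).aestronglyMeasurable
  · filter_upwards [ae01 hμ] with x hx
    rw [Real.norm_of_nonneg (ee_pos _ _ _).le]
    exact ee_le hγ hx.2

theorem bee_int (hμ : μ (Ioo 0 1)ᶜ = 0) {β γ : ℝ} (hβ : 0 ≤ β) (hγ : 0 ≤ γ) (t : ℝ) :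
    Integrable (fun x => β * x * ee γ t x) μ := by
  refine Integrable.mono' (integrable_const β) ?_ ?_
  · exact ((continuous_const.mul continuous_id).mul
      ((ee_cont γ).comp (continuous_const.prodMk continuous_id))).aestronglyMeasurable
  · filter_upwards [ae01 hμ] with x hx
    rw [Real.norm_of_nonneg (mul_nonneg (mul_nonneg hβ hx.1.le) (ee_pos _ _ _).le)]
    have h1 := ee_le (t := t) hγ hx.2
    have h2 : β * x ≤ β := by nlinarith [hx.1, hx.2]
    calc β * x * ee γ t x ≤ β * x * 1 :=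
          mul_le_mul_of_nonneg_left h1 (mul_nonneg hβ hx.1.le)
      _ ≤ β := by linarith

theorem hh_cont (hμ : μ (Ioo 0 1)ᶜ = 0) {γ : ℝ} (hγ : 0 ≤ γ) : Continuous (hh μ γ) := by
  unfold hh
  refine continuous_of_dominated (bound := fun _ => 1) ?_ ?_ (integrable_const _) ?_
  · intro t
    exact ((ee_cont γ).comp (continuous_const.prodMk continuous_id)).aestronglyMeasurable
  · intro t
    filter_upwards [ae01 hμ] with x hx
    rw [Real.norm_of_nonneg (ee_pos _ _ _).le]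
    exact ee_le hγ hx.2
  · exact Eventually.of_forall fun x =>
      (ee_cont γ).comp (continuous_id.prodMk continuous_const)

theorem bb_cont (hμ : μ (Ioo 0 1)ᶜ = 0) {β γ : ℝ} (hβ : 0 ≤ β) (hγ : 0 ≤ γ) :
    Continuous (bb μ β γ) := by
  unfold bb
  refine continuous_of_dominated (bound := fun _ => β) ?_ ?_ (integrable_const _) ?_
  · intro t
    exact ((continuous_const.mul continuous_id).mul
      ((ee_cont γ).comp (continuous_const.prodMk continuous_id))).aestronglyMeasurable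
  · intro t
    filter_upwards [ae01 hμ] with x hx
    rw [Real.norm_of_nonneg (mul_nonneg (mul_nonneg hβ hx.1.le) (ee_pos _ _ _).le)]
    have h1 := ee_le (t := t) hγ hx.2
    have h2 : β * x ≤ β := by nlinarith [hx.1, hx.2]
    calc β * x * ee γ t x ≤ β * x * 1 :=
          mul_le_mul_of_nonneg_left h1 (mul_nonneg hβ hx.1.le)
      _ ≤ β := by linarith
  · exact Eventually.of_forall fun x =>
      continuous_const.mul ((ee_cont γ).comp (continuous_id.prodMk continuous_const))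

theorem hh_nonneg (γ t : ℝ) : 0 ≤ hh μ γ t :=
  integral_nonneg fun x => (ee_pos γ t x).le

theorem bb_nonneg (hμ : μ (Ioo 0 1)ᶜ = 0) {β : ℝ} (hβ : 0 ≤ β) (γ t : ℝ) : 0 ≤ bb μ β γ t := by
  refine integral_nonneg_of_ae ?_
  filter_upwards [ae01 hμ] with x hx
  exact mul_nonneg (mul_nonneg hβ hx.1.le) (ee_pos _ _ _).le

theorem bb_le (hμ : μ (Ioo 0 1)ᶜ = 0) {β γ : ℝ} (hβ : 0 ≤ β) (hβ1 : β ≤ 1) (hγ : 0 ≤ γ)
    (t : ℝ) : bb μ β γ t ≤ hh μ γ t := by
  refine integral_mono_ae (bee_int hμ hβ hγ t) (ee_int hμ hγ t) ?_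
  filter_upwards [ae01 hμ] with x hx
  have h1 : β * x ≤ 1 := by nlinarith [hx.1, hx.2]
  calc β * x * ee γ t x ≤ 1 * ee γ t x := mul_le_mul_of_nonneg_right h1 (ee_pos _ _ _).le
    _ = ee γ t x := one_mul _

theorem exp_le {p y : ℝ} (hp : 1 < p) (hy : 0 ≤ y) :
    Real.exp (-y) ≤ p ^ p * (1 + y) ^ (-p) := by
  have hp0 : 0 < p := by linarith
  have h1 : 1 + y ≤ p * Real.exp (y / p) := by
    have h2 : y / p + 1 ≤ Real.exp (y / p) := Real.add_one_le_exp _
    have h3 : p * (y / p + 1) = y + p := by field_simp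
    have h4 : p * (y / p + 1) ≤ p * Real.exp (y / p) := mul_le_mul_of_nonneg_left h2 hp0.le
    linarith
  have h5 : (1 + y) ^ p ≤ p ^ p * Real.exp y := by
    calc (1 + y) ^ p ≤ (p * Real.exp (y / p)) ^ p :=
          Real.rpow_le_rpow (by linarith) h1 hp0.le
      _ = p ^ p * Real.exp y := by
          rw [Real.mul_rpow hp0.le (Real.exp_pos _).le, ← Real.exp_mul]
          congr 2
          field_simp
  have h6 : 0 < (1 + y) ^ p := Real.rpow_pos_of_pos (by linarith) _
  rw [Real.rpow_neg (by linarith), Real.exp_neg]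
  rw [inv_eq_one_div, div_le_iff₀ (Real.exp_pos _)]
  have h7 : 1 ≤ p ^ p * Real.exp y / (1 + y) ^ p := by
    rw [le_div_iff₀ h6]; linarith
  calc (1 : ℝ) ≤ p ^ p * Real.exp y / (1 + y) ^ p := h7
    _ = _ := by field_simp

theorem ee_poly {p γ t x : ℝ} (hp : 1 < p) (hγ : 0 < γ) (hγ1 : γ ≤ 1) (hx : x ∈ Ioo (0 : ℝ) 1)
    (ht : 0 ≤ t) :
    ee γ t x ≤ p ^ p * γ ^ (-p) * (1 + t) ^ (-p) * (1 - x) ^ (-p) := by
  have hx1 : 0 < 1 - x := by linarith [hx.2]
  have hpp : 0 < p ^ p := Real.rpow_pos_of_pos (by linarith) _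
  have h0 : 0 ≤ γ * (1 - x) * |t| := by positivity
  have h1 := exp_le hp h0
  have h2 : (1 + γ * (1 - x) * |t|) ^ (-p) ≤ (γ * (1 - x) * (1 + t)) ^ (-p) := by
    refine Real.rpow_le_rpow_of_nonpos (by positivity) ?_ (by linarith)
    rw [abs_of_nonneg ht]
    have : γ * (1 - x) ≤ 1 := by nlinarith [hx.1]
    nlinarith
  have h3 : (γ * (1 - x) * (1 + t)) ^ (-p) = γ ^ (-p) * (1 - x) ^ (-p) * (1 + t) ^ (-p) := by
    rw [Real.mul_rpow (by positivity) (by positivity), Real.mul_rpow hγ.le hx1.le]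
  unfold ee
  calc _ ≤ p ^ p * (1 + γ * (1 - x) * |t|) ^ (-p) := h1
    _ ≤ p ^ p * (γ * (1 - x) * (1 + t)) ^ (-p) := mul_le_mul_of_nonneg_left h2 hpp.le
    _ = _ := by rw [h3]; ring

theorem pow_int (hμ : μ (Ioo 0 1)ᶜ = 0) {p : ℝ}
    (h : ∫⁻ x, ENNReal.ofReal ((1 - x) ^ (-p)) ∂μ < ⊤) :
    Integrable (fun x => (1 - x) ^ (-p)) μ := by
  refine ⟨?_, ?_⟩
  · exact ((measurable_const.sub measurable_id).pow_const _).aestronglyMeasurable
  · rw [hasFiniteIntegral_iff_ofReal]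
    · exact h
    · filter_upwards [ae01 hμ] with x hx
      exact Real.rpow_nonneg (by linarith [hx.2]) _

theorem hh_poly (hμ : μ (Ioo 0 1)ᶜ = 0) {p γ t : ℝ} (hp : 1 < p) (hγ : 0 < γ) (hγ1 : γ ≤ 1)
    (h : ∫⁻ x, ENNReal.ofReal ((1 - x) ^ (-p)) ∂μ < ⊤) (ht : 0 ≤ t) :
    hh μ γ t ≤ (p ^ p * γ ^ (-p) * ∫ x, (1 - x) ^ (-p) ∂μ) * (1 + t) ^ (-p) := by
  have h1 : hh μ γ t ≤ ∫ x, p ^ p * γ ^ (-p) * (1 + t) ^ (-p) * (1 - x) ^ (-p) ∂μ := by
    refine integral_mono_ae (ee_int hμ hγ.le t) ((pow_int hμ h).const_mul _) ?_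
    filter_upwards [ae01 hμ] with x hx
    exact ee_poly hp hγ hγ1 hx ht
  rw [integral_const_mul] at h1
  linarith

theorem inner_lint {β γ x : ℝ} (hβ : 0 ≤ β) (hγ : 0 < γ) (hx : x ∈ Ioo (0 : ℝ) 1) :
    ∫⁻ t in Ioi (0 : ℝ), ENNReal.ofReal (β * x * ee γ t x) =
      ENNReal.ofReal (β * x / (γ * (1 - x))) := by
  have hx1 : 0 < 1 - x := by linarith [hx.2]
  have hneg : -(γ * (1 - x)) < 0 := by
    have := mul_pos hγ hx1
    linarith
  have h1 : ∫⁻ t in Ioi (0 : ℝ), ENNReal.ofReal (β * x * ee γ t x) =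
      ∫⁻ t in Ioi (0 : ℝ), ENNReal.ofReal (β * x * Real.exp (-(γ * (1 - x)) * t)) := by
    refine setLIntegral_congr_fun measurableSet_Ioi ?_
    intro t ht
    have ht' : (0 : ℝ) < t := ht
    simp only [ee, abs_of_pos ht']
    congr 3
    ring
  rw [h1, ← ofReal_integral_eq_lintegral_ofReal]
  · rw [integral_const_mul, integral_exp_mul_Ioi hneg]
    congr 1
    simp
    field_simp
  · exact (integrableOn_exp_mul_Ioi hneg 0).const_mul _
  · exact Eventually.of_forall fun t =>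
      mul_nonneg (mul_nonneg hβ hx.1.le) (Real.exp_pos _).le

theorem bb_lint (hμ : μ (Ioo 0 1)ᶜ = 0) {β γ : ℝ} (hβ : 0 < β) (hγ : 0 < γ)
    (h : ∫⁻ x, ENNReal.ofReal (1 / (1 - x)) ∂μ < ENNReal.ofReal ((β + γ) / β)) :
    ∫⁻ t in Ioi (0 : ℝ), ENNReal.ofReal (bb μ β γ t) < 1 := by
  have h1 : ∀ t, ENNReal.ofReal (bb μ β γ t) = ∫⁻ x, ENNReal.ofReal (β * x * ee γ t x) ∂μ := by
    intro t
    refine ofReal_integral_eq_lintegral_ofReal (bee_int hμ hβ.le hγ.le t) ?_
    filter_upwards [ae01 hμ] with x hx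
    exact mul_nonneg (mul_nonneg hβ.le hx.1.le) (ee_pos _ _ _).le
  simp_rw [h1]
  rw [lintegral_lintegral_swap]
  · have h2 : ∫⁻ x, (∫⁻ t in Ioi (0 : ℝ), ENNReal.ofReal (β * x * ee γ t x)) ∂μ =
        ∫⁻ x, ENNReal.ofReal (β * x / (γ * (1 - x))) ∂μ := by
      refine lintegral_congr_ae ?_
      filter_upwards [ae01 hμ] with x hx
      exact inner_lint hβ.le hγ hx
    rw [h2]
    have h3 : ∫⁻ x, ENNReal.ofReal (β * x / (γ * (1 - x))) ∂μ + ENNReal.ofReal (β / γ) =
        ENNReal.ofReal (β / γ) * ∫⁻ x, ENNReal.ofReal (1 / (1 - x)) ∂μ := by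
      rw [← lintegral_const_mul _ (by fun_prop)]
      have h4 : ENNReal.ofReal (β / γ) = ∫⁻ _x, ENNReal.ofReal (β / γ) ∂μ := by simp
      rw [h4, ← lintegral_add_right _ measurable_const]
      refine lintegral_congr_ae ?_
      filter_upwards [ae01 hμ] with x hx
      have hx1 : 0 < 1 - x := by linarith [hx.2]
      have hx0 := hx.1
      simp only [lintegral_const, measure_univ, mul_one]
      rw [← ENNReal.ofReal_add (by positivity) (by positivity),
        ← ENNReal.ofReal_mul (by positivity)]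
      congr 1
      field_simp
      ring
    have h5 : ENNReal.ofReal (β / γ) * ∫⁻ x, ENNReal.ofReal (1 / (1 - x)) ∂μ <
        ENNReal.ofReal (β / γ) * ENNReal.ofReal ((β + γ) / β) := by
      refine (ENNReal.mul_lt_mul_iff_right ?_ ENNReal.ofReal_ne_top).2 h
      have : 0 < β / γ := by positivity
      simpa using this
    have h6 : ENNReal.ofReal (β / γ) * ENNReal.ofReal ((β + γ) / β) =
        1 + ENNReal.ofReal (β / γ) := by
      rw [← ENNReal.ofReal_mul (by positivity), ← ENNReal.ofReal_one,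
        ← ENNReal.ofReal_add (by norm_num) (by positivity)]
      congr 1
      field_simp
      ring
    rw [← h3, h6] at h5
    exact (ENNReal.add_lt_add_iff_right ENNReal.ofReal_ne_top).1 h5
  · refine (Measurable.ennreal_ofReal ?_).aemeasurable
    exact ((measurable_const.mul measurable_snd).mul
      ((ee_cont γ).measurable.comp (measurable_fst.prodMk measurable_snd)))

theorem bb_lt (hμ : μ (Ioo 0 1)ᶜ = 0) {β γ : ℝ} (hβ : 0 < β) (hγ : 0 < γ)
    (h : ∫⁻ x, ENNReal.ofReal (1 / (1 - x)) ∂μ < ENNReal.ofReal ((β + γ) / β)) :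
    ∫ t in Ioi (0 : ℝ), bb μ β γ t < 1 := by
  rw [integral_eq_lintegral_of_nonneg_ae (Eventually.of_forall fun t =>
    bb_nonneg hμ hβ.le γ t) (bb_cont hμ hβ.le hγ.le).aestronglyMeasurable]
  refine ENNReal.toReal_lt_of_lt_ofReal ?_
  rw [ENNReal.ofReal_one]
  exact bb_lint hμ hβ hγ h

theorem exp_split (γ x t r : ℝ) (hr : r ≤ t) :
    Real.exp (γ * x * (t - r)) * Real.exp (γ * r) = Real.exp (γ * t) * ee γ (t - r) x := by
  unfold ee
  rw [← Real.exp_add, ← Real.exp_add, abs_of_nonneg (by linarith)]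
  congr 1
  ring

/-- the supersolution property of `v` -/
theorem uu_le (hμ : μ (Ioo 0 1)ᶜ = 0) {β γ : ℝ} (hβ : 0 < β) (hγ : 0 < γ) (w : ℝ → ℝ)
    (hw : Continuous w) (hw0 : ∀ r, 0 ≤ w r) {t : ℝ} (ht : 0 ≤ t)
    (h : hh μ γ t + ∫ r in (0 : ℝ)..t, bb μ β γ (t - r) * w r ≤ w t) :
    ∫⁻ x, ENNReal.ofReal (uu β γ (fun r => Real.exp (γ * r) * w r) t x) ∂μ ≤
      ENNReal.ofReal (Real.exp (γ * t) * w t) := by
  have hF : ∀ x r, r ≤ t → β * x * Real.exp (γ * x * (t - r)) * (Real.exp (γ * r) * w r) =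
      Real.exp (γ * t) * (β * x * ee γ (t - r) x * w r) := by
    intro x r hr
    have := exp_split γ x t r hr
    calc _ = β * x * (Real.exp (γ * x * (t - r)) * Real.exp (γ * r)) * w r := by ring
      _ = _ := by rw [this]; ring
  -- first part
  have h1 : ∫⁻ x, ENNReal.ofReal (Real.exp (γ * x * t)) ∂μ =
      ENNReal.ofReal (Real.exp (γ * t) * hh μ γ t) := by
    have e : ∀ x, Real.exp (γ * x * t) = Real.exp (γ * t) * ee γ t x := by
      intro x
      unfold ee
      rw [← Real.exp_add, abs_of_nonneg ht]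
      congr 1
      ring
    simp_rw [e]
    rw [← ofReal_integral_eq_lintegral_ofReal ((ee_int hμ hγ.le t).const_mul _)
      (Eventually.of_forall fun x => mul_nonneg (Real.exp_pos _).le (ee_pos _ _ _).le),
      integral_const_mul]
    rfl
  -- second part
  have hcontF : ∀ x, Continuous fun r => β * x * Real.exp (γ * x * (t - r)) *
      (Real.exp (γ * r) * w r) := by
    intro x; fun_prop
  have h2 : ∀ x ∈ Ioo (0 : ℝ) 1, ENNReal.ofReal (∫ r in (0 : ℝ)..t,
      β * x * Real.exp (γ * x * (t - r)) * (Real.exp (γ * r) * w r)) =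
      ∫⁻ r in Ioc 0 t, ENNReal.ofReal (β * x * Real.exp (γ * x * (t - r)) *
        (Real.exp (γ * r) * w r)) := by
    intro x hx
    rw [intervalIntegral.integral_of_le ht]
    refine ofReal_integral_eq_lintegral_ofReal (hcontF x).integrableOn_Ioc ?_
    refine Eventually.of_forall fun r => ?_
    exact mul_nonneg (mul_nonneg (mul_nonneg hβ.le hx.1.le) (Real.exp_pos _).le)
      (mul_nonneg (Real.exp_pos _).le (hw0 r))
  have h3 : ∫⁻ x, ENNReal.ofReal (∫ r in (0 : ℝ)..t,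
      β * x * Real.exp (γ * x * (t - r)) * (Real.exp (γ * r) * w r)) ∂μ =
      ENNReal.ofReal (Real.exp (γ * t) * ∫ r in (0 : ℝ)..t, bb μ β γ (t - r) * w r) := by
    calc _ = ∫⁻ x, (∫⁻ r in Ioc 0 t, ENNReal.ofReal (β * x * Real.exp (γ * x * (t - r)) *
        (Real.exp (γ * r) * w r))) ∂μ := by
          refine lintegral_congr_ae ?_
          filter_upwards [ae01 hμ] with x hx using h2 x hx
      _ = ∫⁻ r in Ioc 0 t, ∫⁻ x, ENNReal.ofReal (β * x * Real.exp (γ * x * (t - r)) *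
        (Real.exp (γ * r) * w r)) ∂μ := by
          refine lintegral_lintegral_swap ?_
          refine (Measurable.ennreal_ofReal ?_).aemeasurable
          have hw' := hw.measurable
          have : Continuous fun q : ℝ × ℝ => β * q.1 * Real.exp (γ * q.1 * (t - q.2)) *
              (Real.exp (γ * q.2) * w q.2) := by fun_prop
          exact this.measurable
      _ = ∫⁻ r in Ioc 0 t, ENNReal.ofReal (Real.exp (γ * t) * (bb μ β γ (t - r) * w r)) := by
          refine setLIntegral_congr_fun measurableSet_Ioc ?_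
          intro r hr
          show ∫⁻ x, ENNReal.ofReal (β * x * Real.exp (γ * x * (t - r)) *
            (Real.exp (γ * r) * w r)) ∂μ = _
          have e1 : ∀ x, β * x * Real.exp (γ * x * (t - r)) * (Real.exp (γ * r) * w r) =
              Real.exp (γ * t) * w r * (β * x * ee γ (t - r) x) := by
            intro x
            rw [hF x r hr.2]; ring
          simp_rw [e1]
          rw [← ofReal_integral_eq_lintegral_ofReal ((bee_int hμ hβ.le hγ.le _).const_mul _)]
          · rw [integral_const_mul]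
            congr 1
            unfold bb
            ring
          · filter_upwards [ae01 hμ] with x hx
            exact mul_nonneg (mul_nonneg (Real.exp_pos _).le (hw0 r))
              (mul_nonneg (mul_nonneg hβ.le hx.1.le) (ee_pos _ _ _).le)
      _ = _ := by
          have hc : Continuous fun r => Real.exp (γ * t) * (bb μ β γ (t - r) * w r) := by
            have := bb_cont hμ hβ.le hγ.le
            fun_prop
          rw [← ofReal_integral_eq_lintegral_ofReal hc.integrableOn_Ioc, integral_const_mul,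
            intervalIntegral.integral_of_le ht]
          exact Eventually.of_forall fun r => mul_nonneg (Real.exp_pos _).le
            (mul_nonneg (bb_nonneg hμ hβ.le γ _) (hw0 r))
  have h4 : ∫⁻ x, ENNReal.ofReal (uu β γ (fun r => Real.exp (γ * r) * w r) t x) ∂μ ≤
      ∫⁻ x, ENNReal.ofReal (Real.exp (γ * x * t)) ∂μ + ∫⁻ x, ENNReal.ofReal (∫ r in (0 : ℝ)..t,
        β * x * Real.exp (γ * x * (t - r)) * (Real.exp (γ * r) * w r)) ∂μ := by
    rw [← lintegral_add_left (by fun_prop)]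
    refine lintegral_mono fun x => ?_
    exact ENNReal.ofReal_add_le
  refine h4.trans ?_
  rw [h1, h3, ← ENNReal.ofReal_add]
  · refine ENNReal.ofReal_le_ofReal ?_
    rw [← mul_add]
    exact mul_le_mul_of_nonneg_left h (Real.exp_pos _).le
  · exact mul_nonneg (Real.exp_pos _).le (hh_nonneg γ t)
  · refine mul_nonneg (Real.exp_pos _).le ?_
    refine intervalIntegral.integral_nonneg ht fun r _ => ?_
    exact mul_nonneg (bb_nonneg hμ hβ.le γ _) (hw0 r)

end

end Up

open Up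

theorem t_up (hgood : St_good) (hlin : St_lin) (hsub : St_sub) : St_up := by
  intro μ _ hμ β γ hpar hcond p hp hpow
  obtain ⟨hβ, hβ1, hγ, hγ1, hbg⟩ := hpar
  set C : ℝ := p ^ p * γ ^ (-p) * ∫ x, (1 - x) ^ (-p) ∂μ with hC
  obtain ⟨K, L, hK, hL, hKL⟩ := hsub (hh μ γ) (bb μ β γ) p C hp (hh_cont hμ hγ.le)
    (bb_cont hμ hβ.le hγ.le) (fun t => hh_nonneg γ t) (fun t => bb_nonneg hμ hβ.le γ t)
    (fun t ht => hh_poly hμ hp hγ hγ1 hpow ht)
    (fun t ht => (bb_le hμ hβ.le hβ1 hγ.le t).trans (hh_poly hμ hp hγ hγ1 hpow ht))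
    (bb_lt hμ hβ hγ hcond)
  refine ⟨K, L, hK, hL, ?_⟩
  have hL0 : 0 < L := by linarith
  set w : ℝ → ℝ := fun r => K * (1 + |r| / L) ^ (-p) with hw
  have hbase : ∀ r : ℝ, 0 < 1 + |r| / L := fun r => by positivity
  have hwc : Continuous w := by
    rw [hw]
    refine continuous_const.mul (Continuous.rpow_const (by fun_prop) fun r => Or.inl ?_)
    exact (hbase r).ne'
  have hw0 : ∀ r, 0 ≤ w r := fun r => mul_nonneg hK.le (Real.rpow_nonneg (hbase r).le _)
  intro n t ht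
  have hsup : ∀ t, 0 ≤ t →
      ∫⁻ x, ENNReal.ofReal (uu β γ (fun r => Real.exp (γ * r) * w r) t x) ∂μ ≤
      ENNReal.ofReal (Real.exp (γ * t) * w t) := by
    intro t ht
    refine uu_le hμ hβ hγ w hwc hw0 ht ?_
    have h1 := hKL t ht
    have h2 : ∫ r in (0 : ℝ)..t, bb μ β γ (t - r) * w r =
        ∫ r in (0 : ℝ)..t, bb μ β γ (t - r) * (K * (1 + r / L) ^ (-p)) := by
      refine intervalIntegral.integral_congr fun r hr => ?_
      rw [uIcc_of_le ht] at hr
      simp only [hw, abs_of_nonneg hr.1]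
    have h3 : w t = K * (1 + t / L) ^ (-p) := by simp only [hw, abs_of_nonneg ht]
    rw [h2, h3]
    exact h1
  have hvc : Continuous fun r => Real.exp (γ * r) * w r := by fun_prop
  have hv0 : ∀ r, 0 ≤ Real.exp (γ * r) * w r := fun r =>
    mul_nonneg (Real.exp_pos _).le (hw0 r)
  have hl := hlin μ hμ β γ ⟨hβ, hβ1, hγ, hγ1, hbg⟩ (fun r => Real.exp (γ * r) * w r)
    hvc hv0 hsup n t
  calc ∫⁻ f, (∫⁻ w, X β γ sz sz n t (st0 f) w ∂(Qm μ)) ∂μ
      ≤ ∫⁻ f, ENNReal.ofReal (uu β γ (fun r => Real.exp (γ * r) * w r) t f) ∂μ := by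
        refine lintegral_mono_ae ?_
        filter_upwards [ae01 hμ] with f hf
        have := hl (st0 f) ht (hgood.2.2.1 f hf)
        simpa [st0] using this
    _ ≤ ENNReal.ofReal (Real.exp (γ * t) * w t) := hsup t ht
    _ = _ := by
        congr 1
        simp only [hw, abs_of_nonneg ht]
        ring

end Pool.Agent.Q288.RB
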