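import Pool.Agent.Q288.RB.Stm

/-!
# Project RB: construction of the multiplicative supersolution (job St_yc, helper238)
-/

open MeasureTheory ProbabilityTheory Filter Set
open scoped ENNReal Topology

namespace Pool.Agent.Q288.RB

theorem yc_der (c r τ t : ℝ) :
    HasDerivWithinAt (fun u => c * (Real.exp (r * max (u - τ) 0) - 1))
      (if τ ≤ t then c * (r * Real.exp (r * (t - τ))) else 0) (Ioi t) t := by
  by_cases h : τ ≤ t
  · rw [if_pos h]
    have h1 : HasDerivAt (fun u => c * (Real.exp (r * (u - τ)) - 1))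
        (c * (r * Real.exp (r * (t - τ)))) t := by
      have h2 := (((((hasDerivAt_id t).sub_const τ).const_mul r).exp).sub_const 1).const_mul c
      refine h2.congr_deriv ?_
      simp only [id_eq]
      ring
    refine h1.hasDerivWithinAt.congr ?_ ?_
    · intro u hu
      have h3 : 0 ≤ u - τ := by
        have := mem_Ioi.1 hu
        linarith
      simp only [max_eq_left h3]
    · simp only [max_eq_left (sub_nonneg.2 h)]
  · rw [if_neg h]
    push Not at h
    have h1 : (fun u => c * (Real.exp (r * max (u - τ) 0) - 1)) =ᶠ[𝓝 t] fun _ => 0 := by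
      filter_upwards [Iio_mem_nhds h] with u hu
      have h2 : u - τ ≤ 0 := by
        have := mem_Iio.1 hu
        linarith
      rw [max_eq_right h2, mul_zero, Real.exp_zero, sub_self, mul_zero]
    exact ((hasDerivAt_const t (0 : ℝ)).congr_of_eventuallyEq h1).hasDerivWithinAt

theorem yc_int (μ : Measure ℝ) [IsProbabilityMeasure μ] (g : ℝ → ℝ) (hg : Measurable g)
    (h0 : ∀ f, 0 ≤ g f) (c : ℝ) (h1 : ∀ f ∈ Ico c 1, 1 ≤ g f) :
    μ.real (Ico c 1) / 2 ≤ 1 - ∫ f, 1 / (1 + g f) ∂μ := by
  have hpt : ∀ f, 1 / (1 + g f) ≤ 1 - (Ico c 1).indicator (fun _ => (1 / 2 : ℝ)) f := by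
    intro f
    have h2 := h0 f
    by_cases hf : f ∈ Ico c 1
    · rw [indicator_of_mem hf, div_le_iff₀ (by linarith)]
      have := h1 f hf
      linarith
    · rw [indicator_of_notMem hf, sub_zero, div_le_iff₀ (by linarith)]
      linarith
  have hi1 : Integrable (fun f => 1 / (1 + g f)) μ := by
    apply Integrable.of_bound (C := 1)
    · exact (measurable_const.div (measurable_const.add hg)).aestronglyMeasurable
    · filter_upwards with f
      have h2 := h0 f
      rw [Real.norm_eq_abs, abs_of_nonneg (by positivity), div_le_iff₀ (by linarith)]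
      linarith
  have hi2 : Integrable ((Ico c 1).indicator (fun _ => (1 / 2 : ℝ))) μ :=
    (integrable_const _).indicator measurableSet_Ico
  have h3 := integral_mono hi1 ((integrable_const (1 : ℝ)).sub hi2) hpt
  have h4 : ∫ f, (1 - (Ico c 1).indicator (fun _ => (1 / 2 : ℝ)) f) ∂μ =
      1 - μ.real (Ico c 1) / 2 := by
    rw [integral_sub (integrable_const (1 : ℝ)) hi2, integral_const,
      integral_indicator_const _ measurableSet_Ico]
    simp
    ring
  have h5 : ∫ f, 1 / (1 + g f) ∂μ ≤ 1 - μ.real (Ico c 1) / 2 := by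
    rw [← h4]
    exact h3
  linarith

theorem yc_int0 (μ : Measure ℝ) [IsProbabilityMeasure μ] (g : ℝ → ℝ) (hg : Measurable g)
    (h0 : ∀ f, 0 ≤ g f) : 0 ≤ 1 - ∫ f, 1 / (1 + g f) ∂μ := by
  have h1 := yc_int μ g hg h0 1 (fun f hf => by simp at hf)
  have h2 : 0 ≤ μ.real (Ico (1 : ℝ) 1) / 2 := by positivity
  linarith

/-- the profile -/
noncomputable def ycY (β γ a T x0 T1 T2 e1 e0 : ℝ) (t x : ℝ) : ℝ :=
  if 1 - 1 / T ≤ x then 1 / a * Real.exp (γ * x * t)
  else if x0 ≤ x then β * e1 / γ * (Real.exp (γ * x0 * max (t - T1) 0) - 1)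
  else β * e0 / γ * (Real.exp (γ * max x 0 * max (t - T2) 0) - 1)

/-- its derivative -/
noncomputable def ycD (β γ a T x0 T1 T2 e1 e0 : ℝ) (t x : ℝ) : ℝ :=
  if 1 - 1 / T ≤ x then γ * x * (1 / a * Real.exp (γ * x * t))
  else if x0 ≤ x then
    (if T1 ≤ t then β * e1 / γ * (γ * x0 * Real.exp (γ * x0 * (t - T1))) else 0)
  else (if T2 ≤ t then β * e0 / γ * (γ * x * Real.exp (γ * x * (t - T2))) else 0)

theorem ycY_nonneg {β γ a T x0 T1 T2 e1 e0 : ℝ} (hβ : 0 < β) (hγ : 0 < γ) (ha : 0 < a)
    (hx0 : 0 < x0) (he1 : 0 ≤ e1) (he0 : 0 ≤ e0) (t x : ℝ) :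
    0 ≤ ycY β γ a T x0 T1 T2 e1 e0 t x := by
  unfold ycY
  have hexp : ∀ y : ℝ, 0 ≤ y → 0 ≤ Real.exp y - 1 := fun y hy => by
    have := Real.one_le_exp hy
    linarith
  split_ifs
  · positivity
  · apply mul_nonneg (by positivity)
    apply hexp
    have : 0 ≤ max (t - T1) 0 := le_max_right _ _
    positivity
  · apply mul_nonneg (by positivity)
    apply hexp
    have h1 : 0 ≤ max (t - T2) 0 := le_max_right _ _
    have h2 : 0 ≤ max x 0 := le_max_right _ _
    positivity

theorem ycY_meas (β γ a T x0 T1 T2 e1 e0 : ℝ) :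
    Measurable (fun p : ℝ × ℝ => ycY β γ a T x0 T1 T2 e1 e0 p.1 p.2) := by
  unfold ycY
  refine Measurable.ite (measurableSet_le measurable_const measurable_snd) ?_
    (Measurable.ite (measurableSet_le measurable_const measurable_snd) ?_ ?_)
  · fun_prop
  · fun_prop
  · fun_prop

theorem yc_sol (μ : Measure ℝ) [IsProbabilityMeasure μ] {β γ : ℝ} (hp : Par β γ)
    {a T x0 T1 T2 e1 e0 : ℝ} (ha : 0 < a) (hx0 : 0 < x0) (hT1 : 0 ≤ T1) (hT2 : 0 ≤ T2)
    (he1 : e1 = μ.real (Ico (1 - 1 / T) 1) / 2) (he0 : e0 = μ.real (Ico x0 1) / 2)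
    (H1 : ∀ t x, T1 ≤ t → t ≤ T → 1 - 1 / T ≤ x → x < 1 →
      1 ≤ ycY β γ a T x0 T1 T2 e1 e0 t x)
    (H2 : ∀ t x, T2 ≤ t → t ≤ T → x0 ≤ x → x < 1 → 1 ≤ ycY β γ a T x0 T1 T2 e1 e0 t x) :
    Sol μ β γ T (1 / (1 + 1 / a)) (ycY β γ a T x0 T1 T2 e1 e0) (ycD β γ a T x0 T1 T2 e1 e0) := by
  have hβ := hp.1
  have hγ := hp.2.2.1
  have h10 : 0 ≤ e1 := by rw [he1]; positivity
  have h00 : 0 ≤ e0 := by rw [he0]; positivity
  have hnn := ycY_nonneg (T := T) (T1 := T1) (T2 := T2) hβ hγ ha hx0 h10 h00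
  have hm := ycY_meas β γ a T x0 T1 T2 e1 e0
  have hmt : ∀ t, Measurable (fun x => ycY β γ a T x0 T1 T2 e1 e0 t x) := fun t =>
    hm.comp (measurable_const.prodMk measurable_id)
  refine ⟨hm, hnn, ?_, ?_, ?_, ?_⟩
  · intro x _
    apply Continuous.continuousOn
    unfold ycY
    split_ifs
    · fun_prop
    · fun_prop
    · fun_prop
  · intro x hx
    apply one_div_le_one_div_of_le
    · have := hnn 0 x
      linarith
    · have h1 : ycY β γ a T x0 T1 T2 e1 e0 0 x ≤ 1 / a := by
        unfold ycY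
        have h2 : 0 ≤ 1 / a := by positivity
        split_ifs
        · simp
        · rw [max_eq_right (by linarith), mul_zero, Real.exp_zero, sub_self, mul_zero]
          exact h2
        · rw [max_eq_right (a := 0 - T2) (by linarith), mul_zero, Real.exp_zero, sub_self,
            mul_zero]
          exact h2
      linarith
  · intro x hx t _
    unfold ycY ycD
    split_ifs with h1 h2 h3 h4
    · have h5 : HasDerivAt (fun τ => 1 / a * Real.exp (γ * x * τ))
          (γ * x * (1 / a * Real.exp (γ * x * t))) t := by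
        have h6 := (((hasDerivAt_id t).const_mul (γ * x)).exp).const_mul (1 / a)
        refine h6.congr_deriv ?_
        simp only [id_eq]
        ring
      exact h5.hasDerivWithinAt
    · have h5 := yc_der (β * e1 / γ) (γ * x0) T1 t
      rw [if_pos h3] at h5
      exact h5
    · have h5 := yc_der (β * e1 / γ) (γ * x0) T1 t
      rw [if_neg h3] at h5
      exact h5
    · have h5 := yc_der (β * e0 / γ) (γ * x) T2 t
      rw [if_pos h4] at h5
      rw [max_eq_left hx.1.le]
      exact h5
    · have h5 := yc_der (β * e0 / γ) (γ * x) T2 t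
      rw [if_neg h4] at h5
      rw [max_eq_left hx.1.le]
      exact h5
  · intro x hx t ht
    set J := 1 - ∫ f, 1 / (1 + ycY β γ a T x0 T1 T2 e1 e0 t f) ∂μ with hJ
    have hJ0 : 0 ≤ J := yc_int0 μ _ (hmt t) (hnn t)
    have hJ1 : T1 ≤ t → e1 ≤ J := by
      intro h
      rw [he1]
      rw [hJ]
      apply yc_int μ _ (hmt t) (hnn t)
      intro f hf
      exact H1 t f h ht.2.le hf.1 hf.2
    have hJ2 : T2 ≤ t → e0 ≤ J := by
      intro h
      rw [he0]
      rw [hJ]
      apply yc_int μ _ (hmt t) (hnn t)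
      intro f hf
      exact H2 t f h ht.2.le hf.1 hf.2
    have hY := hnn t x
    have hx1 := hx.1
    have hbJ : 0 ≤ β * x * J := by positivity
    have hgY : 0 ≤ γ * x * ycY β γ a T x0 T1 T2 e1 e0 t x := by positivity
    unfold ycD
    split_ifs with h1 h2 h3 h4
    · have : ycY β γ a T x0 T1 T2 e1 e0 t x = 1 / a * Real.exp (γ * x * t) := by
        unfold ycY
        rw [if_pos h1]
      rw [this]
      linarith
    · have h5 : ycY β γ a T x0 T1 T2 e1 e0 t x =
          β * e1 / γ * (Real.exp (γ * x0 * (t - T1)) - 1) := by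
        unfold ycY
        rw [if_neg h1, if_pos h2, max_eq_left (by linarith)]
      rw [h5]
      set E := Real.exp (γ * x0 * (t - T1)) with hE
      have h6 : γ * x * (β * e1 / γ * (E - 1)) = β * x * e1 * E - β * x * e1 := by
        field_simp
      have h7 : β * e1 / γ * (γ * x0 * E) = β * x0 * e1 * E := by
        field_simp
      rw [h6, h7]
      have h8 : β * x * e1 ≤ β * x * J := by
        have := hJ1 h3
        gcongr
      have h9 : β * x0 * e1 * E ≤ β * x * e1 * E := by
        have : 0 < E := Real.exp_pos _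
        gcongr
      linarith
    · linarith
    · have h5 : ycY β γ a T x0 T1 T2 e1 e0 t x =
          β * e0 / γ * (Real.exp (γ * x * (t - T2)) - 1) := by
        unfold ycY
        rw [if_neg h1, if_neg h2, max_eq_left hx1.le, max_eq_left (by linarith)]
      rw [h5]
      set E := Real.exp (γ * x * (t - T2)) with hE
      have h6 : γ * x * (β * e0 / γ * (E - 1)) = β * x * e0 * E - β * x * e0 := by
        field_simp
      have h7 : β * e0 / γ * (γ * x * E) = β * x * e0 * E := by
        field_simp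
      rw [h6, h7]
      have h8 : β * x * e0 ≤ β * x * J := by
        have := hJ2 h4
        gcongr
      linarith
    · linarith

/-- the choice of `K` -/
theorem yc_K (μ : Measure ℝ) [IsProbabilityMeasure μ] (γ c x0 : ℝ) (hγ : 0 < γ) (hc : 0 < c) :
    Tendsto (fun K : ℝ => ∫⁻ f in Ioo 0 x0,
      ENNReal.ofReal (1 / (1 + c * (Real.exp (γ * f * K) - 1))) ∂μ) atTop (𝓝 0) := by
  have h1 : ∫⁻ _ in Ioo 0 x0, (0 : ℝ≥0∞) ∂μ = 0 := by simp
  rw [← h1]
  refine tendsto_lintegral_filter_of_dominated_convergence (fun _ => 1) ?_ ?_ ?_ ?_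
  · filter_upwards with K
    fun_prop
  · filter_upwards [eventually_ge_atTop (0 : ℝ)] with K hK
    filter_upwards [ae_restrict_mem measurableSet_Ioo] with f hf
    have hf1 := hf.1
    have h2 : 0 ≤ Real.exp (γ * f * K) - 1 := by
      have := Real.one_le_exp (show 0 ≤ γ * f * K by positivity)
      linarith
    have h3 : 0 ≤ c * (Real.exp (γ * f * K) - 1) := by positivity
    rw [ENNReal.ofReal_le_one, div_le_iff₀ (by linarith)]
    linarith
  · rw [lintegral_const]
    exact ENNReal.mul_ne_top (by simp) (measure_ne_top _ _)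
  · filter_upwards [ae_restrict_mem measurableSet_Ioo] with f hf
    have hf1 := hf.1
    have h2 : Tendsto (fun K : ℝ => γ * f * K) atTop atTop :=
      tendsto_id.const_mul_atTop (by positivity)
    have h3 := Real.tendsto_exp_atTop.comp h2
    have h4 : Tendsto (fun K : ℝ => 1 + c * (Real.exp (γ * f * K) - 1)) atTop atTop := by
      apply tendsto_atTop_add_const_left
      apply Tendsto.const_mul_atTop hc
      exact tendsto_atTop_add_const_right _ _ h3
    have h5 : Tendsto (fun K : ℝ => 1 / (1 + c * (Real.exp (γ * f * K) - 1))) atTop (𝓝 0) := by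
      simp only [one_div]
      exact h4.inv_tendsto_atTop
    have h6 := ENNReal.tendsto_ofReal h5
    rwa [ENNReal.ofReal_zero] at h6

theorem t_yc : St_yc := by
  intro μ _ hμ β γ hp α hα htail ε ε' hε hε'
  have hβ := hp.1
  have hγ := hp.2.2.1
  set x0 : ℝ := (α + ε / 4) / (α + ε / 2) with hx0def
  have hx0 : 0 < x0 := by positivity
  have hx01 : x0 < 1 := by
    rw [hx0def, div_lt_one (by positivity)]
    linarith
  have hx0m : (α + ε / 2) * x0 = α + ε / 4 := by
    rw [hx0def]
    field_simp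
  set e0 : ℝ := μ.real (Ico x0 1) / 2 with he0
  have he0pos : 0 < e0 := by
    have h1 := htail 1 one_pos
    have h2 : ∀ᶠ u in 𝓝[>] (0 : ℝ), u < 1 - x0 :=
      mem_nhdsWithin_of_mem_nhds (Iio_mem_nhds (by linarith))
    obtain ⟨u, h3, h4, h5⟩ := (h1.and (h2.and self_mem_nhdsWithin)).exists
    have h6 : 0 < u := h5
    have h7 : 0 < μ (Ioo (1 - u) 1) :=
      lt_of_lt_of_le (ENNReal.ofReal_pos.2 (Real.rpow_pos_of_pos h6 _)) h3
    have h8 : 0 < μ (Ico x0 1) := lt_of_lt_of_le h7 (measure_mono (by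
      intro y hy
      exact ⟨by linarith [hy.1], hy.2⟩))
    have h9 : 0 < μ.real (Ico x0 1) := ENNReal.toReal_pos h8.ne' (measure_ne_top _ _)
    positivity
  -- choice of `K`
  obtain ⟨K, hK, hK0⟩ : ∃ K : ℝ, (∫⁻ f in Ioo 0 x0, ENNReal.ofReal
      (1 / (1 + β * e0 / γ * (Real.exp (γ * f * K) - 1))) ∂μ) ≤ ENNReal.ofReal (ε' / 2) ∧
      0 ≤ K := by
    have h1 := yc_K μ γ (β * e0 / γ) x0 hγ (by positivity)
    have h2 := h1.eventually (gt_mem_nhds (show (0 : ℝ≥0∞) < ENNReal.ofReal (ε' / 2) from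
      ENNReal.ofReal_pos.2 (by positivity)))
    obtain ⟨K, h3, h4⟩ := (h2.and (eventually_ge_atTop (0 : ℝ))).exists
    exact ⟨K, h3.le, h4⟩
  set B : ℝ := max 1 (2 / ε') with hB
  have hB1 : 1 ≤ B := le_max_left _ _
  have hB2 : 2 / ε' ≤ B := le_max_right _ _
  -- the conditions on `T`
  have hlog := Real.tendsto_log_atTop
  have E1 : ∀ᶠ T : ℝ in atTop, (α + ε / 2) / γ * Real.log T ≤ T := by
    have h1 : Tendsto (fun T : ℝ => (α + ε / 2) / γ * (Real.log T / T)) atTop (𝓝 0) := by
      have h2 : Tendsto (fun T : ℝ => Real.log T / T) atTop (𝓝 0) := by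
        have := Real.isLittleO_log_id_atTop
        exact this.tendsto_div_nhds_zero
      simpa using h2.const_mul ((α + ε / 2) / γ)
    filter_upwards [h1.eventually (gt_mem_nhds one_pos), eventually_gt_atTop (0 : ℝ)] with T h3 h4
    rw [← mul_div_assoc, div_lt_one h4] at h3
    exact h3.le
  have E2 : ∀ᶠ T : ℝ in atTop, γ ≤ ε / 2 * Real.log T := by
    have h1 := hlog.const_mul_atTop (show 0 < ε / 2 by positivity)
    exact h1.eventually_ge_atTop γ
  have E5 : ∀ᶠ T : ℝ in atTop, K ≤ (α + ε / 2) / γ * Real.log T := by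
    have h1 := hlog.const_mul_atTop (show 0 < (α + ε / 2) / γ by positivity)
    exact h1.eventually_ge_atTop K
  have E3 : ∀ᶠ T : ℝ in atTop, T ^ (-(α + ε / 8)) ≤ μ.real (Ico (1 - 1 / T) 1) := by
    have h1 := htail (ε / 8) (by positivity)
    have h2 : Tendsto (fun T : ℝ => 1 / T) atTop (𝓝[>] 0) := by
      simpa [one_div] using tendsto_inv_atTop_nhdsGT_zero (𝕜 := ℝ)
    filter_upwards [h2.eventually h1, eventually_gt_atTop (0 : ℝ)] with T h3 h4
    have h5 : T ^ (-(α + ε / 8)) = (1 / T) ^ (α + ε / 8) := by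
      rw [Real.rpow_neg h4.le, one_div, Real.inv_rpow h4.le]
    rw [h5]
    have h6 := ENNReal.toReal_mono (measure_ne_top _ _) h3
    rw [ENNReal.toReal_ofReal (by positivity)] at h6
    refine h6.trans ?_
    exact measureReal_mono (fun y hy => ⟨hy.1.le, hy.2⟩)
  have E4 : ∀ᶠ T : ℝ in atTop,
      B ≤ β / γ * (1 / 2 * Real.exp (-(γ * x0 * K)) * T ^ (ε / 8) - 1 / 2) := by
    have h1 : Tendsto (fun T : ℝ => T ^ (ε / 8)) atTop atTop :=
      tendsto_rpow_atTop (by positivity)
    have h2 : Tendsto (fun T : ℝ =>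
        β / γ * (1 / 2 * Real.exp (-(γ * x0 * K)) * T ^ (ε / 8) - 1 / 2)) atTop atTop := by
      apply Tendsto.const_mul_atTop (by positivity)
      apply tendsto_atTop_add_const_right
      exact h1.const_mul_atTop (by positivity)
    exact h2.eventually_ge_atTop B
  have E6 : ∀ᶠ T : ℝ in atTop, B ≤ T ^ (α + ε) * Real.exp (-γ) := by
    have h1 : Tendsto (fun T : ℝ => T ^ (α + ε)) atTop atTop :=
      tendsto_rpow_atTop (by positivity)
    exact (h1.atTop_mul_const (Real.exp_pos _)).eventually_ge_atTop B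
  filter_upwards [E1, E2, E3, E4, E5, E6, eventually_gt_atTop (1 : ℝ), eventually_ge_atTop K]
    with T h1 h2 h3 h4 h5 h6 h7 h8
  have hT0 : 0 < T := by linarith
  set L := Real.log T with hL
  have hL0 : 0 < L := Real.log_pos h7
  set s1 := (α + ε / 2) / γ * L with hs1
  have hs1' : γ * s1 = (α + ε / 2) * L := by
    rw [hs1]
    field_simp
  set T1 := T - s1 with hT1
  set T2 := T - K with hT2
  set e1 := μ.real (Ico (1 - 1 / T) 1) / 2 with he1
  set a := Real.exp (γ * T) * T ^ (-(α + ε)) with ha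
  have ha0 : 0 < a := by positivity
  have hrp : ∀ y : ℝ, T ^ y = Real.exp (L * y) := fun y => Real.rpow_def_of_pos hT0 y
  have ha' : 1 / a = Real.exp (-(γ * T) + (α + ε) * L) := by
    rw [ha, hrp, ← Real.exp_add, one_div, ← Real.exp_neg]
    congr 1
    ring
  -- class 1
  have hc1 : ∀ t x, 0 ≤ t → t ≤ T → 1 - 1 / T ≤ x →
      ycY β γ a T x0 T1 T2 e1 e0 t x ≥ Real.exp (γ * t - γ - γ * T + (α + ε) * L) := by
    intro t x ht0 htT hx
    unfold ycY
    rw [if_pos hx, ha', ← Real.exp_add]
    apply Real.exp_le_exp.2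
    have h9 : γ * (1 - 1 / T) * t ≤ γ * x * t := by gcongr
    have h10 : γ * (1 - 1 / T) * t = γ * t - γ * (t / T) := by
      field_simp
    have h11 : γ * (t / T) ≤ γ * 1 := by
      have : t / T ≤ 1 := by
        rw [div_le_one hT0]
        exact htT
      gcongr
    linarith
  -- class 2
  have he1' : T ^ (-(α + ε / 8)) / 2 ≤ e1 := by
    rw [he1]
    linarith
  have he1'' : e1 ≤ 1 / 2 := by
    rw [he1]
    have : μ.real (Ico (1 - 1 / T) 1) ≤ 1 := measureReal_le_one
    linarith
  have he10 : 0 ≤ e1 := by rw [he1]; positivity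
  have hc2 : ∀ t x, T2 ≤ t → ¬ (1 - 1 / T ≤ x) → x0 ≤ x →
      B ≤ ycY β γ a T x0 T1 T2 e1 e0 t x := by
    intro t x ht hx hx'
    unfold ycY
    rw [if_neg hx, if_pos hx']
    refine h4.trans ?_
    have h9 : s1 - K ≤ max (t - T1) 0 := by
      refine le_trans ?_ (le_max_left _ _)
      rw [hT1]
      rw [hT2] at ht
      linarith
    have h10 : Real.exp (γ * x0 * (s1 - K)) ≤ Real.exp (γ * x0 * max (t - T1) 0) := by
      apply Real.exp_le_exp.2
      gcongr
    have h11 : Real.exp (γ * x0 * (s1 - K)) = Real.exp (-(γ * x0 * K)) * T ^ (α + ε / 4) := by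
      rw [hrp, ← Real.exp_add]
      congr 1
      have : γ * x0 * s1 = L * (α + ε / 4) := by
        rw [← hx0m]
        calc γ * x0 * s1 = x0 * (γ * s1) := by ring
          _ = _ := by rw [hs1']; ring
      linarith
    have h12 : T ^ (-(α + ε / 8)) * T ^ (α + ε / 4) = T ^ (ε / 8) := by
      rw [← Real.rpow_add hT0]
      congr 1
      ring
    have h13 : 1 / 2 * Real.exp (-(γ * x0 * K)) * T ^ (ε / 8) ≤
        e1 * Real.exp (γ * x0 * max (t - T1) 0) := by
      calc 1 / 2 * Real.exp (-(γ * x0 * K)) * T ^ (ε / 8)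
          = (T ^ (-(α + ε / 8)) / 2) * (Real.exp (-(γ * x0 * K)) * T ^ (α + ε / 4)) := by
            rw [← h12]
            ring
        _ = (T ^ (-(α + ε / 8)) / 2) * Real.exp (γ * x0 * (s1 - K)) := by rw [h11]
        _ ≤ e1 * Real.exp (γ * x0 * max (t - T1) 0) := by gcongr
    have h14 : β * e1 / γ * (Real.exp (γ * x0 * max (t - T1) 0) - 1) =
        β / γ * (e1 * Real.exp (γ * x0 * max (t - T1) 0) - e1) := by ring
    rw [h14]
    gcongr
  have hH1 : ∀ t x, T1 ≤ t → t ≤ T → 1 - 1 / T ≤ x → x < 1 →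
      1 ≤ ycY β γ a T x0 T1 T2 e1 e0 t x := by
    intro t x ht htT hx _
    have h9 : 0 ≤ T1 := by
      rw [hT1]
      linarith
    refine le_trans ?_ (hc1 t x (h9.trans ht) htT hx)
    apply Real.one_le_exp
    have h10 : γ * T1 ≤ γ * t := by gcongr
    have h11 : γ * T1 = γ * T - (α + ε / 2) * L := by
      rw [hT1, mul_sub, hs1']
    linarith
  refine ⟨ycY β γ a T x0 T1 T2 e1 e0, ycD β γ a T x0 T1 T2 e1 e0, ?_, ?_⟩
  · refine yc_sol μ hp ha0 hx0 ?_ ?_ he1 he0 hH1 ?_
    · rw [hT1]
      linarith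
    · rw [hT2]
      linarith
    · intro t x ht htT hx hx1
      by_cases h9 : 1 - 1 / T ≤ x
      · refine hH1 t x ?_ htT h9 hx1
        rw [hT1]
        rw [hT2] at ht
        linarith
      · exact hB1.trans (hc2 t x ht h9 hx)
  · have hbig : ∀ x, x0 ≤ x → x < 1 → B ≤ ycY β γ a T x0 T1 T2 e1 e0 T x := by
      intro x hx _
      by_cases h9 : 1 - 1 / T ≤ x
      · refine le_trans ?_ (hc1 T x hT0.le le_rfl h9)
        refine h6.trans (le_of_eq ?_)
        rw [hrp, ← Real.exp_add]
        congr 1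
        ring
      · exact hc2 T x (by rw [hT2]; linarith) h9 hx
    have hae : ∀ᵐ f ∂μ, f ∈ Ioo (0 : ℝ) 1 := by
      rw [ae_iff]
      exact hμ
    calc ∫⁻ f, ENNReal.ofReal (1 / (1 + ycY β γ a T x0 T1 T2 e1 e0 T f)) ∂μ
        ≤ ∫⁻ f, (ENNReal.ofReal (ε' / 2) + (Ioo 0 x0).indicator (fun f => ENNReal.ofReal
          (1 / (1 + β * e0 / γ * (Real.exp (γ * f * K) - 1)))) f) ∂μ := by
          apply lintegral_mono_ae
          filter_upwards [hae] with f hf
          by_cases h9 : x0 ≤ f
          · refine le_trans ?_ (le_add_right le_rfl)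
            apply ENNReal.ofReal_le_ofReal
            have h10 := hbig f h9 hf.2
            have h11 : 2 / ε' ≤ 1 + ycY β γ a T x0 T1 T2 e1 e0 T f := by linarith
            have h12 := one_div_le_one_div_of_le (show 0 < 2 / ε' by positivity) h11
            rwa [one_div_div] at h12
          · by_cases h13 : 1 - 1 / T ≤ f
            · refine le_trans ?_ (le_add_right le_rfl)
              apply ENNReal.ofReal_le_ofReal
              have h10 : B ≤ ycY β γ a T x0 T1 T2 e1 e0 T f := by
                refine le_trans ?_ (hc1 T f hT0.le le_rfl h13)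
                refine h6.trans (le_of_eq ?_)
                rw [hrp, ← Real.exp_add]
                congr 1
                ring
              have h11 : 2 / ε' ≤ 1 + ycY β γ a T x0 T1 T2 e1 e0 T f := by linarith
              have h12 := one_div_le_one_div_of_le (show 0 < 2 / ε' by positivity) h11
              rwa [one_div_div] at h12
            · refine le_trans ?_ (le_add_left le_rfl)
              have h10 : f ∈ Ioo 0 x0 := ⟨hf.1, not_le.1 h9⟩
              rw [indicator_of_mem h10]
              apply le_of_eq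
              unfold ycY
              rw [if_neg h13, if_neg h9, max_eq_left hf.1.le]
              have h11 : max (T - T2) 0 = K := by
                rw [hT2, sub_sub_cancel, max_eq_left hK0]
              rw [h11]
      _ = ENNReal.ofReal (ε' / 2) + ∫⁻ f in Ioo 0 x0, ENNReal.ofReal
          (1 / (1 + β * e0 / γ * (Real.exp (γ * f * K) - 1))) ∂μ := by
          rw [lintegral_add_left measurable_const, lintegral_const, measure_univ, mul_one,
            lintegral_indicator measurableSet_Ioo]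
      _ ≤ ENNReal.ofReal (ε' / 2) + ENNReal.ofReal (ε' / 2) := by gcongr
      _ = ENNReal.ofReal ε' := by
          rw [← ENNReal.ofReal_add (by positivity) (by positivity), add_halves]

end Pool.Agent.Q288.RB
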